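import Pool.Agent.TGA.HPa

/-!
# TG-BAS: homogeneous bases

PLAN.  Take a basis of `range (H.p i)` for every `i < H.top`; together they form a basis of `V`
indexed by `Σ i : Fin top, Fin (finrank (range (H.p i)))`.  (For instance transport
`Pi.basis` along the linear equivalence `V ≃ Π i : Fin top, range (H.p i)`, or
`DirectSum.IsInternal.collectedBasis`.)  Reindex by `Fin r`.  The sum of `X ^ dg t` is
`∑ i, finrank (range (H.p i)) • X ^ i = hp H`.
-/

set_option autoImplicit false

noncomputable section

universe u

namespace Pool.Agent.TGA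

open Polynomial

variable {k V : Type u} [Field k] [AddCommGroup V] [Module k V]

private def basE (H : Grd k V) : V →ₗ[k] (∀ i : Fin H.top, LinearMap.range (H.p i)) where
  toFun v i := ⟨H.p i v, LinearMap.mem_range_self _ _⟩
  map_add' v w := by
    funext i
    exact Subtype.ext (map_add _ _ _)
  map_smul' c v := by
    funext i
    exact Subtype.ext (map_smul _ _ _)

private theorem basE_apply (H : Grd k V) (v : V) (i : Fin H.top) :
    (basE H v i).1 = H.p i v := rfl

private theorem basE_bij (H : Grd k V) : Function.Bijective (basE H) := by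
  constructor
  · rw [injective_iff_map_eq_zero]
    intro v hv
    rw [← H.total v]
    refine Finset.sum_eq_zero (fun i hi => ?_)
    have h := congrFun hv ⟨i, Finset.mem_range.mp hi⟩
    have h' := congrArg Subtype.val h
    exact h'
  · intro f
    refine ⟨∑ i, (f i).1, ?_⟩
    funext i
    apply Subtype.ext
    rw [basE_apply, map_sum, Finset.sum_eq_single i]
    · obtain ⟨y, hy⟩ := (f i).2
      rw [← hy, H.orth, if_pos rfl]
    · intro j _ hj
      obtain ⟨y, hy⟩ := (f j).2
      rw [← hy, H.orth, if_neg (fun h => hj (Fin.ext h.symm))]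
    · intro h
      exact absurd (Finset.mem_univ _) h

theorem exists_hom_basis [Module.Finite k V] (H : Grd k V) :
    ∃ (r : ℕ) (dg : Fin r → ℕ) (b : Module.Basis (Fin r) k V),
      (∀ t, H.p (dg t) (b t) = b t) ∧ hp H = ∑ t, X ^ dg t := by
  classical
  let e : V ≃ₗ[k] (∀ i : Fin H.top, LinearMap.range (H.p i)) :=
    LinearEquiv.ofBijective (basE H) (basE_bij H)
  let b0 : Module.Basis (Σ i : Fin H.top, Fin (Module.finrank k (LinearMap.range (H.p i)))) k V :=
    (Pi.basis (fun i : Fin H.top => Module.finBasis k (LinearMap.range (H.p i)))).map e.symm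
  have hb0 : ∀ s, H.p s.1 (b0 s) = b0 s := by
    intro s
    have h1 : e (b0 s) = Pi.single s.1 (Module.finBasis k (LinearMap.range (H.p s.1)) s.2) := by
      simp only [b0, Module.Basis.map_apply, LinearEquiv.apply_symm_apply]
      rw [Pi.basis_apply]
    have h2 : ∀ i : Fin H.top, i ≠ s.1 → H.p i (b0 s) = 0 := by
      intro i hi
      have h3 := congrFun h1 i
      rw [Pi.single_eq_of_ne hi] at h3
      exact congrArg Subtype.val h3
    conv_rhs => rw [← H.total (b0 s)]
    rw [Finset.sum_eq_single (s.1 : ℕ)]
    · intro i hi hne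
      exact h2 ⟨i, Finset.mem_range.mp hi⟩ (fun h => hne (congrArg Fin.val h))
    · intro h
      exact absurd (Finset.mem_range.mpr s.1.2) h
  let q := Fintype.equivFin (Σ i : Fin H.top, Fin (Module.finrank k (LinearMap.range (H.p i))))
  refine ⟨_, fun t => ((q.symm t).1 : ℕ), b0.reindex q, ?_, ?_⟩
  · intro t
    rw [Module.Basis.reindex_apply]
    exact hb0 _
  · rw [Equiv.sum_comp q.symm (fun s => (X : ℤ[X]) ^ (s.1 : ℕ)), Fintype.sum_sigma, hp,
      Finset.sum_range]
    apply Finset.sum_congr rfl
    intro i _
    change _ = ∑ _y : Fin (Module.finrank k (LinearMap.range (H.p i))), (X : ℤ[X]) ^ (i : ℕ)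
    rw [Finset.sum_const, Finset.card_univ, Fintype.card_fin, ← Polynomial.C_mul_X_pow_eq_monomial,
      nsmul_eq_mul]
    simp

end Pool.Agent.TGA
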