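import Pool.Agent.TGA.Defs

/-!
# TG-BRG: gradings in the sense of Mathlib
-/

set_option autoImplicit false

noncomputable section

universe u

namespace Pool.Agent.TGA

variable {k A : Type u} [Field k] [CommRing A] [Algebra k A]
variable {V : Type u} [AddCommGroup V] [Module k V]

/-- The projections of a decomposition of a vector space. -/
def dproj (ℳ : ℕ → Submodule k V) [DirectSum.Decomposition ℳ] (i : ℕ) : V →ₗ[k] V where
  toFun v := (DirectSum.decompose ℳ v i : V)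
  map_add' v w := by simp
  map_smul' c v := by
    rw [DirectSum.decompose_smul]
    rfl

theorem dproj_mem (ℳ : ℕ → Submodule k V) [DirectSum.Decomposition ℳ] (i : ℕ) (v : V) :
    dproj ℳ i v ∈ ℳ i := (DirectSum.decompose ℳ v i).2

theorem dproj_of_mem (ℳ : ℕ → Submodule k V) [DirectSum.Decomposition ℳ] (i j : ℕ) {v : V}
    (hv : v ∈ ℳ j) : dproj ℳ i v = if i = j then v else 0 := by
  split_ifs with h
  · subst h
    exact DirectSum.decompose_of_mem_same ℳ hv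
  · exact DirectSum.decompose_of_mem_ne ℳ hv (fun h' => h h'.symm)

/-- The grading of a vector space with a finite decomposition. -/
def toGrd (ℳ : ℕ → Submodule k V) [DirectSum.Decomposition ℳ] (n : ℕ)
    (hn : ∀ i, n < i → ℳ i = ⊥) : Grd k V where
  p i := dproj ℳ i
  top := n + 1
  orth i j v := by
    rw [dproj_of_mem ℳ i j (dproj_mem ℳ j v)]
  total v := by
    classical
    conv_rhs => rw [← DirectSum.sum_support_decompose ℳ v]
    symm
    refine Finset.sum_subset (fun i hi => ?_) (fun i _ hi => ?_)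
    · rw [Finset.mem_range]
      by_contra hc
      have h1 : ℳ i = ⊥ := hn i (by omega)
      have h2 : (DirectSum.decompose ℳ v i : V) = 0 := by
        have h3 := h1.le (DirectSum.decompose ℳ v i).2
        exact (Submodule.mem_bot k).mp h3
      rw [DFinsupp.mem_support_iff] at hi
      exact hi (Subtype.ext h2)
    · rw [DFinsupp.notMem_support_iff] at hi
      rw [hi]
      rfl

theorem toGrd_p (ℳ : ℕ → Submodule k V) [DirectSum.Decomposition ℳ] (n : ℕ)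
    (hn : ∀ i, n < i → ℳ i = ⊥) (i : ℕ) (v : V) :
    (toGrd ℳ n hn).p i v = dproj ℳ i v := rfl

/-- The graded algebra of the project given by a graded algebra of Mathlib. -/
def toGAlg (𝒜 : ℕ → Submodule k A) [GradedAlgebra 𝒜]
    (s : ℕ) (hs : ∀ i, s < i → 𝒜 i = ⊥) : GAlg k A where
  toGrd := toGrd 𝒜 s hs
  mul_p i j a b := by
    have h1 : dproj 𝒜 i a * dproj 𝒜 j b ∈ 𝒜 (i + j) :=
      SetLike.GradedMul.mul_mem (dproj_mem 𝒜 i a) (dproj_mem 𝒜 j b)
    simp only [toGrd_p]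
    rw [dproj_of_mem 𝒜 (i + j) (i + j) h1, if_pos rfl]
  p_one := by
    have h1 : (1 : A) ∈ 𝒜 0 := SetLike.GradedOne.one_mem
    rw [toGrd_p, dproj_of_mem 𝒜 0 0 h1, if_pos rfl]

theorem cmp_toGrd {M : Type u} [AddCommGroup M] [Module k M] [Module A M]
    (𝒜 : ℕ → Submodule k A) [GradedAlgebra 𝒜] (s : ℕ)
    (hs : ∀ i, s < i → 𝒜 i = ⊥) (ℳ : ℕ → Submodule k M) [DirectSum.Decomposition ℳ]
    (hsm : ∀ i j (a : A) (m : M), a ∈ 𝒜 i → m ∈ ℳ j → a • m ∈ ℳ (i + j)) (t : ℕ)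
    (ht : ∀ i, t < i → ℳ i = ⊥) :
    Cmp (toGAlg 𝒜 s hs) (toGrd ℳ t ht) := by
  intro i j a m
  have h1 : dproj 𝒜 i a • dproj ℳ j m ∈ ℳ (i + j) :=
    hsm i j _ _ (dproj_mem 𝒜 i a) (dproj_mem ℳ j m)
  change dproj ℳ (i + j) (dproj 𝒜 i a • dproj ℳ j m) = dproj 𝒜 i a • dproj ℳ j m
  rw [dproj_of_mem ℳ (i + j) (i + j) h1, if_pos rfl]

theorem toGAlg_p0 (𝒜 : ℕ → Submodule k A) [GradedAlgebra 𝒜] (s : ℕ)
    (hs : ∀ i, s < i → 𝒜 i = ⊥) {a : A} (ha : a ∈ 𝒜 0) : (toGAlg 𝒜 s hs).p 0 a = a := by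
  change dproj 𝒜 0 a = a
  rw [dproj_of_mem 𝒜 0 0 ha, if_pos rfl]

theorem toGAlg_mem (𝒜 : ℕ → Submodule k A) [GradedAlgebra 𝒜] (s : ℕ)
    (hs : ∀ i, s < i → 𝒜 i = ⊥) (a : A) : (toGAlg 𝒜 s hs).p 0 a ∈ 𝒜 0 := dproj_mem 𝒜 0 a

end Pool.Agent.TGA
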