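import Pool.Agent.TGA.HPc

/-!
# TG-FREE: graded free modules and the cover of a graded module

PLAN.  `cmp_fr`: componentwise; `Grd.pi_p`; for `t` with `dg t ≤ j`: `(p_j v)_t` is homogeneous of
degree `j - dg t`, use `G.mul_p` (and `G.orth`); for `j < dg t` the component is `0` on both sides
(careful: `i + j ≥ dg t` is possible but `(p_j v)_t = 0`).
`hp_fr`: `hp_pi`.  `cov_graded`: both sides are additive in `v`; the component `v_t` contributes
`(G.p (i - dg t) (v t)) • b t` (or 0 if `i < dg t`) on the left.  On the right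
`H.p i (v t • b t)` where `v t = ∑ l, G.p l (v t)` and `b t = H.p (dg t) (b t)`, so
`Cmp.hom` gives the term `l = i - dg t`.
`cov_low`: let `v ∈ ker`, `j ≤ m`, `w = (frG G dg).p j v`.  By `cov_graded` also `cov b w = 0`.
`dg t ≥ m` for all `t` (since `b t ≠ 0` and `H.p (dg t) (b t) = b t`).  If `dg t > j` then
`w t = 0`; otherwise `dg t = j = m` and `w t = G.p 0 (v t) = algebraMap k A (c t)` by `G.one_p`.
So `0 = cov b w = ∑ c t • b t` over these `t`, and `b` is linearly independent over `k`.
-/

set_option autoImplicit false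

noncomputable section

universe u

namespace Pool.Agent.TGA

open Polynomial

variable {k A : Type u} [Field k] [CommRing A] [Algebra k A]
variable {M : Type u} [AddCommGroup M] [Module k M] [Module A M] [IsScalarTower k A M]

/-- The grading of `A^r` with basis elements of degrees `dg t`. -/
def frG (G : GAlg k A) {r : ℕ} (dg : Fin r → ℕ) : Grd k (Fin r → A) :=
  Grd.pi (fun _ => G.toGrd) dg

/-- The map `A^r → M` with `e_t ↦ b_t`. -/
def cov {r : ℕ} (b : Fin r → M) : (Fin r → A) →ₗ[A] M := Fintype.linearCombination A b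

omit [Module k M] [IsScalarTower k A M] in
theorem cov_apply {r : ℕ} (b : Fin r → M) (v : Fin r → A) :
    cov b v = ∑ t, v t • b t := rfl

theorem frG_p (G : GAlg k A) {r : ℕ} (dg : Fin r → ℕ) (i : ℕ) (v : Fin r → A)
    (t : Fin r) : (frG G dg).p i v t = if dg t ≤ i then G.p (i - dg t) (v t) else 0 :=
  Grd.pi_p _ _ _ _ _

theorem cmp_fr (G : GAlg k A) {r : ℕ} (dg : Fin r → ℕ) : Cmp G (frG G dg) := by
  intro i j a m
  funext t
  rw [frG_p, Pi.smul_apply, frG_p, smul_eq_mul]
  by_cases h : dg t ≤ j
  · simp only [if_pos h]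
    rw [if_pos (by omega), show i + j - dg t = i + (j - dg t) by omega]
    exact G.mul_p i (j - dg t) a (m t)
  · simp only [if_neg h, mul_zero, map_zero, ite_self]

theorem hp_fr [Module.Finite k A] (G : GAlg k A) {r : ℕ} (dg : Fin r → ℕ) :
    hp (frG G dg) = hp G.toGrd * ∑ t, X ^ dg t := by
  unfold frG
  rw [hp_pi, Finset.mul_sum]
  exact Finset.sum_congr rfl (fun t _ => mul_comm _ _)

theorem cov_surj {r : ℕ} (b : Module.Basis (Fin r) k M) :
    Function.Surjective (cov (A := A) (b : Fin r → M)) := by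
  intro m
  refine ⟨fun t => algebraMap k A (b.repr m t), ?_⟩
  rw [cov_apply]
  conv_rhs => rw [← b.sum_repr m]
  exact Finset.sum_congr rfl (fun t _ => algebraMap_smul A _ _)

theorem cov_graded (G : GAlg k A) {H : Grd k M} (hc : Cmp G H) {r : ℕ} (dg : Fin r → ℕ)
    (b : Fin r → M) (hb : ∀ t, H.p (dg t) (b t) = b t) (i : ℕ) (v : Fin r → A) :
    cov b ((frG G dg).p i v) = H.p i (cov b v) := by
  rw [cov_apply, cov_apply, map_sum]
  refine Finset.sum_congr rfl (fun t _ => ?_)
  rw [frG_p]
  have h1 : G.toGrd.top ≤ G.toGrd.top + (i + 1) := by omega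
  conv_rhs => rw [← G.toGrd.total_le h1 (v t), Finset.sum_smul, map_sum]
  have h2 : ∀ l ∈ Finset.range (G.toGrd.top + (i + 1)), H.p i (G.p l (v t) • b t) =
      if l + dg t = i then G.p l (v t) • b t else 0 := by
    intro l _
    have h3 := Cmp.hom hc i l (dg t) (v t) (b t)
    rw [hb t] at h3
    exact h3
  rw [Finset.sum_congr rfl h2]
  split_ifs with h
  · rw [Finset.sum_eq_single (i - dg t)]
    · rw [if_pos (by omega)]
    · intro l _ hl
      rw [if_neg (by omega)]
    · intro hl
      exact absurd (Finset.mem_range.mpr (by omega)) hl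
  · rw [zero_smul]
    symm
    refine Finset.sum_eq_zero (fun l _ => ?_)
    rw [if_neg (by omega)]

end Pool.Agent.TGA
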