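import Pool.Agent.TGA.Les

/-!
# TGA-LES2: further lemmas on Ext
-/

set_option autoImplicit false

noncomputable section

universe u

namespace Pool.Agent.TGA

open CategoryTheory

variable {R : Type u} [CommRing R]
variable {X Y Z W : Type u} [AddCommGroup X] [Module R X] [AddCommGroup Y] [Module R Y]
  [AddCommGroup Z] [Module R Z] [AddCommGroup W] [Module R W]

/-- `Ext^1(Z, W) = 0` if all maps `X → W` extend to the projective module `Y`. -/
theorem les_one (f : X →ₗ[R] Y) (g : Y →ₗ[R] Z)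
    (hfg : LinearMap.range f = LinearMap.ker g) (hf : Function.Injective f)
    (hg : Function.Surjective g)
    (h' : Subsingleton (Abelian.Ext.{u} (ModuleCat.of R Y) (ModuleCat.of R W) 1))
    (h : ∀ φ : X →ₗ[R] W, ∃ ψ : Y →ₗ[R] W, ∀ x, ψ (f x) = φ x) :
    Subsingleton (Abelian.Ext.{u} (ModuleCat.of R Z) (ModuleCat.of R W) 1) := by
  refine subsingleton_of_forall_eq 0 (fun x => ?_)
  have hS := sc_exact f g hfg hf hg
  obtain ⟨x₁, hx⟩ := Abelian.Ext.contravariant_sequence_exact₃ hS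
    (ModuleCat.of R W) x (@Subsingleton.elim _ h' _ _) (n₀ := 0) (by omega)
  obtain ⟨q, rfl⟩ := Abelian.Ext.addEquiv₀.symm.surjective x₁
  obtain ⟨ψ, hψ⟩ := h q.hom
  have h2 : (sc f g hfg).f ≫ ModuleCat.ofHom ψ = q := by
    ext x
    exact hψ x
  rw [← hx]
  change hS.extClass.comp (Abelian.Ext.mk₀ q) _ = 0
  rw [← h2, ← Abelian.Ext.mk₀_comp_mk₀,
    ← Abelian.Ext.comp_assoc (a₁ := 1) (a₂ := 0) (a₃ := 0) (a₁₂ := 1) (a₂₃ := 0) (a := 1)
      _ _ _ rfl rfl rfl, hS.extClass_comp, Abelian.Ext.zero_comp]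

/-- `Ext^(j+1)(Z, W) = 0` if `Ext^j(X, W) = 0` and `Ext^(j+1)(Y, W) = 0`. -/
theorem les_up (f : X →ₗ[R] Y) (g : Y →ₗ[R] Z)
    (hfg : LinearMap.range f = LinearMap.ker g) (hf : Function.Injective f)
    (hg : Function.Surjective g) (j : ℕ)
    (h' : Subsingleton (Abelian.Ext.{u} (ModuleCat.of R Y) (ModuleCat.of R W) (j + 1)))
    (h : Subsingleton (Abelian.Ext.{u} (ModuleCat.of R X) (ModuleCat.of R W) j)) :
    Subsingleton (Abelian.Ext.{u} (ModuleCat.of R Z) (ModuleCat.of R W) (j + 1)) := by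
  refine subsingleton_of_forall_eq 0 (fun x => ?_)
  have hS := sc_exact f g hfg hf hg
  obtain ⟨x₁, hx⟩ := Abelian.Ext.contravariant_sequence_exact₃ hS
    (ModuleCat.of R W) x (@Subsingleton.elim _ h' _ _) (n₀ := j) (by omega)
  have h3 : x₁ = 0 := @Subsingleton.elim _ h _ _
  rw [← hx, h3, Abelian.Ext.comp_zero]
  rfl

/-- Ext of retracts, first argument -/
theorem ext_retract (a : X →ₗ[R] Y) (b : Y →ₗ[R] X) (hab : ∀ x, b (a x) = x) (j : ℕ)
    (h : Subsingleton (Abelian.Ext.{u} (ModuleCat.of R Y) (ModuleCat.of R W) j)) :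
    Subsingleton (Abelian.Ext.{u} (ModuleCat.of R X) (ModuleCat.of R W) j) := by
  refine subsingleton_of_forall_eq 0 (fun x => ?_)
  have h1 : ModuleCat.ofHom a ≫ ModuleCat.ofHom b = 𝟙 (ModuleCat.of R X) := by
    ext x
    exact hab x
  have h2 : (Abelian.Ext.mk₀ (ModuleCat.ofHom b)).comp x (zero_add j) = 0 :=
    @Subsingleton.elim _ h _ _
  have h3 := Abelian.Ext.mk₀_comp_mk₀_assoc (ModuleCat.ofHom a) (ModuleCat.ofHom b) x
  rw [h2, h1, Abelian.Ext.mk₀_id_comp, Abelian.Ext.comp_zero] at h3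
  exact h3.symm

/-- Ext of retracts, second argument -/
theorem ext_retract' (a : X →ₗ[R] Y) (b : Y →ₗ[R] X) (hab : ∀ x, b (a x) = x) (j : ℕ)
    (h : Subsingleton (Abelian.Ext.{u} (ModuleCat.of R W) (ModuleCat.of R Y) j)) :
    Subsingleton (Abelian.Ext.{u} (ModuleCat.of R W) (ModuleCat.of R X) j) := by
  refine subsingleton_of_forall_eq 0 (fun x => ?_)
  have h1 : ModuleCat.ofHom a ≫ ModuleCat.ofHom b = 𝟙 (ModuleCat.of R X) := by
    ext x
    exact hab x
  have h2 : x.comp (Abelian.Ext.mk₀ (ModuleCat.ofHom a)) (add_zero j) = 0 :=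
    @Subsingleton.elim _ h _ _
  have h3 : (x.comp (Abelian.Ext.mk₀ (ModuleCat.ofHom a)) (add_zero j)).comp
      (Abelian.Ext.mk₀ (ModuleCat.ofHom b)) (add_zero j) = x := by
    rw [Abelian.Ext.comp_assoc_of_second_deg_zero, Abelian.Ext.mk₀_comp_mk₀, h1,
      Abelian.Ext.comp_mk₀_id]
  rw [← h3, h2, Abelian.Ext.zero_comp]

end Pool.Agent.TGA
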