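import Pool.Agent.TGA.Defs

/-!
# TG-INJ: the dual of a free module is injective

PLAN.  `P` free over `A` with finite basis `b`.  Let `f : X → Y` be an injective `A`-linear map
and `g : X → P^*` `A`-linear.  Make `X`, `Y` into `k`-modules (`Module.compHom _ (algebraMap k A)`,
`IsScalarTower`).  For each `t` the functional `g_t : x ↦ (g x)(b t)` is `k`-linear; extend it to
`h_t : Y → k` with `h_t ∘ f = g_t` (`linv` or `LinearMap.exists_leftInverse_of_injective`).
Put `(h y)(v) = ∑ t, h_t (b.repr v t • y)`.  Then `h` is `A`-linear (`b.repr (a • v) t = a * ...`)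
and `h (f x) = g x` because `v = ∑ t, b.repr v t • b t` and
`(g x)(a • b t) = (a • g x)(b t) = (g (a • x))(b t)`.
`ext_C`: apply `dual_inj` (`Module.Injective.out`) to `i : N → F` and the `A`-linear map
`N → F^*`, `n ↦ C(n, -)`; the `k`-linearity of the extension `F → F^*` follows from
`A`-linearity and `IsScalarTower`.
-/

set_option autoImplicit false

noncomputable section

universe u

namespace Pool.Agent.TGA

variable {k A : Type u} [Field k] [CommRing A] [Algebra k A]
variable {N : Type u} [AddCommGroup N] [Module k N] [Module A N] [IsScalarTower k A N]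
variable {F : Type u} [AddCommGroup F] [Module k F] [Module A F] [IsScalarTower k A F]
variable {P : Type u} [AddCommGroup P] [Module k P] [Module A P] [IsScalarTower k A P]

theorem inj_fn_sum {ι : Type} (s : Finset ι) (φ : ι → Du k P) (v : P) :
    Du.fn (∑ i ∈ s, φ i) v = ∑ i ∈ s, Du.fn (φ i) v := by
  classical
  induction s using Finset.induction_on with
  | empty => simp
  | insert a s ha ih => rw [Finset.sum_insert ha, Finset.sum_insert ha, Du.fn_add, ih]

variable (k) in
theorem dual_inj {ι : Type} [Fintype ι] (b : Module.Basis ι A P) :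
    Module.Injective A (Du k P) := by
  classical
  refine ⟨fun X Y _ _ _ _ f hf g => ?_⟩
  letI mX : Module k X := Module.compHom X (algebraMap k A)
  letI mY : Module k Y := Module.compHom Y (algebraMap k A)
  haveI tX : IsScalarTower k A X := IsScalarTower.of_algebraMap_smul (fun r x => rfl)
  haveI tY : IsScalarTower k A Y := IsScalarTower.of_algebraMap_smul (fun r x => rfl)
  have hkX : ∀ (c : k) (x : X), c • x = algebraMap k A c • x := fun c x => rfl
  have hkY : ∀ (c : k) (y : Y), c • y = algebraMap k A c • y := fun c y => rfl
  let fk : X →ₗ[k] Y := f.restrictScalars k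
  have hfk : Function.Injective fk := hf
  let gt : ι → X →ₗ[k] k := fun t =>
    { toFun := fun x => Du.fn (g x) (b t)
      map_add' := fun x x' => by rw [map_add, Du.fn_add]
      map_smul' := fun c x => by
        rw [hkX, map_smul, Du.fn_asmul, algebraMap_smul, map_smul, RingHom.id_apply] }
  let ht : ι → Y →ₗ[k] k := fun t => (gt t).comp (linv fk hfk)
  have hht : ∀ t x, ht t (f x) = Du.fn (g x) (b t) := by
    intro t x
    change gt t (linv fk hfk (fk x)) = _
    rw [linv_apply]
    rfl
  let h : Y →ₗ[A] Du k P :=
    { toFun := fun y => Du.mk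
        { toFun := fun v => ∑ t, ht t (b.repr v t • y)
          map_add' := fun v w => by
            rw [← Finset.sum_add_distrib]
            refine Finset.sum_congr rfl (fun t _ => ?_)
            rw [map_add, Finsupp.add_apply, add_smul, map_add]
          map_smul' := fun c v => by
            rw [RingHom.id_apply, Finset.smul_sum]
            refine Finset.sum_congr rfl (fun t _ => ?_)
            rw [← algebraMap_smul A c v, b.repr.map_smul, Finsupp.smul_apply, smul_eq_mul,
              mul_smul, ← hkY, map_smul] }
      map_add' := fun y y' => by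
        refine Du.ext (fun v => ?_)
        rw [Du.fn_add, Du.fn_mk, Du.fn_mk, Du.fn_mk]
        simp only [LinearMap.coe_mk, AddHom.coe_mk]
        rw [← Finset.sum_add_distrib]
        refine Finset.sum_congr rfl (fun t _ => ?_)
        rw [smul_add, map_add]
      map_smul' := fun a y => by
        refine Du.ext (fun v => ?_)
        rw [RingHom.id_apply, Du.fn_asmul, Du.fn_mk, Du.fn_mk]
        simp only [LinearMap.coe_mk, AddHom.coe_mk]
        refine Finset.sum_congr rfl (fun t _ => ?_)
        rw [b.repr.map_smul, Finsupp.smul_apply, smul_eq_mul, mul_comm, mul_smul] }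
  refine ⟨h, fun x => ?_⟩
  refine Du.ext (fun v => ?_)
  change ∑ t, ht t (b.repr v t • f x) = Du.fn (g x) v
  conv_rhs => rw [← b.sum_repr v, map_sum]
  refine Finset.sum_congr rfl (fun t _ => ?_)
  rw [← map_smul, hht, map_smul, Du.fn_asmul]

theorem ext_C {ι : Type} [Fintype ι] (b : Module.Basis ι A P) (i : N →ₗ[A] F)
    (hi : Function.Injective i) :
    ∀ C ∈ Bil k A N P, ∃ C' ∈ Bil k A F P, ∀ n f, ev C' (i n) f = ev C n f := by
  intro C hC
  let g : N →ₗ[A] Du k P :=
    { toFun := fun n => C n
      map_add' := fun n n' => map_add C n n'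
      map_smul' := fun a n => by
        refine Du.ext (fun v => ?_)
        exact hC a n v }
  obtain ⟨h, hh⟩ := (dual_inj k b).out i hi g
  refine ⟨h.restrictScalars k, ?_, ?_⟩
  · intro a m n
    change Du.fn (h (a • m)) n = Du.fn (h m) (a • n)
    rw [map_smul, Du.fn_asmul]
  · intro n f
    change Du.fn (h (i n)) f = Du.fn (C n) f
    rw [hh]
    rfl

end Pool.Agent.TGA
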