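import Pool.Agent.TGA.Les
import Pool.Agent.TGA.Inj

/-!
# TG-VDATA: what the vanishing of Ext gives for `0 → N → P → M → 0`, `P` free

PLAN.  Write `D = Du k`.  A balanced form `C ∈ Bil(X, Y)` is the same as an `A`-linear map
`X → D Y`, `x ↦ C(x, -)` (and `k`-linearity follows from `A`-linearity, `IsScalarTower`).
`0 → D M → D P → D N → 0` (maps `φ ↦ φ ∘ π`, `φ ↦ φ ∘ i`) is exact: `π` is surjective; a
functional on `N` extends to `P` along the injective `i`; a functional on `P` vanishing on
`range i = ker π` factors through `π`.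
`van_LA`: `les_extend` for `i, π`, `W = D M`, `Ext^1(M, D M) = 0`.
`Ext^j(N, D M) = 0` for `1 ≤ j ≤ q + 1`: `les_left` (with `ext_proj`, `P` is free so projective)
and `Ext^(j+1)(M, D M) = 0`.
`van_LB`: `les_lift` for `D π, D i`, `W = N`, `Ext^1(N, D M) = 0`.
`van_next`: `les_right` for `D π, D i`, `W = N`, with `ext_inj` (`dual_inj k b`).
-/

set_option autoImplicit false

noncomputable section

universe u

namespace Pool.Agent.TGA

open CategoryTheory

variable {k A : Type u} [Field k] [CommRing A] [Algebra k A]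
variable {M : Type u} [AddCommGroup M] [Module k M] [Module A M] [IsScalarTower k A M]
variable {N : Type u} [AddCommGroup N] [Module k N] [Module A N] [IsScalarTower k A N]
variable {P : Type u} [AddCommGroup P] [Module k P] [Module A P] [IsScalarTower k A P]

/-- the `A`-linear map of a balanced form -/
def toA (B : BF k N M) (hB : B ∈ Bil k A N M) : N →ₗ[A] Du k M where
  toFun n := B n
  map_add' n n' := map_add B n n'
  map_smul' a n := Du.ext (fun m => hB a n m)

private theorem ofA_mem (φ : N →ₗ[A] Du k M) :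
    (φ.restrictScalars k : N →ₗ[k] Du k M) ∈ Bil k A N M := by
  intro a n m
  have h1 : φ (a • n) = a • φ n := map_smul φ a n
  exact congrArg (fun ψ : Du k M => Du.fn ψ m) h1

/-- the dual of a linear map -/
def dmap (f : N →ₗ[A] M) : Du k M →ₗ[A] Du k N where
  toFun φ := Du.mk ((Du.fn φ).comp (f.restrictScalars k))
  map_add' φ ψ := Du.ext (fun n => rfl)
  map_smul' a φ := by
    refine Du.ext (fun n => ?_)
    exact congrArg (Du.fn φ) (map_smul f a n).symm

theorem dmap_fn (f : N →ₗ[A] M) (φ : Du k M) (n : N) :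
    Du.fn (dmap (k := k) f φ) n = Du.fn φ (f n) := rfl

private theorem dmap_inj (π : P →ₗ[A] M) (hπ : Function.Surjective π) :
    Function.Injective (dmap (k := k) π) := by
  intro φ ψ h
  refine Du.ext (fun m => ?_)
  obtain ⟨p, rfl⟩ := hπ m
  rw [← dmap_fn, ← dmap_fn, h]

private theorem dmap_surj (i : N →ₗ[A] P) (hi : Function.Injective i) :
    Function.Surjective (dmap (k := k) i) := by
  intro φ
  have hi' : Function.Injective (i.restrictScalars k : N →ₗ[k] P) := hi
  refine ⟨Du.mk ((Du.fn φ).comp (linv (i.restrictScalars k) hi')), ?_⟩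
  refine Du.ext (fun n => ?_)
  rw [dmap_fn]
  exact congrArg (Du.fn φ) (linv_apply (i.restrictScalars k) hi' n)

private theorem dmap_exact (i : N →ₗ[A] P) (π : P →ₗ[A] M)
    (hπ : Function.Surjective π) (hex : LinearMap.range i = LinearMap.ker π) :
    LinearMap.range (dmap (k := k) π) = LinearMap.ker (dmap (k := k) i) := by
  apply le_antisymm
  · rintro _ ⟨φ, rfl⟩
    rw [LinearMap.mem_ker]
    refine Du.ext (fun n => ?_)
    rw [dmap_fn, dmap_fn]
    have h1 : i n ∈ LinearMap.ker π := hex ▸ LinearMap.mem_range_self i n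
    rw [LinearMap.mem_ker.1 h1]
    simp
  · intro ψ hψ
    have hψ' : ∀ n, Du.fn ψ (i n) = 0 := by
      intro n
      rw [← dmap_fn, LinearMap.mem_ker.1 hψ]
      simp
    obtain ⟨s, hs⟩ := LinearMap.exists_rightInverse_of_surjective
      (π.restrictScalars k : P →ₗ[k] M) (LinearMap.range_eq_top.2 hπ)
    refine ⟨Du.mk ((Du.fn ψ).comp s), ?_⟩
    refine Du.ext (fun p => ?_)
    rw [dmap_fn]
    have h1 : π (s (π p)) = π p := LinearMap.congr_fun hs (π p)
    have h2 : s (π p) - p ∈ LinearMap.ker π := by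
      rw [LinearMap.mem_ker, map_sub, h1, sub_self]
    rw [← hex] at h2
    obtain ⟨n, hn⟩ := h2
    have h3 : Du.fn ψ (s (π p) - p) = 0 := by rw [← hn]; exact hψ' n
    rw [map_sub] at h3
    exact sub_eq_zero.1 h3

theorem van_LA (i : N →ₗ[A] P) (π : P →ₗ[A] M) (hi : Function.Injective i)
    (hπ : Function.Surjective π) (hex : LinearMap.range i = LinearMap.ker π)
    (hv : Van k A M 1) :
    ∀ C ∈ Bil k A N M, ∃ C' ∈ Bil k A P M, ∀ n m, ev C' (i n) m = ev C n m := by
  intro C hC
  obtain ⟨ψ, hψ⟩ := les_extend i π hex hi hπ (hv 1 le_rfl le_rfl) (toA C hC)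
  refine ⟨ψ.restrictScalars k, ofA_mem ψ, ?_⟩
  intro n m
  exact congrArg (fun φ : Du k M => Du.fn φ m) (hψ n)

theorem van_mid {ι : Type} [Fintype ι] (b : Module.Basis ι A P) (i : N →ₗ[A] P)
    (π : P →ₗ[A] M) (hi : Function.Injective i)
    (hπ : Function.Surjective π) (hex : LinearMap.range i = LinearMap.ker π) (q : ℕ)
    (hv : Van k A M (q + 1)) (j : ℕ) (hj : 1 ≤ j) (hjq : j ≤ q) :
    Subsingleton (Abelian.Ext.{u} (ModuleCat.of A N) (ModuleCat.of A (Du k M)) j) := by
  exact les_left i π hex hi hπ j (hv (j + 1) (by omega) (by omega))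
    (ext_proj (Module.Projective.of_basis b) j hj)

theorem van_LB {ι : Type} [Fintype ι] (b : Module.Basis ι A P) (i : N →ₗ[A] P)
    (π : P →ₗ[A] M) (hi : Function.Injective i)
    (hπ : Function.Surjective π) (hex : LinearMap.range i = LinearMap.ker π)
    (hv : Van k A M 2) :
    ∀ K ∈ Bil k A N N, ∃ C ∈ Bil k A N P, ∀ n n', ev C n (i n') = ev K n n' := by
  intro K hK
  obtain ⟨ψ, hψ⟩ := les_lift (dmap (k := k) π) (dmap (k := k) i) (dmap_exact i π hπ hex)
    (dmap_inj π hπ) (dmap_surj i hi) (van_mid b i π hi hπ hex 1 hv 1 le_rfl le_rfl) (toA K hK)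
  refine ⟨ψ.restrictScalars k, ofA_mem ψ, ?_⟩
  intro n n'
  exact congrArg (fun φ : Du k N => Du.fn φ n') (hψ n)

theorem van_next {ι : Type} [Fintype ι] (b : Module.Basis ι A P) (i : N →ₗ[A] P)
    (π : P →ₗ[A] M) (hi : Function.Injective i)
    (hπ : Function.Surjective π) (hex : LinearMap.range i = LinearMap.ker π) (q : ℕ)
    (hv : Van k A M (q + 2)) : Van k A N q := by
  intro j hj hjq
  exact les_right (dmap (k := k) π) (dmap (k := k) i) (dmap_exact i π hπ hex)
    (dmap_inj π hπ) (dmap_surj i hi) j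
    (van_mid b i π hi hπ hex (q + 1) hv (j + 1) (by omega) (by omega))
    (ext_inj (dual_inj k b) j hj)

end Pool.Agent.TGA
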