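import Pool.Agent.TGA.Phi
import Pool.Agent.TGA.VData
import Pool.Agent.TGA.Free
import Pool.Agent.TGA.Les2

/-!
# TGA-DEC: modules over a local ring whose maximal ideal is decomposable

`lem_D`: if `x ∈ m`, `x ∉ m ^ 2` annihilates `W ≠ 0`, then `Ext^1(W, W^*) ≠ 0`: for the minimal
cover `0 → K → R^r → W → 0` the element `x e_1` of `K` is not in `m K`, so there is a balanced
form `C` on `K × W` with `C(x e_1, w) ≠ 0`; an extension `C'` to `R^r × W` has
`C'(x e_1, w) = C'(e_1, x w) = 0`.

`pc_dec`: let `m = I ⊕ J`, `I, J ≠ 0`.  The second syzygy of a module is `W' ⊕ W''` with `J W' = 0`,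
`I W'' = 0`.  So `Ext^i(U, U^*) = 0` for `1 ≤ i ≤ 5` only if `U` is free.
-/

set_option autoImplicit false

noncomputable section

universe u

namespace Pool.Agent.TGA

open CategoryTheory

/-- `(P_c)`: finite dimensional modules `U` with `Ext^i(U, U^*) = 0` for `1 ≤ i ≤ c` are free. -/
def PC (k R : Type u) [Field k] [CommRing R] [Algebra k R] (c : ℕ) : Prop :=
  ∀ (U : Type u) [AddCommGroup U] [Module k U] [Module R U] [IsScalarTower k R U]
    [Module.Finite k U], Van k R U c → Module.Free R U

variable {k R : Type u} [Field k] [CommRing R] [Algebra k R]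

/-- minimal covers -/
theorem exists_min (hu : ∀ a : R, IsUnit a ∨ IsNilpotent a) (U : Type u) [AddCommGroup U]
    [Module R U] [Module.Finite R U] :
    ∃ (r : ℕ) (b : Fin r → U), Function.Surjective (cov (A := R) b) ∧
      ∀ v, cov (A := R) b v = 0 → ∀ t, v t ∈ nilradical R := by
  classical
  have hex : ∃ r : ℕ, ∃ b : Fin r → U, Function.Surjective (cov (A := R) b) := by
    obtain ⟨n, s, hs⟩ := Module.Finite.exists_fin (R := R) (M := U)
    refine ⟨n, s, ?_⟩
    rw [← LinearMap.range_eq_top, cov, Fintype.range_linearCombination, hs]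
  obtain ⟨b, hb⟩ := Nat.find_spec hex
  have hmin := fun (q : ℕ) (hq : q < Nat.find hex) => Nat.find_min hex hq
  generalize Nat.find hex = p at b hb hmin
  refine ⟨p, b, hb, fun v hv t => ?_⟩
  rcases hu (v t) with h | h
  · exfalso
    obtain ⟨q, rfl⟩ : ∃ q, p = q + 1 := ⟨p - 1, by have := t.2; omega⟩
    apply hmin q (Nat.lt_succ_self q)
    obtain ⟨w, hw⟩ := h.exists_left_inv
    refine ⟨fun s => b (t.succAbove s), fun x => ?_⟩
    obtain ⟨a, rfl⟩ := hb x
    refine ⟨fun s => a (t.succAbove s) - a t * w * v (t.succAbove s), ?_⟩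
    rw [cov_apply, Fin.sum_univ_succAbove _ t] at hv
    rw [cov_apply, cov_apply, Fin.sum_univ_succAbove _ t]
    have h1 : b t = - ∑ s, (w * v (t.succAbove s)) • b (t.succAbove s) := by
      have h2 := congrArg (fun y => w • y) hv
      simp only [smul_add, smul_zero, Finset.smul_sum, smul_smul] at h2
      rw [hw, one_smul] at h2
      exact eq_neg_of_add_eq_zero_left h2
    conv_rhs => rw [h1, smul_neg, Finset.smul_sum, neg_add_eq_sub, ← Finset.sum_sub_distrib]
    refine Finset.sum_congr rfl (fun s _ => ?_)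
    rw [smul_smul, ← sub_smul, mul_assoc]
  · exact mem_nilradical.mpr h

theorem cov_single {r : ℕ} {U : Type u} [AddCommGroup U] [Module R U] (b : Fin r → U)
    (t : Fin r) (x : R) : cov (A := R) b (Pi.single t x) = x • b t := by
  rw [cov_apply, Finset.sum_eq_single t]
  · rw [Pi.single_eq_same]
  · intro s _ hs
    rw [Pi.single_eq_of_ne hs, zero_smul]
  · intro h
    exact absurd (Finset.mem_univ _) h

theorem nak_top (U : Type u) [AddCommGroup U] [Module R U] [Module.Finite R U] [Nontrivial U] :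
    ∃ w : U, w ∉ nilradical R • (⊤ : Submodule R U) := by
  by_contra hcon
  push Not at hcon
  have h1 : (⊤ : Submodule R U) = ⊥ :=
    Submodule.eq_bot_of_le_smul_of_le_jacobson_bot (nilradical R) ⊤ Module.Finite.fg_top
      (fun x _ => hcon x) nilrad_jac
  exact top_ne_bot h1

theorem lem_D [Nontrivial R] (hu : ∀ a : R, IsUnit a ∨ IsNilpotent a) [Module.Finite k R] {x : R}
    (hx2 : x ∉ nilradical R * nilradical R) (W : Type u)
    [AddCommGroup W] [Module k W] [Module R W] [IsScalarTower k R W] [Module.Finite k W]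
    [Nontrivial W] (hxW : ∀ w : W, x • w = 0) (hv : Van k R W 1) : False := by
  have hfW : Module.Finite R W := Module.Finite.of_restrictScalars_finite k R W
  obtain ⟨r, b, hb, hmin⟩ := exists_min hu W
  have hr : Nonempty (Fin r) := by
    by_contra hcon
    rw [not_nonempty_iff] at hcon
    obtain ⟨w, hw⟩ := exists_ne (0 : W)
    obtain ⟨v, rfl⟩ := hb w
    exact hw (by rw [Subsingleton.elim v 0, map_zero])
  obtain ⟨t0⟩ := hr
  let K : Submodule R (Fin r → R) := LinearMap.ker (cov b)
  have he0 : (Pi.single t0 x : Fin r → R) ∈ K := by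
    change cov b (Pi.single t0 x) = 0
    rw [cov_single, hxW]
  have hP : ∀ y ∈ nilradical R • (⊤ : Submodule R K), ∀ t, y.1 t ∈ nilradical R * nilradical R := by
    intro y hy
    refine Submodule.smul_induction_on hy (fun a ha n _ t => ?_) (fun y z hy hz t => ?_)
    · exact Ideal.mul_mem_mul ha (hmin n.1 n.2 t)
    · exact Ideal.add_mem _ (hy t) (hz t)
  have he1 : (⟨Pi.single t0 x, he0⟩ : K) ∉ nilradical R • (⊤ : Submodule R K) := by
    intro h
    have h1 : (Pi.single t0 x : Fin r → R) t0 ∈ nilradical R * nilradical R := hP _ h t0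
    rw [Pi.single_eq_same] at h1
    exact hx2 h1
  obtain ⟨w0, hw0⟩ := nak_top (R := R) W
  obtain ⟨C, hC, hne⟩ := exists_form (k := k) hu (nilradical R • (⊤ : Submodule R K))
    (fun a ha v => Submodule.smul_mem_smul ha trivial) he1
    (nilradical R • (⊤ : Submodule R W)) (fun a ha v => Submodule.smul_mem_smul ha trivial) hw0
  obtain ⟨C', hC', h1⟩ := van_LA K.subtype (cov b) Subtype.val_injective hb
    (by rw [Submodule.range_subtype]) hv C hC
  apply hne
  rw [← h1]
  have h3 : K.subtype ⟨Pi.single t0 x, he0⟩ = x • (Pi.single t0 1 : Fin r → R) := by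
    change (Pi.single t0 x : Fin r → R) = _
    rw [← Pi.single_smul', smul_eq_mul, mul_one]
  rw [h3, hC', hxW, ev_zero_right]

/-- the socle -/
theorem exists_soc (k : Type u) {R : Type u} [Field k] [CommRing R] [Algebra k R] [Nontrivial R]
    [Module.Finite k R] :
    ∃ s : R, s ≠ 0 ∧ ∀ a ∈ nilradical R, s * a = 0 := by
  have hN0 : IsNoetherian k R := isNoetherian_of_isNoetherianRing_of_finite k R
  have hN : IsNoetherianRing R := isNoetherian_of_tower k hN0
  obtain ⟨n, hn'⟩ := IsNoetherianRing.isNilpotent_nilradical R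
  classical
  have hex : ∃ n, nilradical R ^ n = 0 := ⟨n, hn'⟩
  have h1 := Nat.find_spec hex
  have h2 := fun q (hq : q < Nat.find hex) => Nat.find_min hex hq
  generalize Nat.find hex = p at h1 h2
  obtain ⟨q, rfl⟩ : ∃ q, p = q + 1 := by
    rcases p with _ | q
    · exfalso
      rw [pow_zero] at h1
      exact one_ne_zero h1
    · exact ⟨q, rfl⟩
  have h3 := h2 q (Nat.lt_succ_self q)
  obtain ⟨s, hs, hs0⟩ := Submodule.exists_mem_ne_zero_of_ne_bot h3
  refine ⟨s, hs0, fun a ha => ?_⟩
  have h4 : s * a ∈ nilradical R ^ (q + 1) := by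
    rw [pow_succ]
    exact Ideal.mul_mem_mul hs ha
  rw [h1] at h4
  exact (Submodule.mem_bot R).mp h4

end Pool.Agent.TGA
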