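import Pool.Agent.TGA.MCov
import Pool.Agent.TGA.Dec

/-!
# TGA-CMPR: the lowest component as a module over `A_0`

Let `B = A_0` and let all degrees of `M`, `M'` be at least `m`.  If `Ext^j_A(M', M^*) = 0` for
`1 ≤ j ≤ c`, then `Ext^j_B(M'_m, (M_m)^*) = 0` for `1 ≤ j ≤ c`: a graded cover of `M'` with
generators of degree at least `m` gives a cover of `M'_m` over `B`, and a form on `N_m × M_m`
extends by zero to a balanced form on `N × M`.
-/

set_option autoImplicit false

noncomputable section

universe u

namespace Pool.Agent.TGA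

open CategoryTheory

variable {k A : Type u} [Field k] [CommRing A] [Algebra k A] {G : GAlg k A}

/-- The component of degree `m` as a module over `B = A_0`. -/
def Lw (B : Subalgebra k A) (hB : ∀ a, a ∈ B ↔ G.p 0 a = a) (M : GM k A G) (m : ℕ) :
    Submodule B M.X where
  carrier := {x | M.H.p m x = x}
  add_mem' := by
    intro x y hx hy
    have hx' : M.H.p m x = x := hx
    have hy' : M.H.p m y = y := hy
    change M.H.p m (x + y) = x + y
    rw [map_add, hx', hy']
  zero_mem' := map_zero _
  smul_mem' := by
    intro a x hx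
    have hx' : M.H.p m x = x := hx
    have ha := (hB a.1).mp a.2
    change M.H.p m (a.1 • x) = a.1 • x
    have h := M.hc.hom m 0 m a.1 x
    rw [ha, hx', if_pos (Nat.zero_add m)] at h
    exact h

variable {B : Subalgebra k A} {hB : ∀ a, a ∈ B ↔ G.p 0 a = a}

theorem lw_fin (M : GM k A G) (m : ℕ) : Module.Finite k (Lw B hB M m) :=
  Module.Finite.of_injective ((Lw B hB M m).subtype.restrictScalars k : Lw B hB M m →ₗ[k] M.X)
    Subtype.val_injective

/-- the projection to the component of degree `m` -/
def lwp (B : Subalgebra k A) (hB : ∀ a, a ∈ B ↔ G.p 0 a = a) (M : GM k A G) (m : ℕ) (x : M.X) :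
    Lw B hB M m := ⟨M.H.p m x, by
  change M.H.p m (M.H.p m x) = M.H.p m x
  rw [M.H.orth, if_pos rfl]⟩

theorem lwp_val (M : GM k A G) (m : ℕ) (x : M.X) : (lwp B hB M m x).1 = M.H.p m x := rfl

theorem lwp_self (M : GM k A G) (m : ℕ) (x : Lw B hB M m) : lwp B hB M m x.1 = x :=
  Subtype.ext x.2

theorem lwp_smul {M : GM k A G} {m : ℕ} (hl : M.low m) (a : A) (x : M.X) :
    lwp B hB M m (a • x) = (⟨G.p 0 a, (hB _).mpr (by rw [G.orth, if_pos rfl])⟩ : B) •
      lwp B hB M m x := by
  apply Subtype.ext
  exact p_low_mul M.hc hl a x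

/-- graded maps induce maps of the components -/
def lmap {M M' : GM k A G} (m : ℕ) (f : M.X →ₗ[A] M'.X)
    (hf : ∀ x, f (M.H.p m x) = M'.H.p m (f x)) : Lw B hB M m →ₗ[B] Lw B hB M' m where
  toFun x := ⟨f x.1, by
    have hx : M.H.p m x.1 = x.1 := x.2
    change M'.H.p m (f x.1) = f x.1
    rw [← hf, hx]⟩
  map_add' x y := Subtype.ext (map_add f x.1 y.1)
  map_smul' a x := Subtype.ext (map_smul f a.1 x.1)

theorem lmap_val {M M' : GM k A G} (m : ℕ) (f : M.X →ₗ[A] M'.X)
    (hf : ∀ x, f (M.H.p m x) = M'.H.p m (f x)) (x : Lw B hB M m) :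
    (lmap m f hf x).1 = f x.1 := rfl

/-- the free graded module -/
def FM [Module.Finite k A] (G : GAlg k A) {r : ℕ} (dg : Fin r → ℕ) : GM k A G where
  X := Fin r → A
  H := frG G dg
  hc := cmp_fr G dg

theorem fm_free [Module.Finite k A] {r : ℕ} (dg : Fin r → ℕ) (m : ℕ) (hdg : ∀ t, m ≤ dg t) :
    Module.Free B (Lw B hB (FM G dg) m) := by
  let e : Lw B hB (FM G dg) m ≃ₗ[B] ({t // dg t = m} → B) :=
    { toFun := fun y t => ⟨(y.1 : Fin r → A) t.1, by
        have hy : (frG G dg).p m y.1 = y.1 := y.2
        have h1 := congrFun hy t.1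
        rw [frG_p, t.2, if_pos le_rfl, Nat.sub_self] at h1
        exact (hB _).mpr h1⟩
      map_add' := fun y z => rfl
      map_smul' := fun a y => rfl
      invFun := fun v => ⟨fun t => if h : dg t = m then (v ⟨t, h⟩).1 else 0, by
        change (frG G dg).p m _ = _
        funext t
        rw [frG_p]
        by_cases h : dg t = m
        · rw [dif_pos h, h, if_pos le_rfl, Nat.sub_self]
          exact (hB _).mp (v ⟨t, h⟩).2
        · have := hdg t
          rw [dif_neg h, if_neg (by omega)]⟩
      left_inv := fun y => by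
        apply Subtype.ext
        funext t
        change (if h : dg t = m then _ else _) = _
        by_cases h : dg t = m
        · rw [dif_pos h]
        · rw [dif_neg h]
          have hy : (frG G dg).p m y.1 = y.1 := y.2
          have h1 := congrFun hy t
          have := hdg t
          rw [frG_p, if_neg (by omega)] at h1
          exact h1
      right_inv := fun v => by
        funext t
        apply Subtype.ext
        change (if h : dg t.1 = m then _ else _) = _
        rw [dif_pos t.2] }
  exact Module.Free.of_equiv e.symm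

theorem cmp_ext [Module.Finite k A] (M : GM k A G) (m : ℕ) (hM : M.low m) (c : ℕ) :
    ∀ M' : GM k A G, M'.low m →
      (∀ j, 1 ≤ j → j ≤ c → Subsingleton
        (Abelian.Ext.{u} (ModuleCat.of A M'.X) (ModuleCat.of A (Du k M.X)) j)) →
      ∀ j, 1 ≤ j → j ≤ c → Subsingleton
        (Abelian.Ext.{u} (ModuleCat.of B (Lw B hB M' m))
          (ModuleCat.of B (Du k (Lw B hB M m))) j) := by
  induction c with
  | zero =>
    intro M' _ _ j h1 h2
    omega
  | succ c ih =>
    intro M' hM' hv j h1 h2
    obtain ⟨p, b0, hb0⟩ := exists_gen M' m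
    obtain ⟨N, cv, _⟩ := exists_cv_of_gen M' m hM' b0 hb0
    have hN := cvr_low cv
    let f : Lw B hB N m →ₗ[B] Lw B hB (FM G cv.dg) m :=
      lmap (M := N) (M' := FM G cv.dg) m cv.i (fun x => cv.hgi m x)
    let g : Lw B hB (FM G cv.dg) m →ₗ[B] Lw B hB M' m :=
      lmap (M := FM G cv.dg) (M' := M') m cv.π (fun x => cv.hgπ m x)
    have hf : Function.Injective f := by
      intro x y h
      apply Subtype.ext
      exact cv.hi (congrArg Subtype.val h)
    have hg : Function.Surjective g := by
      intro z
      obtain ⟨v, hv'⟩ := cv.hπ z.1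
      refine ⟨lwp B hB (FM G cv.dg) m v, ?_⟩
      apply Subtype.ext
      change cv.π ((frG G cv.dg).p m v) = z.1
      rw [cv.hgπ, hv']
      exact z.2
    have hfg : LinearMap.range f = LinearMap.ker g := by
      apply le_antisymm
      · rintro _ ⟨x, rfl⟩
        apply Subtype.ext
        have h3 : cv.i x.1 ∈ LinearMap.ker cv.π := cv.hex ▸ LinearMap.mem_range_self _ _
        exact h3
      · intro y hy
        have h3 : cv.π y.1 = 0 := congrArg Subtype.val hy
        have h4 : (y.1 : Fin cv.r → A) ∈ LinearMap.range cv.i := by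
          rw [cv.hex]
          exact h3
        obtain ⟨n, hn⟩ := h4
        refine ⟨lwp B hB N m n, ?_⟩
        apply Subtype.ext
        change cv.i (N.H.p m n) = y.1
        rw [cv.hgi, hn]
        exact y.2
    have hfree : Module.Free B (Lw B hB (FM G cv.dg) m) := fm_free cv.dg m cv.hdg
    have hproj : Module.Projective B (Lw B hB (FM G cv.dg) m) := inferInstance
    obtain ⟨i, rfl⟩ := Nat.exists_eq_add_of_le h1
    rcases i with _ | i
    · refine les_one f g hfg hf hg (ext_proj hproj 1 le_rfl) (fun φ => ?_)
      let C : BF k N.X M.X := BF.mk (fun n x => Du.fn (φ (lwp B hB N m n)) (lwp B hB M m x))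
        (by
          intro v v' w
          have h3 : lwp B hB N m (v + v') = lwp B hB N m v + lwp B hB N m v' :=
            Subtype.ext (map_add _ _ _)
          rw [h3, map_add, Du.fn_add])
        (by
          intro c v w
          have h3 : lwp B hB N m (c • v) = algebraMap k B c • lwp B hB N m v := by
            apply Subtype.ext
            rw [lwp_val, map_smul]
            exact (algebraMap_smul A c (N.H.p m v)).symm
          rw [h3, map_smul, algebraMap_smul, Du.fn_smul])
        (by
          intro v w w'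
          have h3 : lwp B hB M m (w + w') = lwp B hB M m w + lwp B hB M m w' :=
            Subtype.ext (map_add _ _ _)
          rw [h3, map_add])
        (by
          intro c v w
          have h3 : lwp B hB M m (c • w) = c • lwp B hB M m w := by
            apply Subtype.ext
            exact map_smul _ _ _
          rw [h3, map_smul, smul_eq_mul])
      have hC : C ∈ Bil k A N.X M.X := by
        intro a n x
        change Du.fn (φ (lwp B hB N m (a • n))) (lwp B hB M m x) =
          Du.fn (φ (lwp B hB N m n)) (lwp B hB M m (a • x))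
        rw [lwp_smul hN, lwp_smul hM, map_smul, Du.fn_asmul]
      obtain ⟨ψ, hψ⟩ := les_extend cv.i cv.π cv.hex cv.hi cv.hπ (hv 1 le_rfl (by omega))
        (toA C hC)
      let ψ' : (FM G cv.dg).X →ₗ[A] Du k M.X := ψ
      have hadd : ∀ y z, ψ' (y + z) = ψ' y + ψ' z := map_add ψ'
      have hsm : ∀ (a : A) y, ψ' (a • y) = a • ψ' y := map_smul ψ'
      refine ⟨{ toFun := fun y => Du.mk ((Du.fn (ψ' y.1)).comp
                  ((Lw B hB M m).subtype.restrictScalars k))
                map_add' := fun y z => Du.ext (fun x => by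
                  change Du.fn (ψ' (y.1 + z.1)) x.1 = Du.fn (ψ' y.1) x.1 + Du.fn (ψ' z.1) x.1
                  rw [hadd, Du.fn_add])
                map_smul' := fun a y => Du.ext (fun x => by
                  change Du.fn (ψ' (a.1 • y.1)) x.1 = Du.fn (ψ' y.1) (a.1 • x.1)
                  rw [hsm, Du.fn_asmul]) }, fun x => ?_⟩
      refine Du.ext (fun y => ?_)
      change Du.fn (ψ (cv.i x.1)) y.1 = Du.fn (φ x) y
      rw [hψ]
      change Du.fn (φ (lwp B hB N m x.1)) (lwp B hB M m y.1) = _
      rw [lwp_self, lwp_self]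
    · have h3 : 1 + (i + 1) = (i + 1) + 1 := by ring
      rw [h3]
      refine les_up f g hfg hf hg (i + 1) (ext_proj hproj _ (by omega)) ?_
      refine ih N hN (fun l hl1 hl2 => ?_) (i + 1) (by omega) (by omega)
      exact les_left cv.i cv.π cv.hex cv.hi cv.hπ l (hv (l + 1) (by omega) (by omega))
        (ext_proj (Module.Projective.of_basis (Pi.basisFun A (Fin cv.r))) l hl1)

theorem van_low [Module.Finite k A] (M : GM k A G) (m : ℕ) (hM : M.low m) (c : ℕ)
    (hv : Van k A M.X c) : Van k B (Lw B hB M m) c :=
  cmp_ext M m hM c M hM hv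

theorem low_free [Module.Finite k A] (M : GM k A G) (m : ℕ) (hl : M.low m)
    (hfree : Module.Free B (Lw B hB M m)) : ∃ (N : GM k A G) (_ : Cv M N m), N.low (m + 1) := by
  have hf1 : Module.Finite k (Lw B hB M m) := lw_fin M m
  have hf2 : Module.Finite B (Lw B hB M m) := Module.Finite.of_restrictScalars_finite k B _
  let β0 := Module.Free.chooseBasis B (Lw B hB M m)
  let p := Fintype.card (Module.Free.ChooseBasisIndex B (Lw B hB M m))
  let β : Module.Basis (Fin p) B (Lw B hB M m) := β0.reindex (Fintype.equivFin _)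
  have hgen : Gen M m (fun t => (β t).1) := by
    refine ⟨fun t => (β t).2, fun x => ⟨fun t => (β.repr (lwp B hB M m x) t).1, ?_⟩⟩
    have h1 := congrArg Subtype.val (β.sum_repr (lwp B hB M m x))
    rw [Submodule.coe_sum] at h1
    refine Eq.trans h1.symm (Finset.sum_congr rfl (fun t _ => ?_))
    rw [(hB _).mp (β.repr (lwp B hB M m x) t).2]
    rfl
  obtain ⟨N, c, hc⟩ := exists_cv_of_gen M m hl _ hgen
  refine ⟨N, c, fun j hj x => ?_⟩
  rcases Nat.lt_or_ge j m with h | h
  · exact cvr_low c j h x
  · have hjm : j = m := by omega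
    subst hjm
    obtain ⟨a, ha, hs⟩ := hc x
    have h0 : ∀ t, G.p 0 (a t) = 0 := by
      have h1 : ∑ t, (⟨G.p 0 (a t), (hB _).mpr (by rw [G.orth, if_pos rfl])⟩ : B) • β t = 0 := by
        apply Subtype.ext
        rw [Submodule.coe_sum]
        exact ha
      have h3 := Fintype.linearIndependent_iff.mp β.linearIndependent _ h1
      exact fun t => congrArg Subtype.val (h3 t)
    apply c.hi
    rw [map_zero]
    funext t
    by_cases ht : c.dg t = j
    · obtain ⟨s, e⟩ := hs t ht
      rw [e, h0]
      rfl
    · have := c.hdg t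
      rw [c.hgi, frG_p, if_neg (by omega)]
      rfl

end Pool.Agent.TGA
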