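import Pool.Agent.TGA.Phi

/-!
# TGA-CYC: a module over a local algebra without antisymmetric forms is cyclic

Let `I` be the nilradical, `K = A / I` (a field), `Φ, Ψ : M → K` two `A`-linear maps and
`λ : K → k` a functional.  Then `λ (Φ m Ψ n - Ψ m Φ n)` is in `S^(-1)(M)`.  So all these vanish,
`Φ m Ψ n = Ψ m Φ n`, and so there is `x` with `M = A x + I M`.  Nakayama: `M = A x`.
The map `A → M`, `a ↦ a x` is surjective between spaces of the same dimension, so bijective.
-/

set_option autoImplicit false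

noncomputable section

universe u

namespace Pool.Agent.TGA

variable {k A : Type u} [Field k] [CommRing A] [Algebra k A]

theorem cyc_gen [Nontrivial A] (hu : ∀ a : A, IsUnit a ∨ IsNilpotent a) {M : Type u}
    [AddCommGroup M] [Module k M] [Module A M]
    [IsScalarTower k A M] [Module.Finite k M]
    (hS : Module.finrank k (Sy k A M (-1)) = 0) :
    ∃ x : M, ∀ m : M, ∃ a : A, a • x = m := by
  have hmax := nilrad_max hu
  have hfA : Module.Finite A M := Module.Finite.of_restrictScalars_finite k A M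
  set P : Submodule A M := nilradical A • (⊤ : Submodule A M) with hP
  have hPI : ∀ a ∈ nilradical A, ∀ v : M, a • v ∈ P :=
    fun a ha v => Submodule.smul_mem_smul ha trivial
  have hfS : Module.Finite k (Sy k A M (-1)) := by
    have : Module.Finite k (BF k M M) := inferInstance
    infer_instance
  have hsub : Subsingleton (Sy k A M (-1)) := Module.finrank_zero_iff.mp hS
  have key : ∀ (Φ Ψ : M →ₗ[A] Kp A) (m n : M), Φ m * Ψ n = Ψ m * Φ n := by
    intro Φ Ψ m n
    rw [← sub_eq_zero, ← Module.forall_dual_apply_eq_zero_iff k]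
    intro l
    have hB : fm l Φ Ψ - fm l Ψ Φ ∈ Sy k A M (-1) := by
      refine ⟨(Bil k A M M).sub_mem (fm_bil l Φ Ψ) (fm_bil l Ψ Φ), fun m n => ?_⟩
      simp only [ev_sub, fm_ev]
      rw [mul_comm (Φ m), mul_comm (Ψ m)]
      ring
    have h0 : (⟨_, hB⟩ : Sy k A M (-1)) = 0 := Subsingleton.elim _ _
    have h1 : fm l Φ Ψ - fm l Ψ Φ = 0 := congrArg Subtype.val h0
    have h2 : ev (fm l Φ Ψ - fm l Ψ Φ) m n = 0 := by rw [h1]; rfl
    rw [ev_sub, fm_ev, fm_ev] at h2
    rw [map_sub]
    exact h2
  -- the generator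
  have hx : ∃ x : M, (⊤ : Submodule A M) ≤ Submodule.span A {x} ⊔ nilradical A • ⊤ := by
    by_cases htop : P = ⊤
    · exact ⟨0, by rw [← hP, htop]; exact le_sup_right⟩
    · obtain ⟨x, hx⟩ : ∃ x : M, x ∉ P := by
        by_contra hcon
        push Not at hcon
        exact htop (eq_top_iff.mpr (fun m _ => hcon m))
      refine ⟨x, fun y _ => ?_⟩
      rw [← hP]
      by_contra hy
      obtain ⟨Φ, hΦ, _⟩ := exists_phi hu P hPI hx
      obtain ⟨Ψ, hΨ, hΨ0⟩ := exists_phi hu (Submodule.span A {x} ⊔ P)
        (fun a ha v => Submodule.mem_sup_right (hPI a ha v)) hy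
      have h := key Φ Ψ x y
      rw [hΨ0 x (Submodule.mem_sup_left (Submodule.mem_span_singleton_self x)), zero_mul] at h
      exact absurd h (mul_ne_zero hΦ hΨ)
  obtain ⟨x, hx⟩ := hx
  refine ⟨x, fun m => ?_⟩
  have hle : (⊤ : Submodule A M) ≤ Submodule.span A {x} :=
    Submodule.le_of_le_smul_of_le_jacobson_bot hfA.fg_top nilrad_jac hx
  exact Submodule.mem_span_singleton.mp (hle trivial)

theorem cyc [Nontrivial A] (hu : ∀ a : A, IsUnit a ∨ IsNilpotent a) [Module.Finite k A]
    {M : Type u} [AddCommGroup M] [Module k M]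
    [Module A M] [IsScalarTower k A M] [Module.Finite k M]
    (hS : Module.finrank k (Sy k A M (-1)) = 0)
    (hd : Module.finrank k M = Module.finrank k A) : Nonempty (M ≃ₗ[A] A) := by
  obtain ⟨x, hx⟩ := cyc_gen hu hS
  let f : A →ₗ[A] M := LinearMap.toSpanSingleton A M x
  have hsurj : Function.Surjective f := by
    intro m
    obtain ⟨a, ha⟩ := hx m
    exact ⟨a, by rw [← ha]; rfl⟩
  have hinj : Function.Injective f := by
    have h1 : Function.Surjective (f.restrictScalars k) := hsurj
    have h2 : Function.Injective (f.restrictScalars k) :=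
      (LinearMap.injective_iff_surjective_of_finrank_eq_finrank hd.symm).mpr h1
    exact h2
  exact ⟨(LinearEquiv.ofBijective f ⟨hinj, hsurj⟩).symm⟩

end Pool.Agent.TGA
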