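import Pool.Agent.TGA.Defs

/-!
# TG-DUALG: the dual of a graded algebra as a graded module

PLAN.  `(D A)_i = {φ : φ vanishes on A_j for j ≠ s - i}`: the projection is
`φ ↦ φ ∘ p_(s - i)` for `i ≤ s` and `0` for `i > s`.
`cmp_dual`: for `a` of degree `i` and `φ` of degree `j`: `(a φ)(b) = φ(a b)`.
`(a φ)(p_l b)` is zero unless `i + l = s - j`.
`dbl`: `a ↦ (φ ↦ φ a)` is `A`-linear, injective (functionals separate points), and the
dimensions agree.
-/

set_option autoImplicit false

noncomputable section

universe u

namespace Pool.Agent.TGA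

variable {k A : Type u} [Field k] [CommRing A] [Algebra k A]

/-- The reversed grading of the dual space. -/
def dualGrd {V : Type u} [AddCommGroup V] [Module k V] (G : Grd k V) (s : ℕ)
    (hs : G.top ≤ s + 1) : Grd k (Du k V) where
  p i := if i ≤ s then G.dual.p (s - i) else 0
  top := s + 1
  orth := by
    intro i j φ
    by_cases hi : i ≤ s
    · by_cases hj : j ≤ s
      · rw [if_pos hi, if_pos hj, G.dual.orth]
        by_cases hij : i = j
        · rw [if_pos (by omega), if_pos hij]
        · rw [if_neg (by omega), if_neg hij]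
      · rw [if_neg hj]
        simp
    · rw [if_neg hi]
      by_cases hij : i = j
      · subst hij
        simp [hi]
      · simp [hij]
  total := by
    intro φ
    have h1 : ∀ i ∈ Finset.range (s + 1), (if i ≤ s then G.dual.p (s - i) else 0) φ =
        (fun j => G.dual.p j φ) (s + 1 - 1 - i) := by
      intro i hi
      have := Finset.mem_range.mp hi
      rw [if_pos (by omega)]
      rfl
    refine (Finset.sum_congr rfl h1).trans ?_
    refine (Finset.sum_range_reflect (fun j => G.dual.p j φ) (s + 1)).trans ?_
    exact G.dual.total_le hs φ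

theorem dualGrd_p {V : Type u} [AddCommGroup V] [Module k V] (G : Grd k V) (s : ℕ)
    (hs : G.top ≤ s + 1) (i : ℕ) (φ : Du k V) (v : V) :
    Du.fn ((dualGrd G s hs).p i φ) v = if i ≤ s then Du.fn φ (G.p (s - i) v) else 0 := by
  change Du.fn ((if i ≤ s then G.dual.p (s - i) else 0) φ) v = _
  split_ifs with h
  · rfl
  · rfl

theorem dualG_mul (G : GAlg k A) (i l d : ℕ) (a b : A) :
    G.p d (G.p i a * G.p l b) = if i + l = d then G.p i a * G.p l b else 0 := by
  rw [← G.mul_p i l a b, G.orth]
  by_cases h : d = i + l
  · rw [if_pos h, if_pos h.symm]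
  · rw [if_neg h, if_neg (fun h' => h h'.symm)]

theorem cmp_dual (G : GAlg k A) (s : ℕ) (hs : G.top ≤ s + 1) :
    Cmp G (dualGrd G.toGrd s hs) := by
  intro i j a φ
  refine Du.ext (fun b => ?_)
  rw [dualGrd_p]
  have key : ∀ l (b : A), Du.fn (G.p i a • (dualGrd G.toGrd s hs).p j φ) (G.p l b) =
      if i + j + l = s then Du.fn φ (G.p i a * G.p l b) else 0 := by
    intro l b
    rw [Du.fn_asmul, smul_eq_mul, dualGrd_p]
    by_cases hj : j ≤ s
    · rw [if_pos hj, dualG_mul]
      by_cases h : i + l = s - j
      · rw [if_pos h, if_pos (by omega)]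
      · rw [if_neg h, if_neg (by omega), map_zero]
    · rw [if_neg hj, if_neg (by omega)]
  have hsum : ∀ x : A, x = ∑ l ∈ Finset.range G.top, G.p l x := fun x => (G.total x).symm
  conv_rhs => rw [hsum b, map_sum]
  simp only [key]
  by_cases hij : i + j ≤ s
  · rw [if_pos hij, if_pos (by omega)]
    by_cases ht : s - (i + j) < G.top
    · rw [Finset.sum_eq_single (s - (i + j))]
      · rw [if_pos (by omega)]
      · intro l _ hl
        rw [if_neg (by omega)]
      · intro h
        exact absurd (Finset.mem_range.mpr ht) h
    · have h0 : G.p (s - (i + j)) b = 0 := G.p_ge (by omega) b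
      rw [h0, mul_zero, map_zero]
      symm
      refine Finset.sum_eq_zero (fun l hl => ?_)
      have := Finset.mem_range.mp hl
      rw [if_neg (by omega)]
  · rw [if_neg hij]
    symm
    refine Finset.sum_eq_zero (fun l _ => ?_)
    rw [if_neg (by omega)]

theorem finrank_du {V : Type u} [AddCommGroup V] [Module k V] [Module.Finite k V] :
    Module.finrank k (Du k V) = Module.finrank k V :=
  Subspace.dual_finrank_eq (K := k) (V := V)

theorem dbl [Module.Finite k A] : Nonempty (A ≃ₗ[A] Du k (Du k A)) := by
  let f : A →ₗ[A] Du k (Du k A) :=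
    { toFun := fun a => Du.mk
        { toFun := fun φ => Du.fn φ a
          map_add' := fun φ ψ => by simp
          map_smul' := fun c φ => by simp }
      map_add' := fun a b => Du.ext (fun φ => by simp)
      map_smul' := fun c a => Du.ext (fun φ => by
        simp only [RingHom.id_apply, Du.fn_mk, LinearMap.coe_mk, AddHom.coe_mk, Du.fn_asmul,
          smul_eq_mul]) }
  have hf : Function.Injective f := by
    rw [injective_iff_map_eq_zero]
    intro a ha
    have h1 : ∀ φ : Module.Dual k A, φ a = 0 := by
      intro φ
      have h2 := congrArg (fun x => Du.fn x (Du.mk φ)) ha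
      exact h2
    exact (Module.forall_dual_apply_eq_zero_iff k a).mp h1
  have hd : Module.finrank k A = Module.finrank k (Du k (Du k A)) := by
    rw [finrank_du, finrank_du]
  have hs : Function.Surjective (f.restrictScalars k) :=
    (LinearMap.injective_iff_surjective_of_finrank_eq_finrank hd).mp hf
  exact ⟨LinearEquiv.ofBijective f ⟨hf, hs⟩⟩

end Pool.Agent.TGA
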