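import Pool.Agent.TGA.Rec
import Pool.Agent.TGA.Cyc
import Pool.Agent.TGA.DualG

/-!
# TGA: the theorems in the language of `Defs.lean`
-/

set_option autoImplicit false

noncomputable section

universe u

namespace Pool.Agent.TGA

open CategoryTheory

variable {k A : Type u} [Field k] [CommRing A] [Algebra k A]

theorem core_mod_sharp [Nontrivial A] [Module.Finite k A] (G : GAlg k A) (h2 : (2 : k) ≠ 0)
    (hloc : G.Loc) {δ : ℕ} (hR : Rise G δ) {M : Type u}
    [AddCommGroup M] [Module k M] [Module A M] [IsScalarTower k A M] [Module.Finite k M]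
    (H : Grd k M) (hc : Cmp G H) (s t : ℕ) (hs : G.top ≤ s + 1) (ht : H.top ≤ t + 1)
    (hv : Van k A M (2 * t + s + 2 + δ)) (hM : Nontrivial M) :
    Module.finrank k A ≤ Module.finrank k M ∧
      (Module.finrank k A = Module.finrank k M → Nonempty (M ≃ₗ[A] A)) := by
  obtain ⟨e1, e2⟩ := dims_sharp h2 hR ({ X := M, H := H, hc := hc } : GM k A G) s t hs ht hv
  change Module.finrank k (Sy k A M 1) =
    Module.finrank k (Sy k A M (-1)) + Module.finrank k M at e1
  change (Module.finrank k (Sy k A M 1) + Module.finrank k (Sy k A M (-1))) *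
    Module.finrank k A = Module.finrank k M ^ 2 at e2
  have hm : 0 < Module.finrank k M := Module.finrank_pos
  rw [e1] at e2
  constructor
  · refine Nat.le_of_mul_le_mul_left ?_ hm
    calc Module.finrank k M * Module.finrank k A
        ≤ (Module.finrank k (Sy k A M (-1)) + Module.finrank k M +
            Module.finrank k (Sy k A M (-1))) * Module.finrank k A :=
          Nat.mul_le_mul_right _ (by omega)
      _ = Module.finrank k M ^ 2 := e2
      _ = Module.finrank k M * Module.finrank k M := by ring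
  · intro h
    rw [h] at e2
    have e3 : Module.finrank k (Sy k A M (-1)) * Module.finrank k M = 0 := by nlinarith
    have e4 : Module.finrank k (Sy k A M (-1)) = 0 := by
      rcases Nat.mul_eq_zero.mp e3 with h5 | h5
      · exact h5
      · omega
    exact cyc (loc_all hloc) e4 h.symm

theorem core_alg_sharp [Module.Finite k A] (G : GAlg k A) (h2 : (2 : k) ≠ 0)
    (hloc : G.Loc) {δ : ℕ} (hR : Rise G δ) (s : ℕ)
    (hs : G.top ≤ s + 1)
    (hv : ∀ i : ℕ, 1 ≤ i → i ≤ 3 * s + 2 + δ →
      Subsingleton (Abelian.Ext.{u} (ModuleCat.of A (Du k A)) (ModuleCat.of A A) i)) :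
    Module.Injective A A := by
  by_cases hA : Subsingleton A
  · exact ⟨fun X Y _ _ _ _ f hf g => ⟨0, fun x => Subsingleton.elim _ _⟩⟩
  have hA' : Nontrivial A := not_subsingleton_iff_nontrivial.mp hA
  have hf : Module.finrank k (Du k A) = Module.finrank k A := finrank_du
  have hD : Nontrivial (Du k A) := by
    apply Module.nontrivial_of_finrank_pos (R := k)
    rw [hf]
    exact Module.finrank_pos
  obtain ⟨e⟩ := dbl (k := k) (A := A)
  have hv' : Van k A (Du k A) (2 * s + s + 2 + δ) := by
    intro i h1 hi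
    have h3 := hv i h1 (by omega)
    let E : ModuleCat.of A A ≅ ModuleCat.of A (Du k (Du k A)) := e.toModuleIso
    refine subsingleton_of_forall_eq 0 (fun x => ?_)
    have h4 : x.comp (Abelian.Ext.mk₀ E.inv) (add_zero i) = 0 := @Subsingleton.elim _ h3 _ _
    have h5 : (x.comp (Abelian.Ext.mk₀ E.inv) (add_zero i)).comp (Abelian.Ext.mk₀ E.hom)
        (add_zero i) = x := by
      rw [Abelian.Ext.comp_assoc_of_second_deg_zero, Abelian.Ext.mk₀_comp_mk₀, E.inv_hom_id,
        Abelian.Ext.comp_mk₀_id]
    rw [← h5, h4, Abelian.Ext.zero_comp]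
  obtain ⟨_, h6⟩ := core_mod_sharp G h2 hloc hR (dualGrd G.toGrd s hs) (cmp_dual G s hs) s s hs
    (le_refl (s + 1)) hv' hD
  obtain ⟨φ⟩ := h6 hf.symm
  have hI : Module.Injective A (Du k A) := dual_inj k (Module.Basis.singleton Unit A)
  refine ⟨fun X Y _ _ _ _ f hf g => ?_⟩
  obtain ⟨h, hh⟩ := hI.out f hf (φ.symm.toLinearMap ∘ₗ g)
  refine ⟨φ.toLinearMap ∘ₗ h, fun x => ?_⟩
  rw [LinearMap.comp_apply, hh]
  simp

end Pool.Agent.TGA
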