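import Pool.Agent.TGA.Dec

/-!
# TGA-DEC2: local rings with decomposable maximal ideal
-/

set_option autoImplicit false

noncomputable section

universe u

namespace Pool.Agent.TGA

open CategoryTheory

variable {k R : Type u} [Field k] [CommRing R] [Algebra k R]

theorem van_summand {W : Type u} [AddCommGroup W] [Module k W] [Module R W]
    [IsScalarTower k R W] (p q : Submodule R W) (h : IsCompl p q) (c : ℕ) (hv : Van k R W c) :
    Van k R p c := by
  intro i h1 hi
  refine ext_retract (X := p) (Y := W) p.subtype (p.projectionOnto q h)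
    (fun x => Submodule.projectionOnto_apply_left h x) i ?_
  refine ext_retract' (X := Du k p) (Y := Du k W) (dmap (p.projectionOnto q h))
    (dmap p.subtype) (fun φ => ?_) i (hv i h1 hi)
  refine Du.ext (fun x => ?_)
  rw [dmap_fn, dmap_fn]
  congr 1
  exact Submodule.projectionOnto_apply_left h x

theorem exists_notMem_sq [Module.Finite k R] {I J : Ideal R} (hJ : J ≠ ⊥) (hIJ : I ⊓ J = ⊥)
    (hsup : I ⊔ J = nilradical R) : ∃ x ∈ J, x ∉ nilradical R * nilradical R := by
  have hN0 : IsNoetherian k R := isNoetherian_of_isNoetherianRing_of_finite k R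
  have hN : IsNoetherianRing R := isNoetherian_of_tower k hN0
  by_contra hcon
  push Not at hcon
  apply hJ
  refine Submodule.eq_bot_of_le_smul_of_le_jacobson_bot (nilradical R) J
    (IsNoetherian.noetherian J) (fun x hx => ?_) nilrad_jac
  have key : ∀ y ∈ nilradical R * nilradical R, ∃ a ∈ I, ∃ b ∈ nilradical R • J, y = a + b := by
    intro y hy
    refine Submodule.mul_induction_on hy (fun u hu v hv => ?_) (fun y z hy hz => ?_)
    · rw [← hsup] at hu
      obtain ⟨a, ha, b, hb, rfl⟩ := Submodule.mem_sup.mp hu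
      refine ⟨a * v, I.mul_mem_right v ha, v * b, ?_, by ring⟩
      rw [smul_eq_mul]
      exact Ideal.mul_mem_mul hv hb
    · obtain ⟨a, ha, b, hb, rfl⟩ := hy
      obtain ⟨a', ha', b', hb', rfl⟩ := hz
      exact ⟨a + a', I.add_mem ha ha', b + b', Submodule.add_mem _ hb hb', by ring⟩
  obtain ⟨a, ha, b, hb, e⟩ := key x (hcon x hx)
  have hbJ : b ∈ J := Submodule.smul_le_right hb
  have haJ : a ∈ J := by
    have : a = x - b := by rw [e]; ring
    rw [this]
    exact J.sub_mem hx hbJ
  have ha0 : a ∈ I ⊓ J := ⟨ha, haJ⟩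
  rw [hIJ] at ha0
  have ha1 : a = 0 := (Submodule.mem_bot R).mp ha0
  rw [e, ha1, zero_add]
  exact hb

theorem not_free_aux [Nontrivial R] [Module.Finite k R] {r : ℕ} (K : Submodule R (Fin r → R))
    (hK : ∀ v ∈ K, ∀ t, v t ∈ nilradical R) [Nontrivial K] (hfree : Module.Free R K) : False := by
  obtain ⟨s, hs0, hs⟩ := exists_soc k (R := R)
  let b := Module.Free.chooseBasis R K
  have hne : Nonempty (Module.Free.ChooseBasisIndex R K) := by
    by_contra hcon
    rw [not_nonempty_iff] at hcon
    exact not_subsingleton K b.repr.toEquiv.subsingleton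
  obtain ⟨i⟩ := hne
  have h1 : s • b i = 0 := by
    apply Subtype.ext
    funext t
    exact hs _ (hK _ (b i).2 t)
  have h2 := congrArg (fun y => b.repr y i) h1
  simp at h2
  exact hs0 h2

/-- elements of the components -/
def coordI {r : ℕ} (K : Submodule R (Fin r → R)) (I : Ideal R) : Submodule R K where
  carrier := {w | ∀ t, w.1 t ∈ I}
  add_mem' := fun ha hb t => I.add_mem (ha t) (hb t)
  zero_mem' := fun t => I.zero_mem
  smul_mem' := fun c x hx t => I.mul_mem_left c (hx t)

theorem dec_aux [Nontrivial R] (hu : ∀ a : R, IsUnit a ∨ IsNilpotent a) [Module.Finite k R]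
    {I J : Ideal R} (hJ : J ≠ ⊥) (hIJ : I ⊓ J = ⊥) (hsup : I ⊔ J = nilradical R) {r : ℕ}
    (K : Submodule R (Fin r → R)) (hc : IsCompl (coordI K I) (coordI K J))
    (hv : Van k R K 1) : coordI K I = ⊥ := by
  by_contra hne
  obtain ⟨x, hxJ, hx2⟩ := exists_notMem_sq (k := k) hJ hIJ hsup
  have hnt : Nontrivial (coordI K I) := Submodule.nontrivial_iff_ne_bot.mpr hne
  have hN0 : IsNoetherian k R := isNoetherian_of_isNoetherianRing_of_finite k R
  have hfK : Module.Finite k K := by
    have : IsNoetherian k (Fin r → R) := inferInstance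
    exact Module.Finite.of_injective (K.subtype.restrictScalars k : K →ₗ[k] (Fin r → R))
      Subtype.val_injective
  have hfI : Module.Finite k (coordI K I) :=
    Module.Finite.of_injective ((coordI K I).subtype.restrictScalars k : (coordI K I) →ₗ[k] K)
      Subtype.val_injective
  refine lem_D hu hx2 (coordI K I) (fun w => ?_) (van_summand _ _ hc 1 hv)
  apply Subtype.ext
  apply Subtype.ext
  funext t
  change x * w.1.1 t = 0
  have h1 : x * w.1.1 t ∈ I ⊓ J := ⟨I.mul_mem_left x (w.2 t), J.mul_mem_right _ hxJ⟩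
  rw [hIJ] at h1
  exact (Submodule.mem_bot R).mp h1

theorem pc_dec [Nontrivial R] [Module.Finite k R] (hu : ∀ a : R, IsUnit a ∨ IsNilpotent a)
    (I J : Ideal R) (hI : I ≠ ⊥) (hJ : J ≠ ⊥) (hIJ : I ⊓ J = ⊥)
    (hsup : I ⊔ J = nilradical R) : PC k R 5 := by
  intro U _ _ _ _ _ hv
  have hmul : ∀ x ∈ I, ∀ y ∈ J, x * y = 0 := by
    intro x hx y hy
    have h1 : x * y ∈ I ⊓ J := ⟨I.mul_mem_right y hx, J.mul_mem_left x hy⟩
    rw [hIJ] at h1
    exact (Submodule.mem_bot R).mp h1
  have hN0 : IsNoetherian k R := isNoetherian_of_isNoetherianRing_of_finite k R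
  have hfU : Module.Finite R U := Module.Finite.of_restrictScalars_finite k R U
  obtain ⟨r, b, hb, hmin⟩ := exists_min hu U
  by_contra hnf
  set K1 : Submodule R (Fin r → R) := LinearMap.ker (cov b) with hK1
  have hnt1 : Nontrivial K1 := by
    by_contra hcon
    apply hnf
    have h1 : LinearMap.ker (cov (A := R) b) = ⊥ := by
      rw [← hK1]
      by_contra h2
      exact hcon (Submodule.nontrivial_iff_ne_bot.mpr h2)
    exact Module.Free.of_equiv (LinearEquiv.ofBijective (cov b)
      ⟨LinearMap.ker_eq_bot.mp h1, hb⟩)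
  have hfK1 : Module.Finite k K1 := by
    have : IsNoetherian k (Fin r → R) := inferInstance
    exact Module.Finite.of_injective (K1.subtype.restrictScalars k : K1 →ₗ[k] (Fin r → R))
      Subtype.val_injective
  have hfRK1 : Module.Finite R K1 := Module.Finite.of_restrictScalars_finite k R K1
  have hv1 : Van k R K1 3 := van_next (Pi.basisFun R (Fin r)) K1.subtype (cov b)
    Subtype.val_injective hb (by rw [Submodule.range_subtype]) 3 hv
  obtain ⟨r2, b2, hb2, hmin2⟩ := exists_min hu K1
  set K2 : Submodule R (Fin r2 → R) := LinearMap.ker (cov b2) with hK2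
  have hnt2 : K2 ≠ ⊥ := by
    intro h1
    have hfree : Module.Free R K1 := Module.Free.of_equiv (LinearEquiv.ofBijective (cov b2)
      ⟨LinearMap.ker_eq_bot.mp h1, hb2⟩)
    exact not_free_aux (k := k) K1 (fun v hv => hmin v hv) hfree
  have hv2 : Van k R K2 1 := van_next (Pi.basisFun R (Fin r2)) K2.subtype (cov b2)
    Subtype.val_injective hb2 (by rw [Submodule.range_subtype]) 1 hv1
  -- the decomposition
  have hdec : ∀ w ∈ K2, ∃ a ∈ K2, ∃ a' ∈ K2, (∀ t, a t ∈ I) ∧ (∀ t, a' t ∈ J) ∧ w = a + a' := by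
    intro w hw
    have h1 : ∀ t, ∃ a ∈ I, ∃ a' ∈ J, a + a' = w t := by
      intro t
      have := hmin2 w hw t
      rw [← hsup] at this
      exact Submodule.mem_sup.mp this
    choose a ha a' ha' haa using h1
    have h2 : ∀ t l, ∃ c ∈ I, ∃ c' ∈ J, c + c' = (b2 t).1 l := by
      intro t l
      have := hmin (b2 t).1 (b2 t).2 l
      rw [← hsup] at this
      exact Submodule.mem_sup.mp this
    choose c hc c' hc' hcc using h2
    have hval : ∀ (v : Fin r2 → R) (l : Fin r), (cov b2 v).1 l = ∑ t, v t * (b2 t).1 l := by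
      intro v l
      rw [cov_apply, Submodule.coe_sum, Finset.sum_apply]
      rfl
    have hw0 : cov b2 w = 0 := hw
    have key : ∀ l, ∑ t, a t * c t l = 0 := by
      intro l
      have h3 : ∑ t, a t * c t l + ∑ t, a' t * c' t l = 0 := by
        have h4 := hval w l
        rw [hw0] at h4
        have h5 : ((0 : K1) : Fin r → R) l = 0 := rfl
        rw [h5] at h4
        rw [h4, ← Finset.sum_add_distrib]
        refine Finset.sum_congr rfl (fun t _ => ?_)
        rw [← haa t, ← hcc t l]
        have e1 := hmul _ (ha t) _ (hc' t l)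
        have e2 := hmul _ (hc t l) _ (ha' t)
        linear_combination (-1 : R) * e1 - e2
      have h4 : ∑ t, a t * c t l ∈ I ⊓ J := by
        refine ⟨I.sum_mem (fun t _ => I.mul_mem_right _ (ha t)), ?_⟩
        rw [eq_neg_of_add_eq_zero_left h3]
        exact J.neg_mem (J.sum_mem (fun t _ => J.mul_mem_right _ (ha' t)))
      rw [hIJ] at h4
      exact (Submodule.mem_bot R).mp h4
    have haK : a ∈ K2 := by
      change cov b2 a = 0
      apply Subtype.ext
      funext l
      rw [hval]
      refine Eq.trans ?_ (key l)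
      refine Finset.sum_congr rfl (fun t _ => ?_)
      rw [← hcc t l, mul_add, hmul _ (ha t) _ (hc' t l), add_zero]
    have ha'K : a' ∈ K2 := by
      have : a' = w - a := by
        funext t
        rw [Pi.sub_apply, ← haa t]
        ring
      rw [this]
      exact K2.sub_mem hw haK
    exact ⟨a, haK, a', ha'K, ha, ha', by funext t; exact (haa t).symm⟩
  have hcompl : IsCompl (coordI K2 I) (coordI K2 J) := by
    refine ⟨?_, ?_⟩
    · rw [disjoint_iff, eq_bot_iff]
      rintro w ⟨h1, h2⟩
      rw [Submodule.mem_bot]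
      apply Subtype.ext
      funext t
      have h3 : w.1 t ∈ I ⊓ J := ⟨h1 t, h2 t⟩
      rw [hIJ] at h3
      exact (Submodule.mem_bot R).mp h3
    · rw [codisjoint_iff, eq_top_iff]
      intro w _
      obtain ⟨a, ha, a', ha', h1, h2, e⟩ := hdec w.1 w.2
      refine Submodule.mem_sup.mpr ⟨⟨a, ha⟩, h1, ⟨a', ha'⟩, h2, ?_⟩
      exact Subtype.ext e.symm
  have e1 := dec_aux hu hJ hIJ hsup K2 hcompl hv2
  have e2 := dec_aux hu hI (by rw [inf_comm]; exact hIJ) (by rw [sup_comm]; exact hsup) K2
    hcompl.symm hv2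
  have h3 := hcompl.sup_eq_top
  rw [e1, e2, sup_bot_eq] at h3
  apply hnt2
  rw [eq_bot_iff]
  intro w hw
  have h4 : (⟨w, hw⟩ : K2) ∈ (⊥ : Submodule R K2) := h3 ▸ trivial
  exact congrArg Subtype.val ((Submodule.mem_bot R).mp h4)

end Pool.Agent.TGA
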