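import Mathlib

/-!
# Tachikawa's first conjecture for graded commutative algebras: definitions

Project TG (MP_95779f_al).  `k` is a field, `A` a finite dimensional commutative `k`-algebra.
A (finite, nonnegative) grading of a vector space is given by its projections.
-/

set_option autoImplicit false

noncomputable section

universe u

namespace Pool.Agent.TGA

open Polynomial CategoryTheory

/-! ### graded vector spaces -/

/-- A grading `V = V_0 ⊕ ... ⊕ V_(top-1)` of a vector space, given by the projections. -/
structure Grd (k V : Type u) [Field k] [AddCommGroup V] [Module k V] where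
  /-- projection to the component of degree `i` -/
  p : ℕ → V →ₗ[k] V
  /-- all degrees are smaller than `top` -/
  top : ℕ
  orth : ∀ i j v, p i (p j v) = if i = j then p j v else 0
  total : ∀ v, ∑ i ∈ Finset.range top, p i v = v

/-- The Hilbert polynomial. -/
def hp {k V : Type u} [Field k] [AddCommGroup V] [Module k V] (G : Grd k V) : ℤ[X] :=
  ∑ i ∈ Finset.range G.top, monomial i (Module.finrank k (LinearMap.range (G.p i)) : ℤ)

section

variable {k U V W : Type u} [Field k] [AddCommGroup U] [Module k U] [AddCommGroup V] [Module k V]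
  [AddCommGroup W] [Module k W]

theorem Grd.p_ge (G : Grd k V) {i : ℕ} (hi : G.top ≤ i) (v : V) : G.p i v = 0 := by
  conv_lhs => rw [← G.total v]
  rw [map_sum]
  refine Finset.sum_eq_zero (fun j hj => ?_)
  rw [G.orth, if_neg]
  have := Finset.mem_range.mp hj
  omega

theorem Grd.total_le (G : Grd k V) {n : ℕ} (hn : G.top ≤ n) (v : V) :
    ∑ i ∈ Finset.range n, G.p i v = v := by
  conv_rhs => rw [← G.total v]
  symm
  refine Finset.sum_subset (Finset.range_mono hn) (fun i _ hi => G.p_ge ?_ v)
  simpa using hi

/-- A linear map which respects the gradings. -/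
def Hom0 (G : Grd k V) (G' : Grd k W) (f : V →ₗ[k] W) : Prop := ∀ i v, f (G.p i v) = G'.p i (f v)

/-- A left inverse of an injective linear map. -/
def linv (f : U →ₗ[k] V) (hf : Function.Injective f) : V →ₗ[k] U :=
  (LinearMap.exists_leftInverse_of_injective f (LinearMap.ker_eq_bot.mpr hf)).choose

theorem linv_apply (f : U →ₗ[k] V) (hf : Function.Injective f) (u : U) :
    linv f hf (f u) = u :=
  LinearMap.congr_fun
    (LinearMap.exists_leftInverse_of_injective f (LinearMap.ker_eq_bot.mpr hf)).choose_spec u

theorem linv_apply' (f : U →ₗ[k] V) (hf : Function.Injective f) {v : V}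
    (hv : v ∈ LinearMap.range f) : f (linv f hf v) = v := by
  obtain ⟨u, rfl⟩ := hv
  rw [linv_apply]

/-- The grading of a graded subspace (given by an injective map). -/
def Grd.pull (G : Grd k V) (f : U →ₗ[k] V) (hf : Function.Injective f)
    (h : ∀ i u, G.p i (f u) ∈ LinearMap.range f) : Grd k U where
  p i := linv f hf ∘ₗ G.p i ∘ₗ f
  top := G.top
  orth i j u := by
    apply hf
    simp only [LinearMap.comp_apply]
    rw [linv_apply' f hf (h j u)]
    split_ifs with hij
    · rw [linv_apply' f hf, linv_apply' f hf (h j u), G.orth, if_pos hij]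
      rw [G.orth, if_pos hij]
      exact h j u
    · rw [G.orth, if_neg hij, map_zero, map_zero]
  total u := by
    apply hf
    simp only [LinearMap.comp_apply]
    rw [map_sum]
    rw [Finset.sum_congr rfl (fun i _ => linv_apply' f hf (h i u))]
    exact G.total (f u)

theorem Grd.pull_p (G : Grd k V) (f : U →ₗ[k] V) (hf : Function.Injective f)
    (h : ∀ i u, G.p i (f u) ∈ LinearMap.range f) (i : ℕ) (u : U) :
    f ((G.pull f hf h).p i u) = G.p i (f u) :=
  linv_apply' f hf (h i u)

/-- The grading of a product of shifted graded spaces. -/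
def Grd.pi {ι : Type} [Fintype ι] {V : ι → Type u} [∀ t, AddCommGroup (V t)]
    [∀ t, Module k (V t)] (G : ∀ t, Grd k (V t)) (d : ι → ℕ) : Grd k (∀ t, V t) where
  p i := LinearMap.pi (fun t => if d t ≤ i then (G t).p (i - d t) ∘ₗ LinearMap.proj t else 0)
  top := ∑ t, (d t + (G t).top)
  orth i j v := by
    funext t
    simp only [LinearMap.pi_apply]
    by_cases hi : d t ≤ i
    · by_cases hj : d t ≤ j
      · simp only [hi, hj, if_true, LinearMap.comp_apply, LinearMap.proj_apply,
          LinearMap.pi_apply]
        rw [(G t).orth]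
        by_cases hij : i = j
        · subst hij
          simp [hi]
        · rw [if_neg (by omega), if_neg hij]
          rfl
      · have hij : i ≠ j := by rintro rfl; exact hj hi
        simp [hi, hj, hij]
    · by_cases hij : i = j
      · subst hij
        simp [hi]
      · simp [hi, hij]
  total v := by
    funext t
    have h1 : d t + (G t).top ≤ ∑ t, (d t + (G t).top) :=
      Finset.single_le_sum (f := fun t => d t + (G t).top) (fun _ _ => Nat.zero_le _)
        (Finset.mem_univ t)
    rw [Finset.sum_apply]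
    obtain ⟨c, hc⟩ := Nat.exists_eq_add_of_le (show d t ≤ ∑ t, (d t + (G t).top) by omega)
    rw [hc, Finset.sum_range_add, Finset.sum_eq_zero, zero_add]
    · have h2 : (G t).top ≤ c := by omega
      conv_rhs => rw [← (G t).total_le h2 (v t)]
      refine Finset.sum_congr rfl (fun i _ => ?_)
      simp
    · intro i hi
      have := Finset.mem_range.mp hi
      simp [show ¬ d t ≤ i by omega]

theorem Grd.pi_p {ι : Type} [Fintype ι] {V : ι → Type u} [∀ t, AddCommGroup (V t)]
    [∀ t, Module k (V t)] (G : ∀ t, Grd k (V t)) (d : ι → ℕ) (i : ℕ) (v : ∀ t, V t) (t : ι) :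
    (Grd.pi G d).p i v t = if d t ≤ i then (G t).p (i - d t) (v t) else 0 := by
  simp only [Grd.pi, LinearMap.pi_apply]
  split_ifs <;> simp

/-! ### the dual space and bilinear forms -/

variable (k V) in
/-- The dual space `V^* = Hom_k(V, k)`; it will be an `A`-module by `(a φ)(v) = φ(a v)`. -/
def Du : Type u := V →ₗ[k] k

instance : AddCommGroup (Du k V) := inferInstanceAs (AddCommGroup (V →ₗ[k] k))

instance : Module k (Du k V) := inferInstanceAs (Module k (V →ₗ[k] k))

instance [Module.Finite k V] : Module.Finite k (Du k V) :=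
  inferInstanceAs (Module.Finite k (V →ₗ[k] k))

/-- The functional. -/
def Du.fn (φ : Du k V) : V →ₗ[k] k := φ

/-- The element of the dual space given by a functional. -/
def Du.mk (φ : V →ₗ[k] k) : Du k V := φ

@[simp] theorem Du.fn_mk (φ : V →ₗ[k] k) : Du.fn (Du.mk φ) = φ := rfl

@[ext] theorem Du.ext {φ ψ : Du k V} (h : ∀ v, Du.fn φ v = Du.fn ψ v) : φ = ψ :=
  LinearMap.ext h

@[simp] theorem Du.fn_add (φ ψ : Du k V) (v : V) : Du.fn (φ + ψ) v = Du.fn φ v + Du.fn ψ v := rfl

@[simp] theorem Du.fn_sub (φ ψ : Du k V) (v : V) : Du.fn (φ - ψ) v = Du.fn φ v - Du.fn ψ v := rfl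

@[simp] theorem Du.fn_neg (φ : Du k V) (v : V) : Du.fn (-φ) v = -Du.fn φ v := rfl

@[simp] theorem Du.fn_zero (v : V) : Du.fn (0 : Du k V) v = 0 := rfl

@[simp] theorem Du.fn_smul (c : k) (φ : Du k V) (v : V) : Du.fn (c • φ) v = c * Du.fn φ v := rfl

/-- Bilinear forms `V × W → k`. -/
abbrev BF (k V W : Type u) [Field k] [AddCommGroup V] [Module k V] [AddCommGroup W]
    [Module k W] : Type u := V →ₗ[k] Du k W

/-- The value `B(v, w)`. -/
def ev (B : BF k V W) (v : V) (w : W) : k := Du.fn (B v) w

theorem BF.ext {B B' : BF k V W} (h : ∀ v w, ev B v w = ev B' v w) : B = B' :=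
  LinearMap.ext (fun v => Du.ext (fun w => h v w))

section ev

variable (B B' : BF k V W) (v v' : V) (w w' : W) (c : k)

@[simp] theorem ev_add : ev (B + B') v w = ev B v w + ev B' v w := rfl

@[simp] theorem ev_sub : ev (B - B') v w = ev B v w - ev B' v w := rfl

@[simp] theorem ev_neg : ev (-B) v w = -ev B v w := rfl

@[simp] theorem ev_zero : ev (0 : BF k V W) v w = 0 := rfl

@[simp] theorem ev_smul : ev (c • B) v w = c * ev B v w := rfl

@[simp] theorem ev_add_left : ev B (v + v') w = ev B v w + ev B v' w := by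
  simp [ev]

@[simp] theorem ev_sub_left : ev B (v - v') w = ev B v w - ev B v' w := by
  simp [ev]

@[simp] theorem ev_neg_left : ev B (-v) w = -ev B v w := by
  simp [ev]

@[simp] theorem ev_zero_left : ev B 0 w = 0 := by
  simp [ev]

@[simp] theorem ev_smul_left : ev B (c • v) w = c * ev B v w := by
  simp [ev]

@[simp] theorem ev_add_right : ev B v (w + w') = ev B v w + ev B v w' := by
  simp [ev]

@[simp] theorem ev_sub_right : ev B v (w - w') = ev B v w - ev B v w' := by
  simp [ev]

@[simp] theorem ev_neg_right : ev B v (-w) = -ev B v w := by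
  simp [ev]

@[simp] theorem ev_zero_right : ev B v 0 = 0 := by
  simp [ev]

@[simp] theorem ev_smul_right : ev B v (c • w) = c * ev B v w := by
  simp [ev]

end ev

theorem ev_sum {ι : Type*} (s : Finset ι) (B : ι → BF k V W) (v : V) (w : W) :
    ev (∑ i ∈ s, B i) v w = ∑ i ∈ s, ev (B i) v w := by
  classical
  induction s using Finset.induction_on with
  | empty => simp
  | insert a s ha ih => rw [Finset.sum_insert ha, Finset.sum_insert ha, ev_add, ih]

theorem ev_sum_left {ι : Type*} (s : Finset ι) (B : BF k V W) (v : ι → V) (w : W) :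
    ev B (∑ i ∈ s, v i) w = ∑ i ∈ s, ev B (v i) w := by
  classical
  induction s using Finset.induction_on with
  | empty => simp
  | insert a s ha ih => rw [Finset.sum_insert ha, Finset.sum_insert ha, ev_add_left, ih]

theorem ev_sum_right {ι : Type*} (s : Finset ι) (B : BF k V W) (v : V) (w : ι → W) :
    ev B v (∑ i ∈ s, w i) = ∑ i ∈ s, ev B v (w i) := by
  classical
  induction s using Finset.induction_on with
  | empty => simp
  | insert a s ha ih => rw [Finset.sum_insert ha, Finset.sum_insert ha, ev_add_right, ih]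

/-- A bilinear form given by a function. -/
def BF.mk (f : V → W → k) (h1 : ∀ v v' w, f (v + v') w = f v w + f v' w)
    (h2 : ∀ (c : k) v w, f (c • v) w = c * f v w) (h3 : ∀ v w w', f v (w + w') = f v w + f v w')
    (h4 : ∀ (c : k) v w, f v (c • w) = c * f v w) : BF k V W where
  toFun v := Du.mk
    { toFun := f v
      map_add' := h3 v
      map_smul' := fun c w => h4 c v w }
  map_add' v v' := Du.ext (fun w => h1 v v' w)
  map_smul' c v := Du.ext (fun w => h2 c v w)

@[simp] theorem BF.ev_mk (f : V → W → k) (h1 h2 h3 h4) (v : V) (w : W) :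
    ev (BF.mk f h1 h2 h3 h4) v w = f v w := rfl

/-- `B(f v, g w)` -/
def bcomp {V' W' : Type u} [AddCommGroup V'] [Module k V'] [AddCommGroup W'] [Module k W']
    (f : V' →ₗ[k] V) (g : W' →ₗ[k] W) : BF k V W →ₗ[k] BF k V' W' where
  toFun B := BF.mk (fun v w => ev B (f v) (g w)) (by intros; simp) (by intros; simp)
    (by intros; simp) (by intros; simp)
  map_add' B B' := BF.ext (fun v w => by simp)
  map_smul' c B := BF.ext (fun v w => by simp)

@[simp] theorem ev_bcomp {V' W' : Type u} [AddCommGroup V'] [Module k V'] [AddCommGroup W']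
    [Module k W'] (f : V' →ₗ[k] V) (g : W' →ₗ[k] W) (B : BF k V W) (v : V') (w : W') :
    ev (bcomp f g B) v w = ev B (f v) (g w) := rfl

/-- `B(w, v)` -/
def bflip : BF k V W →ₗ[k] BF k W V where
  toFun B := BF.mk (fun w v => ev B v w) (by intros; simp) (by intros; simp)
    (by intros; simp) (by intros; simp)
  map_add' B B' := BF.ext (fun v w => by simp)
  map_smul' c B := BF.ext (fun v w => by simp)

@[simp] theorem ev_bflip (B : BF k V W) (v : V) (w : W) : ev (bflip B) w v = ev B v w := rfl

/-! ### gradings of dual spaces and spaces of forms -/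

/-- The grading of the dual space. -/
def Grd.dual (G : Grd k V) : Grd k (Du k V) where
  p i :=
    { toFun := fun φ => Du.mk ((Du.fn φ).comp (G.p i))
      map_add' := fun φ ψ => Du.ext (fun v => by simp)
      map_smul' := fun c φ => Du.ext (fun v => by simp) }
  top := G.top
  orth i j φ := by
    refine Du.ext (fun v => ?_)
    simp only [LinearMap.coe_mk, AddHom.coe_mk, Du.fn_mk, LinearMap.comp_apply]
    rw [G.orth]
    by_cases h : i = j
    · subst h
      simp
    · rw [if_neg (fun h' => h h'.symm), if_neg h]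
      simp
  total φ := by
    refine Du.ext (fun v => ?_)
    have h1 : ∀ (s : Finset ℕ) (F : ℕ → Du k V), Du.fn (∑ i ∈ s, F i) v = ∑ i ∈ s, Du.fn (F i) v := by
      intro s F
      induction s using Finset.induction_on with
      | empty => simp
      | insert a s ha ih => rw [Finset.sum_insert ha, Finset.sum_insert ha, Du.fn_add, ih]
    rw [h1]
    simp only [LinearMap.coe_mk, AddHom.coe_mk, Du.fn_mk, LinearMap.comp_apply]
    rw [← map_sum, G.total]

theorem Grd.dual_p (G : Grd k V) (i : ℕ) (φ : Du k V) (v : V) :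
    Du.fn (G.dual.p i φ) v = Du.fn φ (G.p i v) := rfl

theorem Grd.ext_bil (G : Grd k V) (G' : Grd k W) {B B' : BF k V W}
    (h : ∀ a b v w, ev B (G.p a v) (G'.p b w) = ev B' (G.p a v) (G'.p b w)) : B = B' := by
  refine BF.ext (fun v w => ?_)
  rw [← G.total v, ← G'.total w]
  simp only [ev_sum_left, ev_sum_right, h]

/-- The component of degree `d` of a bilinear form. -/
def bilp (G : Grd k V) (G' : Grd k W) (d : ℕ) : BF k V W →ₗ[k] BF k V W :=
  ∑ i ∈ Finset.range (d + 1), bcomp (G.p i) (G'.p (d - i))

theorem bilp_apply (G : Grd k V) (G' : Grd k W) (d : ℕ) (B : BF k V W) (v : V) (w : W) :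
    ev (bilp G G' d B) v w = ∑ i ∈ Finset.range (d + 1), ev B (G.p i v) (G'.p (d - i) w) := by
  simp only [bilp, LinearMap.sum_apply, ev_sum, ev_bcomp]

theorem bilp_hom (G : Grd k V) (G' : Grd k W) (d : ℕ) (B : BF k V W) (a b : ℕ)
    (v : V) (w : W) : ev (bilp G G' d B) (G.p a v) (G'.p b w) =
      if a + b = d then ev B (G.p a v) (G'.p b w) else 0 := by
  rw [bilp_apply]
  split_ifs with h
  · subst h
    rw [Finset.sum_eq_single a]
    · rw [G.orth, if_pos rfl, G'.orth, if_pos (by omega)]
    · intro i _ hi
      rw [G.orth, if_neg hi]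
      simp
    · intro ha
      exact absurd (Finset.mem_range.mpr (by omega)) ha
  · refine Finset.sum_eq_zero (fun i hi => ?_)
    have hi' := Finset.mem_range.mp hi
    by_cases hia : i = a
    · subst hia
      rw [G'.orth, if_neg (by omega)]
      simp
    · rw [G.orth, if_neg hia]
      simp

/-- The grading of the space of bilinear forms: a form of degree `d` pairs the components of
degree `i` and `j` to zero unless `i + j = d`. -/
def Grd.bil (G : Grd k V) (G' : Grd k W) : Grd k (BF k V W) where
  p d := bilp G G' d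
  top := G.top + G'.top
  orth d e B := by
    refine Grd.ext_bil G G' (fun a b v w => ?_)
    rw [bilp_hom]
    by_cases hde : d = e
    · subst hde
      simp only [if_true]
      rw [bilp_hom]
      split_ifs <;> rfl
    · simp only [if_neg hde, bilp_hom, ev_zero]
      split_ifs <;> first | rfl | omega
  total B := by
    refine Grd.ext_bil G G' (fun a b v w => ?_)
    rw [ev_sum]
    simp only [bilp_hom]
    by_cases ha : G.top ≤ a
    · simp [G.p_ge ha]
    · by_cases hb : G'.top ≤ b
      · simp [G'.p_ge hb]
      · rw [Finset.sum_ite_eq, if_pos (Finset.mem_range.mpr (by omega))]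

end

/-! ### graded algebras and modules -/

/-- A graded commutative algebra. -/
structure GAlg (k A : Type u) [Field k] [CommRing A] [Algebra k A] extends Grd k A where
  mul_p : ∀ (i j : ℕ) (a b : A), p (i + j) (p i a * p j b) = p i a * p j b
  p_one : p 0 1 = 1

/-- `A_0` is local: all its elements are invertible or nilpotent. -/
def GAlg.Loc {k A : Type u} [Field k] [CommRing A] [Algebra k A] (G : GAlg k A) : Prop :=
  ∀ a : A, IsUnit (G.p 0 a) ∨ IsNilpotent (G.p 0 a)

/-- The cube of the maximal ideal of `A_0` is zero. -/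
def GAlg.Short {k A : Type u} [Field k] [CommRing A] [Algebra k A] (G : GAlg k A) : Prop :=
  ∀ a b c : A, IsNilpotent (G.p 0 a) → IsNilpotent (G.p 0 b) → IsNilpotent (G.p 0 c) →
    G.p 0 a * G.p 0 b * G.p 0 c = 0

/-- The maximal ideal of `A_0` is principal. -/
def GAlg.Prin {k A : Type u} [Field k] [CommRing A] [Algebra k A] (G : GAlg k A) : Prop :=
  ∃ w : A, IsNilpotent (G.p 0 w) ∧
    ∀ a : A, IsNilpotent (G.p 0 a) → ∃ b : A, G.p 0 a = G.p 0 w * G.p 0 b

section

variable {k A : Type u} [Field k] [CommRing A] [Algebra k A]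
variable {M : Type u} [AddCommGroup M] [Module k M] [Module A M] [IsScalarTower k A M]
variable {N : Type u} [AddCommGroup N] [Module k N] [Module A N] [IsScalarTower k A N]

/-- multiplication by `a` as a `k`-linear map -/
def lsm (k : Type u) {A M : Type u} [Field k] [CommRing A] [Algebra k A] [AddCommGroup M]
    [Module k M] [Module A M] [IsScalarTower k A M] (a : A) : M →ₗ[k] M where
  toFun m := a • m
  map_add' m n := smul_add a m n
  map_smul' c m := by
    simp only [RingHom.id_apply]
    exact smul_comm a c m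

instance (priority := 50) Du.moduleA : Module A (Du k M) where
  smul a φ := Du.mk ((Du.fn φ).comp (lsm k a))
  one_smul φ := Du.ext (fun m => congrArg (Du.fn φ) (one_smul A m))
  mul_smul a b φ := by
    refine Du.ext (fun m => congrArg (Du.fn φ) ?_)
    change (a * b) • m = b • a • m
    rw [mul_comm, mul_smul]
  smul_zero a := Du.ext (fun m => rfl)
  smul_add a φ ψ := Du.ext (fun m => rfl)
  add_smul a b φ := by
    refine Du.ext (fun m => ?_)
    refine (congrArg (Du.fn φ) (add_smul a b m)).trans ?_
    exact map_add _ _ _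
  zero_smul φ := by
    refine Du.ext (fun m => ?_)
    refine (congrArg (Du.fn φ) (zero_smul A m)).trans ?_
    exact map_zero _

@[simp] theorem Du.fn_asmul (a : A) (φ : Du k M) (m : M) : Du.fn (a • φ) m = Du.fn φ (a • m) := rfl

instance (priority := 50) Du.towerA : IsScalarTower k A (Du k M) where
  smul_assoc c a φ := by
    refine Du.ext (fun m => ?_)
    rw [Du.fn_asmul, Du.fn_smul, Du.fn_asmul, smul_assoc, map_smul, smul_eq_mul]

/-- The grading `H` makes `M` a graded module over the graded algebra `A`. -/
def Cmp (G : GAlg k A) (H : Grd k M) : Prop :=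
  ∀ (i j : ℕ) (a : A) (m : M), H.p (i + j) (G.p i a • H.p j m) = G.p i a • H.p j m

omit [IsScalarTower k A M] in
theorem Cmp.hom {G : GAlg k A} {H : Grd k M} (hc : Cmp G H) (d i j : ℕ) (a : A) (m : M) :
    H.p d (G.p i a • H.p j m) = if i + j = d then G.p i a • H.p j m else 0 := by
  rw [← hc i j a m, H.orth]
  by_cases h : i + j = d
  · rw [if_pos h.symm, if_pos h]
  · rw [if_neg (fun h' => h h'.symm), if_neg h]

variable (k A M N) in
/-- Balanced bilinear forms `M × N → k`; this space is `Hom_A(M, N^*)`. -/
def Bil : Submodule k (BF k M N) where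
  carrier := {B | ∀ (a : A) (m : M) (n : N), ev B (a • m) n = ev B m (a • n)}
  add_mem' := by
    intro B B' h h' a m n
    simp only [ev_add, h a m n, h' a m n]
  zero_mem' := by
    intro a m n
    simp
  smul_mem' := by
    intro c B h a m n
    simp only [ev_smul, h a m n]

variable (k A M) in
/-- Balanced bilinear forms on `M` with `B(m,n) = e B(n,m)`. -/
def Sy (e : k) : Submodule k (BF k M M) where
  carrier := {B | (∀ (a : A) (m n : M), ev B (a • m) n = ev B m (a • n)) ∧
    ∀ m n : M, ev B m n = e * ev B n m}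
  add_mem' := by
    intro B B' h h'
    refine ⟨fun a m n => ?_, fun m n => ?_⟩
    · simp only [ev_add, h.1 a m n, h'.1 a m n]
    · simp only [ev_add]
      rw [h.2 m n, h'.2 m n, mul_add]
  zero_mem' := by
    refine ⟨fun a m n => by simp, fun m n => by simp⟩
  smul_mem' := by
    intro c B h
    refine ⟨fun a m n => ?_, fun m n => ?_⟩
    · simp only [ev_smul, h.1 a m n]
    · simp only [ev_smul]
      rw [h.2 m n]
      ring

theorem bil_mem {G : GAlg k A} {H : Grd k M} {H' : Grd k N} (hc : Cmp G H) (hc' : Cmp G H')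
    (d : ℕ) {B : BF k M N} (hB : B ∈ Bil k A M N) : bilp H H' d B ∈ Bil k A M N := by
  have key : ∀ (i j l : ℕ) (a : A) (m : M) (n : N),
      ev (bilp H H' d B) (G.p i a • H.p j m) (H'.p l n) =
        ev (bilp H H' d B) (H.p j m) (G.p i a • H'.p l n) := by
    intro i j l a m n
    have e1 := bilp_hom H H' d B (i + j) l (G.p i a • H.p j m) n
    have e2 := bilp_hom H H' d B j (i + l) m (G.p i a • H'.p l n)
    rw [hc i j a m] at e1
    rw [hc' i l a n] at e2
    rw [e1, e2, hB]
    simp only [show i + j + l = j + (i + l) by omega]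
  have h1 : ∀ (i : ℕ) (a : A) (m : M) (n : N),
      ev (bilp H H' d B) (G.p i a • m) n = ev (bilp H H' d B) m (G.p i a • n) := by
    intro i a m n
    conv_lhs => rw [← H.total m, Finset.smul_sum, ev_sum_left]
    conv_rhs => rw [← H.total m, ev_sum_left]
    refine Finset.sum_congr rfl (fun j _ => ?_)
    conv_lhs => rw [← H'.total n, ev_sum_right]
    conv_rhs => rw [← H'.total n, Finset.smul_sum, ev_sum_right]
    exact Finset.sum_congr rfl (fun l _ => key i j l a m n)
  intro a m n
  conv_lhs => rw [← G.total a, Finset.sum_smul, ev_sum_left]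
  conv_rhs => rw [← G.total a, Finset.sum_smul, ev_sum_right]
  exact Finset.sum_congr rfl (fun i _ => h1 i a m n)

theorem sy_mem {G : GAlg k A} {H : Grd k M} (hc : Cmp G H) (e : k)
    (d : ℕ) {B : BF k M M} (hB : B ∈ Sy k A M e) : bilp H H d B ∈ Sy k A M e := by
  refine ⟨bil_mem hc hc d hB.1, fun m n => ?_⟩
  rw [bilp_apply, bilp_apply, ← Finset.sum_range_reflect, Finset.mul_sum]
  refine Finset.sum_congr rfl (fun i hi => ?_)
  have := Finset.mem_range.mp hi
  rw [hB.2, show d + 1 - 1 - i = d - i by omega, show d - (d - i) = i by omega]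

/-- The grading of `Bil`. -/
def bilG {G : GAlg k A} {H : Grd k M} {H' : Grd k N} (hc : Cmp G H) (hc' : Cmp G H') :
    Grd k (Bil k A M N) :=
  (H.bil H').pull (Bil k A M N).subtype Subtype.val_injective
    (fun i B => by rw [Submodule.range_subtype]; exact bil_mem hc hc' i B.2)

/-- The grading of `Sy`. -/
def syG {G : GAlg k A} {H : Grd k M} (hc : Cmp G H) (e : k) : Grd k (Sy k A M e) :=
  (H.bil H).pull (Sy k A M e).subtype Subtype.val_injective
    (fun i B => by rw [Submodule.range_subtype]; exact sy_mem hc e i B.2)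

theorem bilG_p {G : GAlg k A} {H : Grd k M} {H' : Grd k N} (hc : Cmp G H) (hc' : Cmp G H')
    (d : ℕ) (B : Bil k A M N) : ((bilG hc hc').p d B).1 = bilp H H' d B.1 :=
  (H.bil H').pull_p (Bil k A M N).subtype Subtype.val_injective
    (fun i B => by rw [Submodule.range_subtype]; exact bil_mem hc hc' i B.2) d B

theorem syG_p {G : GAlg k A} {H : Grd k M} (hc : Cmp G H) (e : k)
    (d : ℕ) (B : Sy k A M e) : ((syG hc e).p d B).1 = bilp H H d B.1 :=
  (H.bil H).pull_p (Sy k A M e).subtype Subtype.val_injective
    (fun i B => by rw [Submodule.range_subtype]; exact sy_mem hc e i B.2) d B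

/-! ### vanishing of Ext -/

variable (k A M) in
/-- `Ext^i_A(M, M^*) = 0` for `1 ≤ i ≤ q`. -/
def Van (q : ℕ) : Prop := ∀ i : ℕ, 1 ≤ i → i ≤ q →
  Subsingleton (Abelian.Ext.{u} (ModuleCat.of A M) (ModuleCat.of A (Du k M)) i)

end

/-- A finite dimensional graded module. -/
structure GM (k A : Type u) [Field k] [CommRing A] [Algebra k A] (G : GAlg k A) where
  /-- the underlying module -/
  X : Type u
  [i1 : AddCommGroup X]
  [i2 : Module k X]
  [i3 : Module A X]
  [i4 : IsScalarTower k A X]
  [i5 : Module.Finite k X]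
  /-- the grading -/
  H : Grd k X
  hc : Cmp G H

attribute [instance] GM.i1 GM.i2 GM.i3 GM.i4 GM.i5

section

variable {k A : Type u} [Field k] [CommRing A] [Algebra k A] {G : GAlg k A}

/-- All degrees of `M` are at least `m`. -/
def GM.low (M : GM k A G) (m : ℕ) : Prop := ∀ j < m, ∀ x, M.H.p j x = 0

/-- Hilbert polynomial of the space of symmetric (`e = 1`) or antisymmetric (`e = -1`) forms. -/
def GM.s (M : GM k A G) (e : k) : ℤ[X] := hp (syG M.hc e)

/-- First defect. -/
def GM.tt (M : GM k A G) : ℤ[X] :=
  (M.s 1 - M.s (-1)) * expand ℤ 2 (hp G.toGrd) - hp G.toGrd * expand ℤ 2 (hp M.H)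

/-- Second defect. -/
def GM.bb (M : GM k A G) : ℤ[X] := (M.s 1 + M.s (-1)) * hp G.toGrd - hp M.H ^ 2

end

end Pool.Agent.TGA
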