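import Pool.Agent.TGA.Maps

/-!
# TG-EXB: the second part of the four term sequence

PLAN.  Setting: `0 → N → F → M → 0` exact, `e * e = 1`, `2 ≠ 0` in `k`.

`exB_ker` (exactness at `Bil(N, F)`).  `⊆`: `B(i n, i n') = e B(i n', i n)`.
`⊇`: let `C ∈ Bil(N, F)` with `C(n, i n') = e C(n', i n)`.
* By `LC` there is `C' ∈ Bil(F, F)` with `C'(i n, f) = C(n, f)`.
* `G(f, f') = C'(f, f') - e C'(f', f)`, balanced, `G(f', f) = -e G(f, f')`, and
  `G(i n, i n') = 0`.
* `G(i n, f)` depends only on `n` and `π f`; it defines `C1 ∈ Bil(N, M)`,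
  `C1(n, π f) = G(i n, f)` (use `Function.surjInv hπ`).
  By `LA` there is `E1 ∈ Bil(F, M)` with `E1(i n, m) = C1(n, m)`.
* `G(f, f') - E1(f, π f')` vanishes for `f ∈ range i`, so it is `E2(π f, f')` with
  `E2 ∈ Bil(M, F)`.  So `G(f, f') = E1(f, π f') + E2(π f, f')`.
* `E(m, f') = -(1/2) (E2(m, f') - e E1(f', m))`, `E ∈ Bil(M, F)`,
  `B(f, f') = C'(f, f') + E(π f, f')`.  Then `B(f, f') = e B(f', f)`: because
  `G(f,f') = (1/2)(G(f,f') - e G(f',f))` and `e * e = 1`; and `B(i n, f) = C(n, f)`.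

`exB_surj`: let `K ∈ S^(-e)(N)`; by `LB` applied to `(1/2) K` there is `C ∈ Bil(N, F)` with
`C(n, i n') = (1/2) K(n, n')`; then `mC C = K` because `K(n, n') = -e K(n', n)`.

Suggested auxiliary lemma (private): if `f : N × F → k` (given as a balanced form on `N × F`)
vanishes on `N × range i`, then it comes from a balanced form on `N × M`; the other side by
flipping.
-/

set_option autoImplicit false

noncomputable section

universe u

namespace Pool.Agent.TGA

variable {k A : Type u} [Field k] [CommRing A] [Algebra k A]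
variable {M : Type u} [AddCommGroup M] [Module k M] [Module A M] [IsScalarTower k A M]
variable {N : Type u} [AddCommGroup N] [Module k N] [Module A N] [IsScalarTower k A N]
variable {F : Type u} [AddCommGroup F] [Module k F] [Module A F] [IsScalarTower k A F]

private theorem exB_desc (π : F →ₗ[A] M) (hπ : Function.Surjective π) {D : BF k N F}
    (hD : D ∈ Bil k A N F) (h0 : ∀ n f, π f = 0 → ev D n f = 0) :
    ∃ D' ∈ Bil k A N M, ∀ n f, ev D' n (π f) = ev D n f := by
  have hw : ∀ n f f', π f = π f' → ev D n f = ev D n f' := by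
    intro n f f' h
    have h1 := h0 n (f - f') (by rw [map_sub, h, sub_self])
    rw [ev_sub_right] at h1
    exact sub_eq_zero.mp h1
  have hs : ∀ m, π (Function.surjInv hπ m) = m := Function.surjInv_eq hπ
  have hk : ∀ (c : k) (f : F), π (c • f) = c • π f := by
    intro c f
    rw [← algebraMap_smul A c f, map_smul, algebraMap_smul]
  refine ⟨BF.mk (fun n m => ev D n (Function.surjInv hπ m)) ?_ ?_ ?_ ?_, ?_, ?_⟩
  · intro v v' w
    simp
  · intro c v w
    simp
  · intro v w w'
    rw [← ev_add_right]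
    exact hw _ _ _ (by rw [map_add, hs, hs, hs])
  · intro c v w
    rw [← ev_smul_right]
    exact hw _ _ _ (by rw [hk, hs, hs])
  · intro a m n
    simp only [BF.ev_mk]
    rw [hD]
    exact hw _ _ _ (by rw [map_smul, hs, hs])
  · intro n f
    simp only [BF.ev_mk]
    exact hw _ _ _ (hs _)

private theorem exB_flip_mem {D : BF k N F} (hD : D ∈ Bil k A N F) : bflip D ∈ Bil k A F N := by
  intro a m n
  rw [ev_bflip, ev_bflip, ← hD a n m]

theorem exB_ker (i : N →ₗ[A] F) (π : F →ₗ[A] M) (hπ : Function.Surjective π)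
    (hex : LinearMap.range i = LinearMap.ker π) (h2 : (2 : k) ≠ 0) (e : k) (he : e * e = 1)
    (LA : ∀ C ∈ Bil k A N M, ∃ C' ∈ Bil k A F M, ∀ n m, ev C' (i n) m = ev C n m)
    (LC : ∀ C ∈ Bil k A N F, ∃ C' ∈ Bil k A F F, ∀ n f, ev C' (i n) f = ev C n f) :
    LinearMap.range (mB i e) = LinearMap.ker (mC i e he) := by
  have hker : ∀ f, π f = 0 → ∃ n, i n = f := by
    intro f hf
    have h1 : f ∈ LinearMap.range i := by
      rw [hex]
      exact hf
    exact h1
  have hpi : ∀ n, π (i n) = 0 := by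
    intro n
    have h1 : i n ∈ LinearMap.ker π := by
      rw [← hex]
      exact LinearMap.mem_range_self i n
    exact h1
  refine le_antisymm ?_ ?_
  · rintro _ ⟨B, rfl⟩
    rw [LinearMap.mem_ker]
    refine Subtype.ext (BF.ext (fun n n' => ?_))
    rw [mC_ev, mB_ev, mB_ev, B.2.2 (i n) (i n')]
    simp
  · intro C hC
    rw [LinearMap.mem_ker] at hC
    have hC' : ∀ n n', ev C.1 n (i n') - e * ev C.1 n' (i n) = 0 := by
      intro n n'
      rw [← mC_ev i e he, hC]
      rfl
    obtain ⟨C', hC'1, hC'2⟩ := LC C.1 C.2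
    -- the antisymmetrization
    have hG : C' - e • bflip C' ∈ Bil k A F F :=
      Submodule.sub_mem _ hC'1 (Submodule.smul_mem _ _ (exB_flip_mem hC'1))
    obtain ⟨G, hGd⟩ : ∃ G, G = C' - e • bflip C' := ⟨_, rfl⟩
    rw [← hGd] at hG
    have hGe : ∀ f f', ev G f f' = ev C' f f' - e * ev C' f' f := by
      intro f f'
      rw [hGd]
      simp
    have hG0 : ∀ n n', ev G (i n) (i n') = 0 := by
      intro n n'
      rw [hGe, hC'2, hC'2, hC']
    have hGa : ∀ f f', ev G f f' = -(e * ev G f' f) := by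
      intro f f'
      rw [hGe, hGe]
      linear_combination (-(ev C' f f')) * he
    -- restriction of `G` to `N × F`
    obtain ⟨D, hD⟩ : ∃ D : BF k N F, D = bcomp (i.restrictScalars k) LinearMap.id G := ⟨_, rfl⟩
    have hDe : ∀ n f, ev D n f = ev G (i n) f := by
      intro n f
      rw [hD]
      rfl
    have hDm : D ∈ Bil k A N F := by
      intro a m n
      rw [hDe, hDe, map_smul]
      exact hG a _ _
    obtain ⟨C1, hC1, hC1e⟩ := exB_desc π hπ hDm (by
      intro n f hf
      obtain ⟨n', rfl⟩ := hker f hf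
      rw [hDe, hG0])
    obtain ⟨E1, hE1, hE1e⟩ := LA C1 hC1
    -- `G - E1`
    obtain ⟨K, hK⟩ : ∃ K : BF k F F, K = G - bcomp LinearMap.id (π.restrictScalars k) E1 :=
      ⟨_, rfl⟩
    have hKe : ∀ f f', ev K f f' = ev G f f' - ev E1 f (π f') := by
      intro f f'
      rw [hK]
      rfl
    have hKm : K ∈ Bil k A F F := by
      intro a m n
      rw [hKe, hKe, map_smul, hG a m n, hE1 a m (π n)]
    obtain ⟨E2, hE2, hE2e⟩ := exB_desc π hπ (exB_flip_mem hKm) (by
      intro f' f hf
      obtain ⟨n, rfl⟩ := hker f hf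
      rw [ev_bflip, hKe, hE1e, hC1e, hDe, sub_self])
    have hGs : ∀ f f', ev G f f' = ev E1 f (π f') + ev E2 f' (π f) := by
      intro f f'
      rw [hE2e, ev_bflip, hKe]
      ring
    -- the symmetric form
    obtain ⟨B, hB⟩ : ∃ B : BF k F F, B = C' - (1 / 2 : k) •
        (bcomp (π.restrictScalars k) LinearMap.id (bflip E2) -
          e • bcomp (π.restrictScalars k) LinearMap.id (bflip E1)) := ⟨_, rfl⟩
    have hBe : ∀ f f', ev B f f' = ev C' f f' - (1 / 2) * (ev E2 f' (π f) - e * ev E1 f' (π f)) := by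
      intro f f'
      rw [hB]
      rfl
    have hBm : B ∈ Sy k A F e := by
      refine ⟨fun a m n => ?_, fun m n => ?_⟩
      · rw [hBe, hBe, map_smul, hC'1 a m n, hE1 a n (π m), hE2 a n (π m)]
      · rw [hBe, hBe]
        have h3 := hGs m n
        have h4 := hGs n m
        have h5 := hGe m n
        have h6 := hGa m n
        have h7 : (1 / 2 : k) * 2 = 1 := by field_simp
        have h8 : ev C' m n - e * ev C' n m = (1 / 2) * (ev G m n - e * ev G n m) := by
          rw [← h5]
          linear_combination (-(ev G m n)) * h7 + (1 / 2) * h6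
        rw [h3, h4] at h8
        linear_combination h8 - (1 / 2) * ev E1 m (π n) * he
    refine ⟨⟨B, hBm⟩, Subtype.ext (BF.ext (fun n f => ?_))⟩
    rw [mB_ev, hBe, hC'2, hpi]
    simp

theorem exB_surj (i : N →ₗ[A] F) (h2 : (2 : k) ≠ 0) (e : k) (he : e * e = 1)
    (LB : ∀ K ∈ Bil k A N N, ∃ C ∈ Bil k A N F, ∀ n n', ev C n (i n') = ev K n n') :
    Function.Surjective (mC i e he) := by
  intro K
  have hK : (1 / 2 : k) • K.1 ∈ Bil k A N N := Submodule.smul_mem _ _ K.2.1
  obtain ⟨C, hC, hCe⟩ := LB _ hK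
  refine ⟨⟨C, hC⟩, Subtype.ext (BF.ext (fun n n' => ?_))⟩
  rw [mC_ev]
  simp only
  rw [hCe, hCe, ev_smul, ev_smul]
  have h7 : (1 / 2 : k) * 2 = 1 := by field_simp
  have h8 := K.2.2 n n'
  linear_combination (1 / 2) * (-h8) + (ev K.1 n n') * h7

end Pool.Agent.TGA
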