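import Pool.Agent.TGA.Tor
import Pool.Agent.TGA.Maps

/-!
# TGA-LOWQ: the component of lowest degree

Let all degrees of `M` be at least `m`, `K_m = {x | p_m x = 0}` and `P = I M + K_m`, `I` the
nilradical, so that `M / P = M_m / m_0 M_m`.  If all forms of degree `2 m` on `M` vanish on
`m_0 M_m`, then they are the forms on `M / P`, and the coefficient of `M.tt` at `2 m` is
`dim A_0 (dim (M / P) - dim M_m) ≤ 0`, with equality only if `m_0 M_m = 0`.
-/

set_option autoImplicit false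

noncomputable section

universe u

namespace Pool.Agent.TGA

open Polynomial

variable {k A : Type u} [Field k] [CommRing A] [Algebra k A] {G : GAlg k A}

theorem syG_zero (M : GM k A G) (e : k) (d : ℕ)
    (h : ∀ i, i ≤ d → (∀ x, M.H.p i x = 0) ∨ ∀ x, M.H.p (d - i) x = 0)
    (B : Sy k A M.X e) : (syG M.hc e).p d B = 0 := by
  refine Subtype.ext ?_
  rw [syG_p]
  refine BF.ext (fun v w => ?_)
  rw [bilp_apply]
  have hz : ev ((0 : Sy k A M.X e) : BF k M.X M.X) v w = 0 := rfl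
  rw [hz]
  refine Finset.sum_eq_zero (fun i hi => ?_)
  have hi' := Finset.mem_range.mp hi
  rcases h i (by omega) with h1 | h1
  · rw [h1, ev_zero_left]
  · rw [h1, ev_zero_right]

theorem s_dvd (M : GM k A G) (m : ℕ) (hl : M.low m) (e : k) : X ^ (2 * m) ∣ M.s e := by
  refine hp_dvd _ (fun j hj B => ?_)
  exact syG_zero M e j (fun i hi => by
    by_cases h : i < m
    · exact Or.inl (hl i h)
    · exact Or.inr (hl (j - i) (by omega))) B

theorem v_dvd (M : GM k A G) (m : ℕ) (hl : M.low m) :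
    X ^ (2 * m) ∣ expand ℤ 2 (hp M.H) := by
  have hv : X ^ m ∣ hp M.H := hp_dvd _ hl
  have := map_dvd (expand ℤ 2) hv
  rwa [map_pow, expand_X, ← pow_mul] at this

theorem coeff_low {n : ℕ} {p : ℤ[X]} (hp : X ^ n ∣ p) (r : ℤ[X]) :
    (p * r).coeff n = p.coeff n * r.coeff 0 := by
  obtain ⟨q, rfl⟩ := hp
  rw [mul_assoc, coeff_X_pow_mul', coeff_X_pow_mul', if_pos le_rfl, if_pos le_rfl, Nat.sub_self,
    mul_coeff_zero]

theorem tt_coeff (M : GM k A G) (m : ℕ) (hl : M.low m) :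
    M.tt.coeff (2 * m) = (hp G.toGrd).coeff 0 *
      ((M.s 1).coeff (2 * m) - (M.s (-1)).coeff (2 * m) - (hp M.H).coeff m) := by
  unfold GM.tt
  rw [coeff_sub, coeff_low (dvd_sub (s_dvd M m hl 1) (s_dvd M m hl (-1))),
    mul_comm (hp G.toGrd), coeff_low (v_dvd M m hl), coeff_sub, mul_comm 2 m,
    coeff_expand_mul (by norm_num), coeff_expand (by norm_num)]
  simp only [dvd_zero, if_true, Nat.zero_div]
  ring

theorem bilp_low (M : GM k A G) (m : ℕ) (hl : M.low m) (B : BF k M.X M.X) (v w : M.X) :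
    ev (bilp M.H M.H (2 * m) B) v w = ev B (M.H.p m v) (M.H.p m w) := by
  rw [bilp_apply, Finset.sum_eq_single m]
  · rw [show 2 * m - m = m by omega]
  · intro i hi hne
    have hi' := Finset.mem_range.mp hi
    rcases lt_or_gt_of_ne hne with h | h
    · rw [hl i h, ev_zero_left]
    · rw [hl (2 * m - i) (by omega), ev_zero_right]
  · intro h
    exact absurd (Finset.mem_range.mpr (by omega)) h

/-- `K_m` -/
def Km (M : GM k A G) (m : ℕ) (hl : M.low m) : Submodule A M.X where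
  carrier := {x | M.H.p m x = 0}
  add_mem' := by
    intro x y hx hy
    have hx' : M.H.p m x = 0 := hx
    have hy' : M.H.p m y = 0 := hy
    change M.H.p m (x + y) = 0
    rw [map_add, hx', hy', add_zero]
  zero_mem' := map_zero _
  smul_mem' := by
    intro a x hx
    have hx' : M.H.p m x = 0 := hx
    change M.H.p m (a • x) = 0
    rw [p_low_mul M.hc hl, hx', smul_zero]

/-- `P = I M + K_m` -/
def PP (M : GM k A G) (m : ℕ) (hl : M.low m) : Submodule A M.X :=
  nilradical A • (⊤ : Submodule A M.X) ⊔ Km M m hl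

variable {M : GM k A G} {m : ℕ}

theorem pp_I (hl : M.low m) : ∀ a ∈ nilradical A, ∀ v : M.X, a • v ∈ PP M m hl :=
  fun _ ha _ => Submodule.mem_sup_left (Submodule.smul_mem_smul ha trivial)

theorem pp_p (hl : M.low m) (x : M.X) : x - M.H.p m x ∈ PP M m hl := by
  refine Submodule.mem_sup_right ?_
  change M.H.p m (x - M.H.p m x) = 0
  rw [map_sub, M.H.orth, if_pos rfl, sub_self]

theorem pp_notMem (hl : M.low m) {x : M.X} (hx : x ∉ PP M m hl) : M.H.p m x ∉ PP M m hl := by
  intro h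
  apply hx
  have := (PP M m hl).add_mem (pp_p hl x) h
  rwa [sub_add_cancel] at this

/-- Nakayama -/
theorem exists_notMem (hl : M.low m) (h : ¬ M.low (m + 1)) :
    ∃ x, M.H.p m x = x ∧ x ∉ PP M m hl := by
  by_contra hcon
  push Not at hcon
  apply h
  have hfA : Module.Finite A M.X := Module.Finite.of_restrictScalars_finite k A M.X
  have htop : (⊤ : Submodule A M.X) ≤ Km M m hl ⊔ nilradical A • (⊤ : Submodule A M.X) := by
    intro x _
    rw [sup_comm]
    change x ∈ PP M m hl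
    by_contra hx
    exact pp_notMem hl hx (hcon _ (by rw [M.H.orth, if_pos rfl]))
  have hle : (⊤ : Submodule A M.X) ≤ Km M m hl :=
    Submodule.le_of_le_smul_of_le_jacobson_bot hfA.fg_top nilrad_jac htop
  intro j hj x
  rcases Nat.lt_or_ge j m with h1 | h1
  · exact hl j h1 x
  · have : j = m := by omega
    subst this
    exact hle (show x ∈ (⊤ : Submodule A M.X) from trivial)

theorem low_succ [Nontrivial A] (hu : ∀ a : A, IsUnit a ∨ IsNilpotent a) (hl : M.low m)
    (h : ∀ B ∈ Bil k A M.X M.X, ∀ x y, ev B (M.H.p m x) (M.H.p m y) = 0) : M.low (m + 1) := by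
  by_contra hcon
  obtain ⟨x, hx, hxP⟩ := exists_notMem hl hcon
  obtain ⟨C, hC, hne⟩ := exists_form (k := k) hu (PP M m hl) (pp_I hl) hxP (PP M m hl) (pp_I hl)
    hxP
  apply hne
  have := h C hC x x
  rwa [hx] at this

/-- All forms vanish on `m_0 M_m`. -/
def Z (M : GM k A G) (m : ℕ) : Prop := ∀ B ∈ Bil k A M.X M.X, ∀ (a : A) (x y : M.X),
  IsNilpotent (G.p 0 a) → ev B (G.p 0 a • M.H.p m x) (M.H.p m y) = 0

theorem z_van (hl : M.low m) (hZ : Z M m) {B : BF k M.X M.X} (hB : B ∈ Bil k A M.X M.X)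
    {v : M.X} (hv : v ∈ PP M m hl) (w : M.X) : ev B (M.H.p m v) (M.H.p m w) = 0 := by
  obtain ⟨y, hy, z, hz, rfl⟩ := Submodule.mem_sup.mp hv
  have hz' : M.H.p m z = 0 := hz
  rw [map_add, hz', add_zero]
  refine Submodule.smul_induction_on hy (fun a ha n _ => ?_) (fun x y hx hy => ?_)
  · rw [p_low_mul M.hc hl]
    exact hZ B hB a n w ((nil_iff G a).mp (mem_nilradical.mp ha))
  · rw [map_add, ev_add_left, hx, hy, add_zero]

theorem s_coeff (hl : M.low m) (hZ : Z M m) (e : k) :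
    (M.s e).coeff (2 * m) = (Module.finrank k (Sy k A (M.X ⧸ PP M m hl) e) : ℤ) := by
  have hmk : ∀ x : M.X, (PP M m hl).mkQ (M.H.p m x) = (PP M m hl).mkQ x := by
    intro x
    have h1 : (PP M m hl).mkQ (x - M.H.p m x) = 0 :=
      (Submodule.Quotient.mk_eq_zero _).2 (pp_p hl x)
    rw [map_sub] at h1
    exact (sub_eq_zero.mp h1).symm
  let Q : Sy k A (M.X ⧸ PP M m hl) e →ₗ[k] Sy k A M.X e := mA (PP M m hl).mkQ e
  have hQ : ∀ B v w, ev (Q B).1 v w = ev B.1 ((PP M m hl).mkQ v) ((PP M m hl).mkQ w) :=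
    fun B v w => rfl
  have hinj : Function.Injective Q := by
    rw [← LinearMap.ker_eq_bot, LinearMap.ker_eq_bot']
    intro B hB
    refine Subtype.ext (BF.ext (fun v w => ?_))
    obtain ⟨v', rfl⟩ := (PP M m hl).mkQ_surjective v
    obtain ⟨w', rfl⟩ := (PP M m hl).mkQ_surjective w
    rw [← hQ, hB]
    rfl
  have hrange : LinearMap.range ((syG M.hc e).p (2 * m)) = LinearMap.range Q := by
    apply le_antisymm
    · rintro _ ⟨B, rfl⟩
      obtain ⟨s, hs⟩ := LinearMap.exists_rightInverse_of_surjective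
        ((PP M m hl).mkQ.restrictScalars k : M.X →ₗ[k] (M.X ⧸ PP M m hl))
        (LinearMap.range_eq_top.2 (PP M m hl).mkQ_surjective)
      have hs' : ∀ x, (PP M m hl).mkQ (s x) = x := fun x => LinearMap.congr_fun hs x
      have hB1 : ∀ v w, ev ((syG M.hc e).p (2 * m) B).1 v w =
          ev B.1 (M.H.p m v) (M.H.p m w) := by
        intro v w
        rw [syG_p, bilp_low M m hl]
      have hB2 : ∀ v v' w, (PP M m hl).mkQ v = (PP M m hl).mkQ v' →
          ev ((syG M.hc e).p (2 * m) B).1 v w = ev ((syG M.hc e).p (2 * m) B).1 v' w := by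
        intro v v' w h
        have h1 : v - v' ∈ PP M m hl := by
          rw [← Submodule.Quotient.mk_eq_zero, ← Submodule.mkQ_apply, map_sub, h, sub_self]
        have h3 := z_van hl hZ B.2.1 h1 w
        rw [hB1, hB1]
        rw [map_sub, ev_sub_left] at h3
        exact sub_eq_zero.mp h3
      have hB3 : ∀ v w w', (PP M m hl).mkQ w = (PP M m hl).mkQ w' →
          ev ((syG M.hc e).p (2 * m) B).1 v w = ev ((syG M.hc e).p (2 * m) B).1 v w' := by
        intro v w w' h
        rw [((syG M.hc e).p (2 * m) B).2.2 v w, ((syG M.hc e).p (2 * m) B).2.2 v w',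
          hB2 w w' v h]
      have hB4 : ∀ v w, ev (bcomp s s ((syG M.hc e).p (2 * m) B).1) ((PP M m hl).mkQ v)
          ((PP M m hl).mkQ w) = ev ((syG M.hc e).p (2 * m) B).1 v w := by
        intro v w
        rw [ev_bcomp, hB2 _ v _ (hs' _), hB3 _ _ w (hs' _)]
      refine ⟨⟨bcomp s s ((syG M.hc e).p (2 * m) B).1, fun a v w => ?_, fun v w => ?_⟩, ?_⟩
      · obtain ⟨v', rfl⟩ := (PP M m hl).mkQ_surjective v
        obtain ⟨w', rfl⟩ := (PP M m hl).mkQ_surjective w
        rw [← map_smul, ← map_smul, hB4, hB4]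
        exact ((syG M.hc e).p (2 * m) B).2.1 a v' w'
      · obtain ⟨v', rfl⟩ := (PP M m hl).mkQ_surjective v
        obtain ⟨w', rfl⟩ := (PP M m hl).mkQ_surjective w
        rw [hB4, hB4]
        exact ((syG M.hc e).p (2 * m) B).2.2 v' w'
      · refine Subtype.ext (BF.ext (fun v w => ?_))
        rw [hQ]
        exact hB4 v w
    · rintro _ ⟨B, rfl⟩
      refine ⟨Q B, Subtype.ext (BF.ext (fun v w => ?_))⟩
      rw [syG_p, bilp_low M m hl, hQ, hQ, hmk, hmk]
  rw [GM.s, hp_coeff, hrange, LinearMap.finrank_range_of_inj hinj]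

/-- the map `M_m → M / P` -/
def lowMap (hl : M.low m) : LinearMap.range (M.H.p m) →ₗ[k] M.X ⧸ PP M m hl :=
  ((PP M m hl).mkQ.restrictScalars k).comp (LinearMap.range (M.H.p m)).subtype

theorem lowMap_surj (hl : M.low m) : Function.Surjective (lowMap hl) := by
  intro y
  obtain ⟨x, rfl⟩ := (PP M m hl).mkQ_surjective y
  refine ⟨⟨M.H.p m x, ⟨x, rfl⟩⟩, ?_⟩
  change (PP M m hl).mkQ (M.H.p m x) = _
  have h1 : (PP M m hl).mkQ (x - M.H.p m x) = 0 :=
    (Submodule.Quotient.mk_eq_zero _).2 (pp_p hl x)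
  rw [map_sub] at h1
  exact (sub_eq_zero.mp h1).symm

theorem dim_le (hl : M.low m) : Module.finrank k (M.X ⧸ PP M m hl) ≤
    Module.finrank k (LinearMap.range (M.H.p m)) := by
  have h1 := LinearMap.finrank_range_le (lowMap hl)
  rwa [LinearMap.range_eq_top.mpr (lowMap_surj hl), finrank_top] at h1

theorem dim_eq (hl : M.low m) (h : Module.finrank k (M.X ⧸ PP M m hl) =
    Module.finrank k (LinearMap.range (M.H.p m))) (a : A) (x : M.X)
    (ha : IsNilpotent (G.p 0 a)) : G.p 0 a • M.H.p m x = 0 := by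
  have hinj : Function.Injective (lowMap hl) :=
    (LinearMap.injective_iff_surjective_of_finrank_eq_finrank h.symm).mpr (lowMap_surj hl)
  have h1 : G.p 0 a • M.H.p m x = M.H.p m (a • x) := (p_low_mul M.hc hl a x).symm
  have h2 : lowMap hl ⟨M.H.p m (a • x), ⟨a • x, rfl⟩⟩ = lowMap hl 0 := by
    rw [map_zero]
    change (PP M m hl).mkQ (M.H.p m (a • x)) = 0
    refine (Submodule.Quotient.mk_eq_zero _).2 ?_
    rw [← h1]
    exact pp_I hl _ (mem_nilradical.mpr ha) _
  have h3 := congrArg Subtype.val (hinj h2)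
  rw [h1]
  exact h3

theorem low_dim (h2 : (2 : k) ≠ 0) [Nontrivial A] [Module.Finite k A]
    (hu : ∀ a : A, IsUnit a ∨ IsNilpotent a) (hl : M.low m) (hZ : Z M m) :
    M.tt.coeff (2 * m) = (hp G.toGrd).coeff 0 *
      ((Module.finrank k (M.X ⧸ PP M m hl) : ℤ) -
        Module.finrank k (LinearMap.range (M.H.p m))) := by
  rw [tt_coeff M m hl, s_coeff hl hZ, s_coeff hl hZ, hp_coeff M.H]
  have h1 : Module.finrank k (Sy k A (M.X ⧸ PP M m hl) 1) =
      Module.finrank k (Sy k A (M.X ⧸ PP M m hl) (-1)) +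
        Module.finrank k (M.X ⧸ PP M m hl) := by
    refine tor_dim h2 hu (fun a ha v => ?_)
    obtain ⟨x, rfl⟩ := (PP M m hl).mkQ_surjective v
    rw [← map_smul]
    exact (Submodule.Quotient.mk_eq_zero _).2 (pp_I hl a ha x)
  rw [h1]
  push_cast
  ring

theorem hp0_pos [Nontrivial A] [Module.Finite k A] : 0 < (hp G.toGrd).coeff 0 := by
  rw [hp_coeff]
  have h1 : Nontrivial (LinearMap.range (G.p 0)) :=
    ⟨⟨⟨1, ⟨1, G.p_one⟩⟩, 0, fun h => one_ne_zero (congrArg Subtype.val h)⟩⟩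
  have h3 : 0 < Module.finrank k (LinearMap.range (G.p 0)) := Module.finrank_pos
  exact_mod_cast h3

theorem low_le (h2 : (2 : k) ≠ 0) [Nontrivial A] [Module.Finite k A]
    (hu : ∀ a : A, IsUnit a ∨ IsNilpotent a) (hl : M.low m) (hZ : Z M m) :
    M.tt.coeff (2 * m) ≤ 0 := by
  rw [low_dim h2 hu hl hZ]
  have h1 := dim_le hl
  have h3 : (Module.finrank k (M.X ⧸ PP M m hl) : ℤ) ≤
    Module.finrank k (LinearMap.range (M.H.p m)) := by exact_mod_cast h1
  exact mul_nonpos_of_nonneg_of_nonpos hp0_pos.le (by linarith)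

theorem low_eq (h2 : (2 : k) ≠ 0) [Nontrivial A] [Module.Finite k A]
    (hu : ∀ a : A, IsUnit a ∨ IsNilpotent a) (hl : M.low m) (hZ : Z M m)
    (h0 : M.tt.coeff (2 * m) = 0) (a : A) (x : M.X) (ha : IsNilpotent (G.p 0 a)) :
    G.p 0 a • M.H.p m x = 0 := by
  rw [low_dim h2 hu hl hZ] at h0
  rcases mul_eq_zero.mp h0 with h1 | h1
  · exact absurd h1 hp0_pos.ne'
  · refine dim_eq hl ?_ a x ha
    exact_mod_cast sub_eq_zero.mp h1

end Pool.Agent.TGA
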