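import Pool.Agent.TGA.Defs

/-!
# TGA-RAD: the component of degree zero and the nilradical
-/

set_option autoImplicit false

noncomputable section

universe u

namespace Pool.Agent.TGA

variable {k A : Type u} [Field k] [CommRing A] [Algebra k A]

theorem cyc_pmul (G : GAlg k A) (l i j : ℕ) (a b : A) :
    G.p l (G.p i a * G.p j b) = if l = i + j then G.p i a * G.p j b else 0 := by
  conv_lhs => rw [← G.mul_p i j a b, G.orth]
  rw [G.mul_p]

theorem cyc_low (G : GAlg k A) {m n : ℕ} {a b : A} (ha : ∀ j < m, G.p j a = 0)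
    (hb : ∀ j < n, G.p j b = 0) : ∀ l < m + n, G.p l (a * b) = 0 := by
  intro l hl
  have e : a * b = (∑ i ∈ Finset.range G.top, G.p i a) * ∑ j ∈ Finset.range G.top, G.p j b := by
    rw [G.total, G.total]
  rw [e, Finset.sum_mul_sum, map_sum]
  refine Finset.sum_eq_zero (fun i _ => ?_)
  rw [map_sum]
  refine Finset.sum_eq_zero (fun j _ => ?_)
  rw [cyc_pmul]
  split_ifs with h
  · rcases lt_or_ge i m with hi | hi
    · rw [ha i hi, zero_mul]
    · rw [hb j (by omega), mul_zero]
  · rfl

theorem cyc_pow (G : GAlg k A) {a : A} (ha : G.p 0 a = 0) (n : ℕ) :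
    ∀ j < n, G.p j (a ^ n) = 0 := by
  induction n with
  | zero => intro j hj; omega
  | succ n ih =>
    have h1 : ∀ j < 1, G.p j a = 0 := by
      intro j hj
      have : j = 0 := by omega
      rw [this, ha]
    rw [pow_succ]
    exact cyc_low G ih h1

theorem p0_sub (G : GAlg k A) (c : A) : ∀ j < 1, G.p j (c - G.p 0 c) = 0 := by
  intro j hj
  have h : j = 0 := by omega
  subst h
  rw [map_sub, G.orth, if_pos rfl, sub_self]

theorem p0_mul (G : GAlg k A) (a b : A) : G.p 0 (a * b) = G.p 0 a * G.p 0 b := by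
  have h0 : ∀ c : A, ∀ j < 0, G.p j c = 0 := fun c j hj => absurd hj (Nat.not_lt_zero j)
  have e : a * b = G.p 0 a * G.p 0 b + ((a - G.p 0 a) * b + G.p 0 a * (b - G.p 0 b)) := by ring
  conv_lhs => rw [e, map_add, map_add, cyc_low G (p0_sub G a) (h0 b) 0 (by omega),
    cyc_low G (h0 _) (p0_sub G b) 0 (by omega), cyc_pmul]
  simp

/-- The projection to the component of degree zero is a ring homomorphism. -/
def p0 (G : GAlg k A) : A →+* A where
  toFun := G.p 0
  map_one' := G.p_one
  map_mul' := p0_mul G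
  map_zero' := map_zero _
  map_add' := map_add _

theorem p0_apply (G : GAlg k A) (a : A) : p0 G a = G.p 0 a := rfl

theorem nil_low (G : GAlg k A) {a : A} (ha : G.p 0 a = 0) : IsNilpotent a := by
  refine ⟨G.top, ?_⟩
  rw [← G.total (a ^ G.top)]
  exact Finset.sum_eq_zero (fun j hj => cyc_pow G ha G.top j (Finset.mem_range.mp hj))

theorem nil_sub (G : GAlg k A) (a : A) : IsNilpotent (a - G.p 0 a) :=
  nil_low G (p0_sub G a 0 (by omega))

theorem nil_iff (G : GAlg k A) (a : A) : IsNilpotent a ↔ IsNilpotent (G.p 0 a) := by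
  constructor
  · intro h
    exact h.map (p0 G)
  · intro h
    have h1 := (Commute.all (a - G.p 0 a) (G.p 0 a)).isNilpotent_add (nil_sub G a) h
    rwa [sub_add_cancel] at h1

theorem loc_all {G : GAlg k A} (hloc : G.Loc) (a : A) : IsUnit a ∨ IsNilpotent a := by
  rcases hloc a with h | h
  · left
    have h1 := (nil_sub G a).isUnit_add_left_of_commute h (Commute.all _ _)
    rwa [add_sub_cancel] at h1
  · right
    exact (nil_iff G a).mpr h

theorem nilrad_max [Nontrivial A] (hu : ∀ a : A, IsUnit a ∨ IsNilpotent a) :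
    (nilradical A).IsMaximal := by
  rw [Ideal.isMaximal_iff]
  constructor
  · intro h
    exact (mem_nilradical.mp h).not_isUnit isUnit_one
  · intro J x _ hx hxJ
    rcases hu x with h | h
    · obtain ⟨y, hy⟩ := h.exists_left_inv
      rw [← hy]
      exact J.mul_mem_left y hxJ
    · exact absurd (mem_nilradical.mpr h) hx

theorem nilrad_jac : nilradical A ≤ Ideal.jacobson ⊥ :=
  Ideal.radical_le_jacobson (I := (⊥ : Ideal A))

section mod

variable {M : Type u} [AddCommGroup M] [Module k M] [Module A M]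

theorem mod_low {G : GAlg k A} {H : Grd k M} (hc : Cmp G H) {m n : ℕ} {a : A} {x : M}
    (ha : ∀ j < m, G.p j a = 0) (hx : ∀ j < n, H.p j x = 0) :
    ∀ l < m + n, H.p l (a • x) = 0 := by
  intro l hl
  have e : a • x = (∑ i ∈ Finset.range G.top, G.p i a) • ∑ j ∈ Finset.range H.top, H.p j x := by
    rw [G.total, H.total]
  rw [e, Finset.sum_smul, map_sum]
  refine Finset.sum_eq_zero (fun i _ => ?_)
  rw [Finset.smul_sum, map_sum]
  refine Finset.sum_eq_zero (fun j _ => ?_)
  rw [hc.hom]
  split_ifs with h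
  · rcases lt_or_ge i m with hi | hi
    · rw [ha i hi, zero_smul]
    · rw [hx j (by omega), smul_zero]
  · rfl

theorem p_low_mul {G : GAlg k A} {H : Grd k M} (hc : Cmp G H) {m : ℕ}
    (hl : ∀ j < m, ∀ x, H.p j x = 0) (a : A) (x : M) :
    H.p m (a • x) = G.p 0 a • H.p m x := by
  have h0 : ∀ c : A, ∀ j < 0, G.p j c = 0 := fun c j hj => absurd hj (Nat.not_lt_zero j)
  have h2 : ∀ j < m + 1, H.p j (x - H.p m x) = 0 := by
    intro j hj
    rcases Nat.lt_or_ge j m with h | h
    · exact hl j h _
    · have : j = m := by omega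
      subst this
      rw [map_sub, H.orth, if_pos rfl, sub_self]
  have e : a • x = G.p 0 a • H.p m x + ((a - G.p 0 a) • x + G.p 0 a • (x - H.p m x)) := by
    rw [sub_smul, smul_sub]
    abel
  conv_lhs => rw [e, map_add, map_add,
    mod_low hc (p0_sub G a) (fun j hj => hl j hj x) m (by omega),
    mod_low hc (h0 _) h2 m (by omega), hc.hom]
  simp

end mod

end Pool.Agent.TGA
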