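import Pool.Agent.TGA.Ker
import Pool.Agent.TGA.Rad

/-!
# TGA-MCOV: covers which are minimal in the lowest degree

Let all degrees of `M` be at least `m`.  Take a family `b0` of elements of `M_m` of minimal length
which generates `M_m` over `A_0`, and for the higher degrees a `k`-basis.  If a component (at a
generator of degree `m`) of an element of degree `m` of the kernel were not nilpotent, it would be
a unit, and `b0` could be shortened.
-/

set_option autoImplicit false

noncomputable section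

universe u

namespace Pool.Agent.TGA

open Polynomial

variable {k A : Type u} [Field k] [CommRing A] [Algebra k A] {G : GAlg k A}

/-- A graded presentation `0 → N → A^r → M → 0` with generators of degree at least `m`. -/
structure Cv (M N : GM k A G) (m : ℕ) where
  r : ℕ
  dg : Fin r → ℕ
  i : N.X →ₗ[A] (Fin r → A)
  π : (Fin r → A) →ₗ[A] M.X
  hi : Function.Injective i
  hπ : Function.Surjective π
  hex : LinearMap.range i = LinearMap.ker π
  hgi : ∀ d n, i (N.H.p d n) = (frG G dg).p d (i n)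
  hgπ : ∀ d f, π ((frG G dg).p d f) = M.H.p d (π f)
  hdg : ∀ t, m ≤ dg t

/-- A graded presentation which is minimal in degree `m`. -/
structure Cvr (M N : GM k A G) (m : ℕ) extends Cv M N m where
  hmin : ∀ n t, dg t = m → IsNilpotent (i (N.H.p m n) t)

/-- `b` generates the component of degree `m` over `A_0`. -/
def Gen (M : GM k A G) (m : ℕ) {p : ℕ} (b : Fin p → M.X) : Prop :=
  (∀ t, M.H.p m (b t) = b t) ∧
    ∀ x : M.X, ∃ a : Fin p → A, M.H.p m x = ∑ t, G.p 0 (a t) • b t

theorem p0_algebraMap (G : GAlg k A) (c : k) : G.p 0 (algebraMap k A c) = algebraMap k A c := by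
  rw [Algebra.algebraMap_eq_smul_one, map_smul, G.p_one]

theorem exists_gen (M : GM k A G) (m : ℕ) : ∃ (p : ℕ) (b : Fin p → M.X), Gen M m b := by
  let e := Module.finBasis k M.X
  refine ⟨_, fun t => M.H.p m (e t), fun t => ?_, fun x => ?_⟩
  · rw [M.H.orth, if_pos rfl]
  · refine ⟨fun t => algebraMap k A (e.repr x t), ?_⟩
    conv_lhs => rw [← e.sum_repr x, map_sum]
    refine Finset.sum_congr rfl (fun t _ => ?_)
    rw [map_smul, p0_algebraMap, algebraMap_smul]

theorem gen_shorten (M : GM k A G) (m : ℕ) {p : ℕ} (b : Fin (p + 1) → M.X) (hb : Gen M m b)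
    (v : Fin (p + 1) → A) (t1 : Fin (p + 1)) (hu : IsUnit (G.p 0 (v t1)))
    (h0 : ∑ t, G.p 0 (v t) • b t = 0) : Gen M m (fun s => b (t1.succAbove s)) := by
  obtain ⟨w, hw⟩ := hu.exists_left_inv
  have hw' : G.p 0 w * G.p 0 (v t1) = 1 := by
    have h := congrArg (G.p 0) hw
    rw [p0_mul, G.orth, if_pos rfl, G.p_one] at h
    exact h
  refine ⟨fun s => hb.1 _, fun x => ?_⟩
  obtain ⟨a, ha⟩ := hb.2 x
  refine ⟨fun s => a (t1.succAbove s) - a t1 * w * v (t1.succAbove s), ?_⟩
  rw [Fin.sum_univ_succAbove _ t1] at h0 ha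
  have h1 : b t1 = - ∑ s, (G.p 0 w * G.p 0 (v (t1.succAbove s))) • b (t1.succAbove s) := by
    have h2 := congrArg (fun y => G.p 0 w • y) h0
    simp only [smul_add, smul_zero, Finset.smul_sum, smul_smul] at h2
    rw [hw', one_smul] at h2
    exact eq_neg_of_add_eq_zero_left h2
  rw [ha, h1, smul_neg, Finset.smul_sum, neg_add_eq_sub, ← Finset.sum_sub_distrib]
  refine Finset.sum_congr rfl (fun s _ => ?_)
  rw [map_sub, p0_mul, p0_mul, smul_smul, ← sub_smul, mul_assoc]

theorem exists_cv_of_gen [Module.Finite k A] (M : GM k A G) (m : ℕ)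
    (hl : M.low m) {p : ℕ} (b0 : Fin p → M.X) (hb0 : Gen M m b0) :
    ∃ (N : GM k A G) (c : Cv M N m), ∀ n, ∃ a : Fin p → A,
      ∑ t, G.p 0 (a t) • b0 t = 0 ∧
      ∀ t, c.dg t = m → ∃ s, c.i (N.H.p m n) t = G.p 0 (a s) := by
  classical
  obtain ⟨n, d1, b1, hb1, _⟩ := exists_hom_basis M.H
  let dg : Fin (p + n) → ℕ :=
    Fin.append (fun _ => m) (fun t => if m < d1 t then d1 t else m + 1)
  let b : Fin (p + n) → M.X :=
    Fin.append b0 (fun t => if m < d1 t then b1 t else 0)
  have hdgl : ∀ t : Fin p, dg (Fin.castAdd n t) = m := fun t => Fin.append_left _ _ _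
  have hdgr : ∀ t : Fin n, dg (Fin.natAdd p t) = if m < d1 t then d1 t else m + 1 :=
    fun t => Fin.append_right _ _ _
  have hbl : ∀ t : Fin p, b (Fin.castAdd n t) = b0 t := fun t => Fin.append_left _ _ _
  have hbr : ∀ t : Fin n, b (Fin.natAdd p t) = if m < d1 t then b1 t else 0 :=
    fun t => Fin.append_right _ _ _
  have hhom : ∀ t, M.H.p (dg t) (b t) = b t := by
    intro t
    refine Fin.addCases (fun t => ?_) (fun t => ?_) t
    · rw [hdgl, hbl]
      exact hb0.1 t
    · rw [hdgr, hbr]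
      split_ifs with h
      · exact hb1 t
      · rw [map_zero]
  have hmem : ∀ t, b t ∈ LinearMap.range (cov (A := A) b) := by
    intro t
    refine ⟨Pi.single t 1, ?_⟩
    rw [cov_apply, Finset.sum_eq_single t]
    · rw [Pi.single_eq_same, one_smul]
    · intro s _ hs
      rw [Pi.single_eq_of_ne hs, zero_smul]
    · intro h
      exact absurd (Finset.mem_univ _) h
  have hsurj : Function.Surjective (cov (A := A) b) := by
    rw [← LinearMap.range_eq_top, eq_top_iff]
    intro x _
    rw [← b1.sum_repr x]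
    refine Submodule.sum_mem _ (fun t _ => ?_)
    rw [← algebraMap_smul A (b1.repr x t)]
    refine Submodule.smul_mem _ _ ?_
    rcases lt_trichotomy m (d1 t) with h | h | h
    · have h1 := hmem (Fin.natAdd p t)
      rw [hbr, if_pos h] at h1
      exact h1
    · obtain ⟨a, ha⟩ := hb0.2 (b1 t)
      rw [← hb1 t, ← h, ha]
      refine Submodule.sum_mem _ (fun s _ => Submodule.smul_mem _ _ ?_)
      have h1 := hmem (Fin.castAdd n s)
      rw [hbl] at h1
      exact h1
    · rw [← hb1 t, hl _ h]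
      exact Submodule.zero_mem _
  have hgr : ∀ i v, cov b ((frG G dg).p i v) = M.H.p i (cov b v) :=
    cov_graded G M.hc dg b hhom
  obtain ⟨N, i, hi, hex', hgi⟩ := ker_graded (G := G) dg (cov b) (fun d f hf => by
    rw [hgr, hf, map_zero])
  refine ⟨N, ⟨p + n, dg, i, cov b, hi, hsurj, hex', hgi, hgr, ?_⟩, ?_⟩
  · intro t
    refine Fin.addCases (fun t => ?_) (fun t => ?_) t
    · rw [hdgl]
    · rw [hdgr]
      split_ifs with h <;> omega
  · intro x
    have hcoef : ∀ s, i (N.H.p m x) (Fin.castAdd n s) = G.p 0 (i x (Fin.castAdd n s)) := by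
      intro s
      rw [hgi, frG_p, hdgl, if_pos le_rfl, Nat.sub_self]
    have hcoef' : ∀ s, i (N.H.p m x) (Fin.natAdd p s) = 0 := by
      intro s
      rw [hgi, frG_p, if_neg]
      rw [hdgr]
      split_ifs with h <;> omega
    have hker : cov b (i (N.H.p m x)) = 0 := by
      have h1 : i (N.H.p m x) ∈ LinearMap.ker (cov b) := hex' ▸ LinearMap.mem_range_self i _
      exact h1
    rw [cov_apply, Fin.sum_univ_add] at hker
    simp only [hcoef, hcoef', zero_smul, Finset.sum_const_zero, add_zero, hbl] at hker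
    refine ⟨fun s => i x (Fin.castAdd n s), hker, fun t => ?_⟩
    refine Fin.addCases (fun t _ => ⟨t, hcoef t⟩) (fun t h => ?_) t
    exfalso
    change dg (Fin.natAdd p t) = m at h
    rw [hdgr] at h
    split_ifs at h with h1 <;> omega

theorem exists_mcover [Module.Finite k A] (hloc : G.Loc) (M : GM k A G) (m : ℕ)
    (hl : M.low m) : ∃ N : GM k A G, Nonempty (Cvr M N m) := by
  classical
  have hex : ∃ p : ℕ, ∃ b : Fin p → M.X, Gen M m b := exists_gen M m
  obtain ⟨b0, hb0⟩ := Nat.find_spec hex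
  have hmin := fun (q : ℕ) (hq : q < Nat.find hex) => Nat.find_min hex hq
  generalize Nat.find hex = p at b0 hb0 hmin
  obtain ⟨N, c, hc⟩ := exists_cv_of_gen M m hl b0 hb0
  refine ⟨N, ⟨{ c with hmin := fun n t ht => ?_ }⟩⟩
  obtain ⟨a, ha, hs⟩ := hc n
  obtain ⟨s, e⟩ := hs t ht
  rw [e]
  rcases hloc (a s) with h | h
  · exfalso
    obtain ⟨q, rfl⟩ : ∃ q, p = q + 1 := ⟨p - 1, by have := s.2; omega⟩
    exact hmin q (Nat.lt_succ_self q) ⟨_, gen_shorten M m b0 hb0 a s h ha⟩
  · exact h

theorem cvr_low {M N : GM k A G} {m : ℕ} (c : Cv M N m) : N.low m := by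
  intro j hj x
  apply c.hi
  rw [c.hgi, map_zero]
  funext t
  rw [frG_p, if_neg (by have := c.hdg t; omega)]
  rfl

end Pool.Agent.TGA
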