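import Pool.Agent.TGA.CoreS
import Pool.Agent.TGA.Brg
import Pool.Agent.TGA.Dec2

/-!
# TGA-MAIN: Tachikawa's first conjecture for graded commutative algebras, `A_0` short or principal
-/

set_option autoImplicit false

noncomputable section

universe u

namespace Pool.Agent.TGA

open CategoryTheory

variable {k A : Type u} [Field k] [CommRing A] [Algebra k A]

/-- The condition on the local algebra `R = A_0` with maximal ideal `m`: `m` is principal, or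
`m ^ 3 = 0`, or `m` is decomposable, or `Ext^i_R(U, U^*) = 0` for `1 ≤ i ≤ c` only for free `U`. -/
def Cnd (k R : Type u) [Field k] [CommRing R] [Algebra k R] [IsLocalRing R] (c : ℕ) : Prop :=
  ((IsLocalRing.maximalIdeal R).IsPrincipal ∧ 2 ≤ c) ∨
  (IsLocalRing.maximalIdeal R ^ 3 = ⊥ ∧ 4 ≤ c) ∨
  ((∃ I J : Ideal R, I ≠ ⊥ ∧ J ≠ ⊥ ∧ I ⊓ J = ⊥ ∧ I ⊔ J = IsLocalRing.maximalIdeal R) ∧ 5 ≤ c) ∨
  (PC k R c ∧ 2 ≤ c)

theorem loc_nil (k : Type u) {R : Type u} [Field k] [CommRing R] [Algebra k R]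
    [Module.Finite k R] [IsLocalRing R] :
    nilradical R = IsLocalRing.maximalIdeal R ∧ ∀ a : R, IsUnit a ∨ IsNilpotent a := by
  have hA : IsArtinianRing R := IsArtinianRing.of_finite k R
  have h1 : nilradical R = IsLocalRing.maximalIdeal R :=
    Ring.KrullDimLE.nilradical_eq_maximalIdeal R
  refine ⟨h1, fun a => ?_⟩
  by_cases h : IsUnit a
  · exact Or.inl h
  · right
    rw [← mem_nilradical, h1, IsLocalRing.mem_maximalIdeal]
    exact h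

section

variable (𝒜 : ℕ → Submodule k A) [GradedAlgebra 𝒜] (A₀ : Subalgebra k A)
  (hA₀ : ∀ a, a ∈ A₀ ↔ a ∈ 𝒜 0)

include hA₀ in
theorem toGAlg_B (s : ℕ) (hs : ∀ i, s < i → 𝒜 i = ⊥) :
    ∀ a, a ∈ A₀ ↔ (toGAlg 𝒜 s hs).p 0 a = a := by
  intro a
  rw [hA₀]
  constructor
  · intro h
    exact toGAlg_p0 𝒜 s hs h
  · intro h
    rw [← h]
    exact toGAlg_mem 𝒜 s hs a

theorem a0_fin [Module.Finite k A] : Module.Finite k A₀ :=
  Module.Finite.of_injective A₀.val.toLinearMap Subtype.val_injective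

include hA₀ in
theorem toGAlg_loc [Module.Finite k A] [IsLocalRing A₀] (s : ℕ) (hs : ∀ i, s < i → 𝒜 i = ⊥) :
    (toGAlg 𝒜 s hs).Loc := by
  intro a
  have hf : Module.Finite k A₀ := a0_fin A₀
  have ha : (toGAlg 𝒜 s hs).p 0 a ∈ A₀ := (hA₀ _).mpr (toGAlg_mem 𝒜 s hs a)
  rcases (loc_nil k (R := A₀)).2 ⟨_, ha⟩ with h | h
  · exact Or.inl (h.map A₀.val)
  · exact Or.inr (h.map A₀.val)

include hA₀ in
theorem toGAlg_rise [Module.Finite k A] [IsLocalRing A₀] (h2 : (2 : k) ≠ 0) (s : ℕ)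
    (hs : ∀ i, s < i → 𝒜 i = ⊥) {c : ℕ} (h : Cnd k A₀ c) :
    2 ≤ c ∧ Rise (toGAlg 𝒜 s hs) (c - 2) := by
  have hf : Module.Finite k A₀ := a0_fin A₀
  have hloc := toGAlg_loc 𝒜 A₀ hA₀ s hs
  have hnt : Nontrivial A := ⟨⟨((0 : A₀) : A), ((1 : A₀) : A),
    fun h => zero_ne_one (Subtype.ext h : (0 : A₀) = 1)⟩⟩
  obtain ⟨hnil, hu⟩ := loc_nil k (R := A₀)
  have hmem : ∀ a : A, IsNilpotent ((toGAlg 𝒜 s hs).p 0 a) →
      ∃ x : A₀, x ∈ IsLocalRing.maximalIdeal A₀ ∧ (x : A) = (toGAlg 𝒜 s hs).p 0 a := by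
    intro a ha
    refine ⟨⟨_, (hA₀ _).mpr (toGAlg_mem 𝒜 s hs a)⟩, ?_, rfl⟩
    rw [← hnil, mem_nilradical]
    obtain ⟨n, hn⟩ := ha
    exact ⟨n, Subtype.ext hn⟩
  have hp0 : ∀ x : A₀, (toGAlg 𝒜 s hs).p 0 (x : A) = x :=
    fun x => toGAlg_p0 𝒜 s hs ((hA₀ _).mp x.2)
  rcases h with ⟨h, hc⟩ | ⟨h, hc⟩ | ⟨⟨I, J, hI, hJ, hIJ, hsup⟩, hc⟩ | ⟨h, hc⟩
  · refine ⟨hc, rise_prin hloc ?_ _⟩
    obtain ⟨w, hw⟩ := h.principal
    have hw' : w ∈ IsLocalRing.maximalIdeal A₀ := by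
      rw [hw]
      exact Submodule.mem_span_singleton_self w
    have hwn : IsNilpotent w := by
      rw [← mem_nilradical, hnil]
      exact hw'
    refine ⟨(w : A), ?_, fun a ha => ?_⟩
    · rw [hp0]
      exact hwn.map A₀.val
    · obtain ⟨x, hx, e⟩ := hmem a ha
      rw [hw] at hx
      obtain ⟨b, hb⟩ := Submodule.mem_span_singleton.mp hx
      refine ⟨(b : A), ?_⟩
      rw [hp0, hp0, ← e, ← hb, smul_eq_mul, mul_comm]
      rfl
  · refine ⟨by omega, rise_short h2 hloc ?_ (by omega)⟩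
    intro a b d ha hb hd
    obtain ⟨x, hx, ex⟩ := hmem a ha
    obtain ⟨y, hy, ey⟩ := hmem b hb
    obtain ⟨z, hz, ez⟩ := hmem d hd
    have h1 : x * y * z ∈ IsLocalRing.maximalIdeal A₀ ^ 3 := by
      rw [pow_succ, pow_two]
      exact Ideal.mul_mem_mul (Ideal.mul_mem_mul hx hy) hz
    rw [h] at h1
    have h3 := congrArg Subtype.val ((Submodule.mem_bot A₀).mp h1)
    rw [← ex, ← ey, ← ez]
    exact h3
  · refine ⟨by omega, rise_pc A₀ (toGAlg_B 𝒜 A₀ hA₀ s hs) (by omega)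
      (pc_dec hu I J hI hJ hIJ (hsup.trans hnil.symm))⟩
  · exact ⟨hc, rise_pc A₀ (toGAlg_B 𝒜 A₀ hA₀ s hs) (by omega) h⟩

end

theorem main_mod [Module.Finite k A] (h2 : (2 : k) ≠ 0)
    (𝒜 : ℕ → Submodule k A) [GradedAlgebra 𝒜] (A₀ : Subalgebra k A)
    (hA₀ : ∀ a, a ∈ A₀ ↔ a ∈ 𝒜 0) [IsLocalRing A₀] (c : ℕ) (hc : Cnd k A₀ c) (s : ℕ)
    (hs : ∀ i, s < i → 𝒜 i = ⊥) {M : Type u}
    [AddCommGroup M] [Module k M] [Module A M] [IsScalarTower k A M] [Module.Finite k M]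
    [Nontrivial M] (ℳ : ℕ → Submodule k M) [DirectSum.Decomposition ℳ]
    (hsm : ∀ i j (a : A) (m : M), a ∈ 𝒜 i → m ∈ ℳ j → a • m ∈ ℳ (i + j)) (t : ℕ)
    (ht : ∀ i, t < i → ℳ i = ⊥)
    (hv : ∀ i : ℕ, 1 ≤ i → i ≤ 2 * t + s + c →
      Subsingleton (Abelian.Ext.{u} (ModuleCat.of A M) (ModuleCat.of A (Du k M)) i)) :
    Module.finrank k A ≤ Module.finrank k M ∧
      (Module.finrank k A = Module.finrank k M → Nonempty (M ≃ₗ[A] A)) := by
  have hA : Nontrivial A := Module.nontrivial A M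
  obtain ⟨hc2, hR⟩ := toGAlg_rise 𝒜 A₀ hA₀ h2 s hs hc
  exact core_mod_sharp (toGAlg 𝒜 s hs) h2 (toGAlg_loc 𝒜 A₀ hA₀ s hs) hR
    (toGrd ℳ t ht) (cmp_toGrd 𝒜 s hs ℳ hsm t ht) s t le_rfl le_rfl
    (fun i h1 hi => hv i h1 (by omega)) inferInstance

theorem main_alg [Module.Finite k A] (h2 : (2 : k) ≠ 0)
    (𝒜 : ℕ → Submodule k A) [GradedAlgebra 𝒜] (A₀ : Subalgebra k A)
    (hA₀ : ∀ a, a ∈ A₀ ↔ a ∈ 𝒜 0) [IsLocalRing A₀] (c : ℕ) (hc : Cnd k A₀ c) (s : ℕ)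
    (hs : ∀ i, s < i → 𝒜 i = ⊥)
    (hv : ∀ i : ℕ, 1 ≤ i → i ≤ 3 * s + c →
      Subsingleton (Abelian.Ext.{u} (ModuleCat.of A (Du k A)) (ModuleCat.of A A) i)) :
    Module.Injective A A := by
  obtain ⟨hc2, hR⟩ := toGAlg_rise 𝒜 A₀ hA₀ h2 s hs hc
  exact core_alg_sharp (toGAlg 𝒜 s hs) h2 (toGAlg_loc 𝒜 A₀ hA₀ s hs) hR s
    le_rfl (fun i h1 hi => hv i h1 (by omega))

theorem exists_top [Module.Finite k A] (𝒜 : ℕ → Submodule k A) [GradedAlgebra 𝒜] :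
    ∃ s, ∀ i, s < i → 𝒜 i = ⊥ := by
  classical
  obtain ⟨S, hS⟩ := (inferInstance : Module.Finite k A).fg_top
  refine ⟨(S.biUnion (fun a => (DirectSum.decompose 𝒜 a).support)).sup id, fun i hi => ?_⟩
  rw [eq_bot_iff]
  intro a ha
  rw [Submodule.mem_bot, ← (show dproj 𝒜 i a = a by
    rw [dproj_of_mem 𝒜 i i ha, if_pos rfl])]
  have h1 : a ∈ Submodule.span k (S : Set A) := by
    rw [hS]
    exact Submodule.mem_top
  refine Submodule.span_induction (p := fun x _ => dproj 𝒜 i x = 0) ?_ ?_ ?_ ?_ h1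
  · intro x hx
    by_contra hc
    have h3 : i ∈ S.biUnion (fun a => (DirectSum.decompose 𝒜 a).support) := by
      rw [Finset.mem_biUnion]
      refine ⟨x, hx, ?_⟩
      rw [DFinsupp.mem_support_iff]
      intro h4
      apply hc
      change (DirectSum.decompose 𝒜 x i : A) = 0
      rw [h4]
      rfl
    have h4 := Finset.le_sup (f := id) h3
    simp only [id] at h4
    omega
  · simp
  · intro x y _ _ hx hy
    rw [map_add, hx, hy, add_zero]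
  · intro c x _ hx
    rw [map_smul, hx, smul_zero]

/-- Tachikawa's first conjecture for these algebras. -/
theorem main_tc [Module.Finite k A] (h2 : (2 : k) ≠ 0)
    (𝒜 : ℕ → Submodule k A) [GradedAlgebra 𝒜] (A₀ : Subalgebra k A)
    (hA₀ : ∀ a, a ∈ A₀ ↔ a ∈ 𝒜 0) [IsLocalRing A₀] (c : ℕ) (hc : Cnd k A₀ c)
    (hv : ∀ I : ModuleCat.{u} A, Module.Finite A I → Module.Injective A I → ∀ i : ℕ, 0 < i →
      Subsingleton (Abelian.Ext.{u} I (ModuleCat.of A A) i)) :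
    Module.Injective A A := by
  obtain ⟨s, hs⟩ := exists_top (k := k) 𝒜
  refine main_alg h2 𝒜 A₀ hA₀ c hc s hs (fun i hi _ => hv _ ?_ ?_ i hi)
  · exact Module.Finite.of_restrictScalars_finite k A (Du k A)
  · exact dual_inj k (Module.Basis.singleton Unit A)

end Pool.Agent.TGA
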