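import Pool.Agent.TGA.Rad

/-!
# TGA-PHI: functionals with values in the residue field, and the forms they define
-/

set_option autoImplicit false

noncomputable section

universe u

namespace Pool.Agent.TGA

variable {k A : Type u} [Field k] [CommRing A] [Algebra k A]

/-- The residue ring. -/
abbrev Kp (A : Type u) [CommRing A] : Type u := A ⧸ nilradical A

theorem exists_phi [Nontrivial A] (hu : ∀ a : A, IsUnit a ∨ IsNilpotent a) {V : Type u}
    [AddCommGroup V] [Module A V] (P : Submodule A V)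
    (hP : ∀ a ∈ nilradical A, ∀ v : V, a • v ∈ P) {x : V} (hx : x ∉ P) :
    ∃ Φ : V →ₗ[A] Kp A, Φ x ≠ 0 ∧ ∀ v ∈ P, Φ v = 0 := by
  have hmax := nilrad_max hu
  let _ : Field (A ⧸ nilradical A) := Ideal.Quotient.field _
  have ht : Module.IsTorsionBySet A (V ⧸ P) (nilradical A : Set A) := by
    intro w a
    obtain ⟨v, rfl⟩ := P.mkQ_surjective w
    rw [← map_smul]
    exact (Submodule.Quotient.mk_eq_zero P).2 (hP a a.2 v)
  let _ : Module (A ⧸ nilradical A) (V ⧸ P) := ht.module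
  have : IsScalarTower A (A ⧸ nilradical A) (V ⧸ P) := ht.isScalarTower
  have hx' : P.mkQ x ≠ 0 := by
    intro h
    exact hx ((Submodule.Quotient.mk_eq_zero P).1 h)
  obtain ⟨f, hf⟩ : ∃ f : (V ⧸ P) →ₗ[A ⧸ nilradical A] (A ⧸ nilradical A), f (P.mkQ x) ≠ 0 := by
    by_contra hcon
    push Not at hcon
    exact hx' ((Module.forall_dual_apply_eq_zero_iff (A ⧸ nilradical A) (P.mkQ x)).mp hcon)
  refine ⟨(f.restrictScalars A).comp P.mkQ, hf, fun v hv => ?_⟩
  have h1 : P.mkQ v = 0 := (Submodule.Quotient.mk_eq_zero P).2 hv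
  change f (P.mkQ v) = 0
  rw [h1, map_zero]

variable {V : Type u} [AddCommGroup V] [Module k V] [Module A V] [IsScalarTower k A V]
variable {W : Type u} [AddCommGroup W] [Module k W] [Module A W] [IsScalarTower k A W]

theorem phi_smul (Φ : V →ₗ[A] Kp A) (c : k) (v : V) : Φ (c • v) = c • Φ v := by
  rw [← algebraMap_smul A c v, map_smul, algebraMap_smul]

/-- The form `λ(Φ v Ψ w)`. -/
def fm (l : Kp A →ₗ[k] k) (Φ : V →ₗ[A] Kp A) (Ψ : W →ₗ[A] Kp A) : BF k V W :=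
  BF.mk (fun v w => l (Φ v * Ψ w)) (by intros; rw [map_add, add_mul, map_add])
    (by intro c v w; rw [phi_smul, smul_mul_assoc, map_smul, smul_eq_mul])
    (by intros; rw [map_add, mul_add, map_add])
    (by intro c v w; rw [phi_smul, mul_smul_comm, map_smul, smul_eq_mul])

theorem fm_ev (l : Kp A →ₗ[k] k) (Φ : V →ₗ[A] Kp A) (Ψ : W →ₗ[A] Kp A) (v : V) (w : W) :
    ev (fm l Φ Ψ) v w = l (Φ v * Ψ w) := rfl

theorem fm_bil (l : Kp A →ₗ[k] k) (Φ : V →ₗ[A] Kp A) (Ψ : W →ₗ[A] Kp A) :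
    fm l Φ Ψ ∈ Bil k A V W := by
  intro a v w
  rw [fm_ev, fm_ev, map_smul, map_smul, smul_mul_assoc, mul_smul_comm]

theorem exists_form [Nontrivial A] (hu : ∀ a : A, IsUnit a ∨ IsNilpotent a)
    (P : Submodule A V) (hP : ∀ a ∈ nilradical A, ∀ v : V, a • v ∈ P) {x : V} (hx : x ∉ P)
    (Q : Submodule A W) (hQ : ∀ a ∈ nilradical A, ∀ v : W, a • v ∈ Q) {y : W} (hy : y ∉ Q) :
    ∃ C ∈ Bil k A V W, ev C x y ≠ 0 := by
  have hmax := nilrad_max hu
  obtain ⟨Φ, h1, _⟩ := exists_phi hu P hP hx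
  obtain ⟨Ψ, h2, _⟩ := exists_phi hu Q hQ hy
  have h3 : Φ x * Ψ y ≠ 0 := mul_ne_zero h1 h2
  obtain ⟨l, hl⟩ : ∃ l : Module.Dual k (Kp A), l (Φ x * Ψ y) ≠ 0 := by
    by_contra hcon
    push Not at hcon
    exact h3 ((Module.forall_dual_apply_eq_zero_iff k _).mp hcon)
  exact ⟨fm l Φ Ψ, fm_bil l Φ Ψ, hl⟩

end Pool.Agent.TGA
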