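import Pool.Agent.TGA.SFr

/-!
# TG-POL: the two identities for free modules

PLAN.  `sum_le_add_lt`: split `Fin r × Fin r` by `q.1 ≤ q.2`, `q.2 < q.1` and swap the second
part; `∑ q, X ^ (dg q.1 + dg q.2) = (∑ t, X ^ dg t) ^ 2` (`Finset.sum_mul_sum`,
`Fintype.sum_prod_type`).  `sum_le_sub_lt`: the difference is the sum over the diagonal,
`X ^ (2 * dg t) = expand ℤ 2 (X ^ dg t)`.
-/

set_option autoImplicit false

noncomputable section

universe u

namespace Pool.Agent.TGA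

open Polynomial

variable {k A : Type u} [Field k] [CommRing A] [Algebra k A]

theorem sum_le_add_lt {r : ℕ} (dg : Fin r → ℕ) :
    (∑ q ∈ (Finset.univ : Finset (Fin r × Fin r)).filter (fun q => q.1 ≤ q.2),
        (X : ℤ[X]) ^ (dg q.1 + dg q.2)) +
      ∑ q ∈ (Finset.univ : Finset (Fin r × Fin r)).filter (fun q => q.1 < q.2),
        (X : ℤ[X]) ^ (dg q.1 + dg q.2) = (∑ t, X ^ dg t) ^ 2 := by
  have e1 : ∑ q : Fin r × Fin r, (X : ℤ[X]) ^ (dg q.1 + dg q.2) = (∑ t, X ^ dg t) ^ 2 := by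
    rw [sq, Finset.sum_mul_sum, Fintype.sum_prod_type]
    refine Finset.sum_congr rfl (fun i _ => Finset.sum_congr rfl (fun j _ => ?_))
    rw [pow_add]
  have e2 : ∑ q ∈ (Finset.univ : Finset (Fin r × Fin r)).filter (fun q => q.1 < q.2),
        (X : ℤ[X]) ^ (dg q.1 + dg q.2) =
      ∑ q ∈ (Finset.univ : Finset (Fin r × Fin r)).filter (fun q => ¬ q.1 ≤ q.2),
        (X : ℤ[X]) ^ (dg q.1 + dg q.2) := by
    refine Finset.sum_equiv (Equiv.prodComm _ _) ?_ ?_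
    · rintro ⟨i, j⟩
      simp
    · rintro ⟨i, j⟩ _
      simp only [Equiv.prodComm_apply, Prod.swap_prod_mk]
      rw [add_comm]
  rw [e2, Finset.sum_filter_add_sum_filter_not, e1]

theorem sum_le_sub_lt {r : ℕ} (dg : Fin r → ℕ) :
    (∑ q ∈ (Finset.univ : Finset (Fin r × Fin r)).filter (fun q => q.1 ≤ q.2),
        (X : ℤ[X]) ^ (dg q.1 + dg q.2)) -
      ∑ q ∈ (Finset.univ : Finset (Fin r × Fin r)).filter (fun q => q.1 < q.2),
        (X : ℤ[X]) ^ (dg q.1 + dg q.2) = expand ℤ 2 (∑ t, X ^ dg t) := by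
  have e1 : ∀ q : Fin r × Fin r, (if q.1 ≤ q.2 then (X : ℤ[X]) ^ (dg q.1 + dg q.2) else 0) =
      (if q.1 < q.2 then (X : ℤ[X]) ^ (dg q.1 + dg q.2) else 0) +
        (if q.1 = q.2 then (X : ℤ[X]) ^ (dg q.1 + dg q.2) else 0) := by
    rintro ⟨i, j⟩
    rcases lt_trichotomy i j with h | h | h
    · simp [h, h.le, h.ne]
    · simp [h]
    · simp [not_le.mpr h, not_lt.mpr h.le, h.ne']
  rw [Finset.sum_filter, Finset.sum_filter, Finset.sum_congr rfl (fun q _ => e1 q),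
    Finset.sum_add_distrib, add_sub_cancel_left, Fintype.sum_prod_type, map_sum]
  refine Finset.sum_congr rfl (fun i _ => ?_)
  rw [Finset.sum_ite_eq Finset.univ i (fun j => (X : ℤ[X]) ^ (dg i + dg j)),
    if_pos (Finset.mem_univ _), map_pow, expand_X, ← pow_mul]
  congr 1
  ring

theorem sy_fr_add [Module.Finite k A] (G : GAlg k A) (h2 : (2 : k) ≠ 0) {r : ℕ}
    (dg : Fin r → ℕ) :
    hp (syG (cmp_fr G dg) 1) + hp (syG (cmp_fr G dg) (-1)) =
      hp G.toGrd * (∑ t, X ^ dg t) ^ 2 := by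
  rw [hp_sy_one, hp_sy_neg G h2, ← mul_add, sum_le_add_lt]

theorem sy_fr_sub [Module.Finite k A] (G : GAlg k A) (h2 : (2 : k) ≠ 0) {r : ℕ}
    (dg : Fin r → ℕ) :
    hp (syG (cmp_fr G dg) 1) - hp (syG (cmp_fr G dg) (-1)) =
      hp G.toGrd * expand ℤ 2 (∑ t, X ^ dg t) := by
  rw [hp_sy_one, hp_sy_neg G h2, ← mul_sub, sum_le_sub_lt]

end Pool.Agent.TGA
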