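import Pool.Agent.TGA.Sht
import Pool.Agent.TGA.Cmpr

/-!
# TGA-REC: the defects vanish

Under the hypotheses on `A_0` the lowest degree of the syzygies in minimal covers rises.
First `M.bb = 0` (its degree is at most `2 t + s`); then the degree of `M.s 1 + M.s (-1)` is
`2 deg hp M - deg hp A`, and the degree of `M.tt` is at most `2 t + s` too.
-/

set_option autoImplicit false

noncomputable section

universe u

namespace Pool.Agent.TGA

open Polynomial

variable {k A : Type u} [Field k] [CommRing A] [Algebra k A] {G : GAlg k A}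

theorem low_dvd (M : GM k A G) (m : ℕ) (hl : M.low m) :
    X ^ (2 * m) ∣ M.tt ∧ X ^ (2 * m) ∣ M.bb := by
  have hs := s_dvd M m hl
  have hv : X ^ m ∣ hp M.H := hp_dvd _ hl
  have hv2 : X ^ (2 * m) ∣ hp M.H ^ 2 := by
    have := pow_dvd_pow_of_dvd hv 2
    rwa [← pow_mul, mul_comm m 2] at this
  constructor
  · unfold GM.tt
    exact dvd_sub ((dvd_sub (hs 1) (hs (-1))).mul_right _) ((v_dvd M m hl).mul_left _)
  · unfold GM.bb
    exact dvd_sub ((dvd_add (hs 1) (hs (-1))).mul_right _) hv2

/-- Suitable covers raise the lowest degree. -/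
def Rise (G : GAlg k A) (δ : ℕ) : Prop :=
  ∀ (M : GM k A G) (m q : ℕ), M.low m → Van k A M.X (q + δ + 2) →
    ∃ (N : GM k A G) (_ : Cv M N m), N.low (m + 1)

theorem rise_short (h2 : (2 : k) ≠ 0) [Nontrivial A] [Module.Finite k A] (hloc : G.Loc)
    (hs : G.Short) {δ : ℕ} (hδ : 2 ≤ δ) : Rise G δ := by
  intro M m q hl hv
  obtain ⟨N, ⟨c⟩⟩ := exists_mcover hloc M m hl
  obtain ⟨N', ⟨c'⟩⟩ := exists_mcover hloc N m (cvr_low c.toCv)
  exact ⟨N, c.toCv, short_low h2 hloc hs c c' (fun j h1 h1' => hv j h1 (by omega))⟩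

theorem rise_prin [Nontrivial A] [Module.Finite k A] (hloc : G.Loc)
    (hp : G.Prin) (δ : ℕ) : Rise G δ := by
  intro M m q hl hv
  obtain ⟨N, ⟨c⟩⟩ := exists_mcover hloc M m hl
  exact ⟨N, c.toCv, prin_low hloc hp c hl (fun j h1 h1' => hv j h1 (by omega))⟩

theorem rise_pc [Module.Finite k A] (B : Subalgebra k A) (hB : ∀ a, a ∈ B ↔ G.p 0 a = a)
    {δ c : ℕ} (hc : c ≤ δ + 2) (hP : PC k B c) : Rise G δ := by
  intro M m q hl hv
  have hf : Module.Finite k (Lw B hB M m) := lw_fin M m
  exact low_free (hB := hB) M m hl (hP _ (van_low M m hl c (fun j h1 h1' => hv j h1 (by omega))))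

theorem rec_dvd (h2 : (2 : k) ≠ 0) [Module.Finite k A] {δ : ℕ} (hR : Rise G δ) (n : ℕ) :
    ∀ (M : GM k A G) (m : ℕ), M.low m → Van k A M.X (2 * n + δ) →
      X ^ (2 * (m + n)) ∣ M.tt ∧ X ^ (2 * (m + n)) ∣ M.bb := by
  induction n with
  | zero =>
    intro M m hl _
    exact low_dvd M m hl
  | succ n ih =>
    intro M m hl hv
    have hv' : Van k A M.X (2 * n + δ + 2) := by
      rwa [show 2 * (n + 1) + δ = 2 * n + δ + 2 by ring] at hv
    obtain ⟨N, c, h1⟩ := hR M m (2 * n) hl hv'
    obtain ⟨h3, h4, h5⟩ := step h2 c (2 * n + δ) hv'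
    obtain ⟨h6, h7⟩ := ih N (m + 1) h1 h3
    have e : 2 * (m + (n + 1)) = 2 * (m + 1 + n) := by omega
    rw [e, h4, h5]
    exact ⟨(dvd_neg).mpr h6, h7⟩

theorem defects_zero_sharp [Module.Finite k A] (h2 : (2 : k) ≠ 0)
    {δ : ℕ} (hR : Rise G δ) (M : GM k A G) (s t : ℕ)
    (hs : G.top ≤ s + 1) (ht : M.H.top ≤ t + 1) (hv : Van k A M.X (2 * t + s + 2 + δ)) :
    M.tt = 0 ∧ M.bb = 0 := by
  have hd := rec_dvd h2 hR (t + s / 2 + 1) M 0
    (fun j hj => absurd hj (Nat.not_lt_zero j)) (fun i h1 hi => hv i h1 (by omega))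
  have hh : (hp G.toGrd).natDegree ≤ s := by
    rw [natDegree_le_iff_coeff_eq_zero]
    intro N hN
    exact hp_coeff_zero _ (fun v => G.toGrd.p_ge (by omega) v)
  have hvd : (hp M.H).natDegree ≤ t := by
    rw [natDegree_le_iff_coeff_eq_zero]
    intro N hN
    exact hp_coeff_zero _ (fun v => M.H.p_ge (by omega) v)
  have hs1 : ∀ e : k, (M.s e).natDegree ≤ 2 * t := by
    intro e
    rw [natDegree_le_iff_coeff_eq_zero]
    intro N hN
    refine hp_coeff_zero _ (fun B => ?_)
    refine syG_zero M e N (fun i hi => ?_) B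
    by_cases h : t + 1 ≤ i
    · exact Or.inl (fun x => M.H.p_ge (by omega) x)
    · exact Or.inr (fun x => M.H.p_ge (by omega) x)
  have key : ∀ p : ℤ[X], X ^ (2 * (0 + (t + s / 2 + 1))) ∣ p → p.natDegree ≤ 2 * t + s →
      p = 0 := by
    intro p hp1 hp2
    refine eq_zero_of_dvd_of_natDegree_lt hp1 ?_
    rw [natDegree_X_pow]
    omega
  have hbb : M.bb = 0 := by
    refine key _ hd.2 ?_
    unfold GM.bb
    refine (natDegree_sub_le _ _).trans (max_le ?_ ?_)
    · have h3 := natDegree_mul_le_of_le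
        (natDegree_add_le_of_le (hs1 1) (hs1 (-1))) hh
      rw [max_self] at h3
      omega
    · have h3 := natDegree_pow_le_of_le 2 hvd
      omega
  refine ⟨?_, hbb⟩
  have hnn : ∀ (e : k) (n : ℕ), 0 ≤ (M.s e).coeff n := by
    intro e n
    rw [GM.s, hp_coeff]
    positivity
  by_cases hz : hp G.toGrd = 0
  · unfold GM.tt
    rw [hz]
    simp
  have e1 : (M.s 1 + M.s (-1)) * hp G.toGrd = hp M.H ^ 2 := by
    unfold GM.bb at hbb
    exact sub_eq_zero.mp hbb
  -- degree of the difference
  have hdeg : (M.s 1 - M.s (-1)).natDegree ≤ (M.s 1 + M.s (-1)).natDegree := by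
    rw [natDegree_le_iff_coeff_eq_zero]
    intro N hN
    have h3 : (M.s 1 + M.s (-1)).coeff N = 0 := coeff_eq_zero_of_natDegree_lt hN
    rw [coeff_add] at h3
    have h4 := hnn 1 N
    have h5 := hnn (-1) N
    rw [coeff_sub]
    omega
  have hsum : (M.s 1 + M.s (-1)).natDegree + 2 * (hp G.toGrd).natDegree ≤ 2 * t + s ∨
      M.s 1 - M.s (-1) = 0 := by
    by_cases hP : M.s 1 + M.s (-1) = 0
    · right
      ext N
      have h3 : (M.s 1 + M.s (-1)).coeff N = 0 := by rw [hP, coeff_zero]
      rw [coeff_add] at h3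
      have h4 := hnn 1 N
      have h5 := hnn (-1) N
      rw [coeff_sub, coeff_zero]
      omega
    · left
      have h3 := congrArg natDegree e1
      rw [natDegree_mul hP hz, natDegree_pow] at h3
      omega
  refine key _ hd.1 ?_
  unfold GM.tt
  refine (natDegree_sub_le _ _).trans (max_le ?_ ?_)
  · rcases hsum with h3 | h3
    · refine (natDegree_mul_le).trans ?_
      rw [natDegree_expand]
      omega
    · rw [h3, zero_mul]
      simp
  · refine (natDegree_mul_le).trans ?_
    rw [natDegree_expand]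
    omega

theorem dims_sharp [Module.Finite k A] (h2 : (2 : k) ≠ 0)
    {δ : ℕ} (hR : Rise G δ) (M : GM k A G) (s t : ℕ)
    (hs : G.top ≤ s + 1) (ht : M.H.top ≤ t + 1) (hv : Van k A M.X (2 * t + s + 2 + δ)) :
    Module.finrank k (Sy k A M.X 1) =
        Module.finrank k (Sy k A M.X (-1)) + Module.finrank k M.X ∧
      (Module.finrank k (Sy k A M.X 1) + Module.finrank k (Sy k A M.X (-1))) *
        Module.finrank k A = Module.finrank k M.X ^ 2 := by
  obtain ⟨h3, h4⟩ := defects_zero_sharp h2 hR M s t hs ht hv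
  by_cases ha : Module.finrank k A = 0
  · have hA : Subsingleton A := Module.finrank_zero_iff.mp ha
    have hM : Subsingleton M.X := Module.subsingleton A M.X
    have hB : Subsingleton (BF k M.X M.X) := ⟨fun B B' => BF.ext (fun v w => by
      rw [Subsingleton.elim v 0, ev_zero_left, ev_zero_left])⟩
    have h5 : Module.finrank k (Sy k A M.X 1) = 0 := Module.finrank_zero_of_subsingleton
    have h6 : Module.finrank k (Sy k A M.X (-1)) = 0 := Module.finrank_zero_of_subsingleton
    have h7 : Module.finrank k M.X = 0 := Module.finrank_zero_of_subsingleton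
    rw [h5, h6, h7]
    simp
  · have e1 := congrArg (Polynomial.eval 1) h3
    have e2 := congrArg (Polynomial.eval 1) h4
    unfold GM.tt at e1
    unfold GM.bb at e2
    unfold GM.s at e1 e2
    rw [eval_sub, eval_mul, eval_sub, eval_mul, expand_eval, expand_eval, one_pow, hp_eval,
      hp_eval, hp_eval, hp_eval, eval_zero] at e1
    rw [eval_sub, eval_mul, eval_add, eval_pow, hp_eval, hp_eval, hp_eval, hp_eval,
      eval_zero] at e2
    have ha' : (Module.finrank k A : ℤ) ≠ 0 := by exact_mod_cast ha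
    constructor
    · have h5 : ((Module.finrank k (Sy k A M.X 1) : ℤ) - Module.finrank k (Sy k A M.X (-1))) =
          Module.finrank k M.X := by
        apply mul_right_cancel₀ ha'
        linarith
      have h6 : (Module.finrank k (Sy k A M.X 1) : ℤ) =
          Module.finrank k (Sy k A M.X (-1)) + Module.finrank k M.X := by linarith
      exact_mod_cast h6
    · have h5 : ((Module.finrank k (Sy k A M.X 1) : ℤ) + Module.finrank k (Sy k A M.X (-1))) *
          Module.finrank k A = (Module.finrank k M.X : ℤ) ^ 2 := by linarith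
      exact_mod_cast h5

end Pool.Agent.TGA
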