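import Pool.Agent.TGA.Step
import Pool.Agent.TGA.LowQ

/-!
# TGA-SHT: minimal covers raise the lowest degree

`short_low`: the cube of the maximal ideal of `A_0` is zero; two steps.
`prin_low`: the maximal ideal of `A_0` is principal.
-/

set_option autoImplicit false

noncomputable section

universe u

namespace Pool.Agent.TGA

open Polynomial

variable {k A : Type u} [Field k] [CommRing A] [Algebra k A] {G : GAlg k A}

theorem ext_FF {M N : GM k A G} {m : ℕ} (c : Cv M N m) (hv : Van k A M.X 2) :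
    ∀ K ∈ Bil k A N.X N.X, ∃ C ∈ Bil k A (Fin c.r → A) (Fin c.r → A),
      ∀ n n', ev C (c.i n) (c.i n') = ev K n n' := by
  intro K hK
  obtain ⟨C, hC, h1⟩ := van_LB (Pi.basisFun A (Fin c.r)) c.i c.π c.hi c.hπ c.hex hv K hK
  obtain ⟨C', hC', h3⟩ := ext_C (k := k) (N := N.X) (F := Fin c.r → A)
    (Pi.basisFun A (Fin c.r)) c.i c.hi C hC
  exact ⟨C', hC', fun n n' => by rw [h3, h1]⟩

theorem form_zero {r : ℕ} {C : BF k (Fin r → A) (Fin r → A)}
    (hC : C ∈ Bil k A (Fin r → A) (Fin r → A)) {v w : Fin r → A}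
    (h : ∀ t t', v t * w t' = 0) : ev C v w = 0 := by
  have hv : v = ∑ t, v t • (Pi.single t 1 : Fin r → A) := by
    funext s
    rw [Finset.sum_apply, Finset.sum_eq_single s]
    · simp
    · intro t _ ht
      rw [Pi.smul_apply, Pi.single_eq_of_ne (Ne.symm ht), smul_zero]
    · intro hs
      exact absurd (Finset.mem_univ _) hs
  rw [hv, ev_sum_left]
  refine Finset.sum_eq_zero (fun t _ => ?_)
  rw [hC]
  have h1 : v t • w = 0 := by
    funext t'
    exact h t t'
  rw [h1, ev_zero_right]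

theorem i_comp {M N : GM k A G} {m : ℕ} (c : Cvr M N m) (x : N.X) (t : Fin c.r) :
    ∃ b, c.i (N.H.p m x) t = G.p 0 b ∧ IsNilpotent (G.p 0 b) := by
  have h0 : c.i (N.H.p m x) t = if c.dg t ≤ m then G.p (m - c.dg t) (c.i x t) else 0 := by
    rw [c.hgi, frG_p]
  have h1 := c.hdg t
  by_cases h : c.dg t = m
  · refine ⟨c.i x t, ?_, ?_⟩
    · rw [h0, h, if_pos le_rfl, Nat.sub_self]
    · have h3 := c.hmin x t h
      rw [h0, h, if_pos le_rfl, Nat.sub_self] at h3
      exact h3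
  · refine ⟨0, ?_, ?_⟩
    · rw [h0, if_neg (by omega), map_zero]
    · rw [map_zero]
      exact IsNilpotent.zero

theorem short_Z {M N : GM k A G} {m : ℕ} (c : Cvr M N m) (hs : G.Short)
    (hv : Van k A M.X 2) : Z N m := by
  intro K hK a x y ha
  obtain ⟨C, hC, h1⟩ := ext_FF c.toCv hv K hK
  rw [← h1]
  refine form_zero hC (fun t t' => ?_)
  obtain ⟨b, hb, hb'⟩ := i_comp c x t
  obtain ⟨b', hb1, hb1'⟩ := i_comp c y t'
  rw [map_smul, Pi.smul_apply, hb, hb1, smul_eq_mul]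
  exact hs a b b' ha hb' hb1'

theorem short_low (h2 : (2 : k) ≠ 0) [Nontrivial A] [Module.Finite k A] (hloc : G.Loc)
    (hs : G.Short) {M N N' : GM k A G} {m : ℕ} (c : Cvr M N m) (c' : Cvr N N' m)
    (hv : Van k A M.X 4) : N.low (m + 1) := by
  have hu := loc_all hloc
  have hv2 : Van k A M.X 2 := fun j h1 h1' => hv j h1 (by omega)
  obtain ⟨hvN, _, _⟩ := step h2 c.toCv 2 hv
  obtain ⟨_, htt, _⟩ := step h2 c'.toCv 0 hvN
  have hlN := cvr_low c.toCv
  have hlN' := cvr_low c'.toCv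
  have hZ := short_Z c hs hv2
  have hZ' := short_Z c' hs hvN
  have e1 := low_le h2 hu hlN hZ
  have e2 := low_le h2 hu hlN' hZ'
  have e3 : N.tt.coeff (2 * m) = -N'.tt.coeff (2 * m) := by rw [htt, coeff_neg]
  have hN := low_eq h2 hu hlN hZ (by omega)
  have hN' := low_eq h2 hu hlN' hZ' (by omega)
  refine low_succ (k := k) hu hlN (fun B hB x y => ?_)
  by_cases hx : N.H.p m x = 0
  · rw [hx, ev_zero_left]
  -- a generator of degree `m`
  obtain ⟨t, ht⟩ : ∃ t, c'.dg t = m := by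
    by_contra hcon
    push Not at hcon
    apply hx
    obtain ⟨f, rfl⟩ := c'.hπ x
    rw [← c'.hgπ]
    have h1 : (frG G c'.dg).p m f = 0 := by
      funext t
      rw [frG_p, if_neg (by have h3 := c'.hdg t; have h4 := hcon t; omega)]
      rfl
    rw [h1, map_zero]
  have hsq : ∀ a b : A, IsNilpotent (G.p 0 a) → IsNilpotent (G.p 0 b) →
      G.p 0 a * G.p 0 b = 0 := by
    intro a b ha hb
    have h1 : (frG G c'.dg).p m (Pi.single t 1) = Pi.single t 1 := by
      rw [frG_single, if_pos ht.symm]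
    have h3 : c'.π (G.p 0 a • (Pi.single t 1 : Fin c'.r → A)) = 0 := by
      rw [map_smul, ← h1, c'.hgπ]
      exact hN a _ ha
    have h4 : G.p 0 a • (Pi.single t 1 : Fin c'.r → A) ∈ LinearMap.range c'.i := by
      rw [c'.hex]
      exact h3
    obtain ⟨n, hn⟩ := h4
    have h5 : c'.i (N'.H.p m n) = G.p 0 a • (Pi.single t 1 : Fin c'.r → A) := by
      rw [c'.hgi, hn]
      have h6 := (cmp_fr G c'.dg).hom m 0 m a (Pi.single t 1)
      rw [h1, if_pos (Nat.zero_add m)] at h6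
      exact h6
    have h7 := hN' b n hb
    have h8 := congrArg c'.i h7
    rw [map_smul, h5, map_zero] at h8
    have h9 := congrFun h8 t
    simp only [Pi.smul_apply, Pi.single_eq_same, smul_eq_mul, mul_one, Pi.zero_apply] at h9
    rw [mul_comm]
    exact h9
  obtain ⟨C, hC, h1⟩ := ext_FF c.toCv hv2 B hB
  rw [← h1]
  refine form_zero hC (fun t t' => ?_)
  obtain ⟨b, hb, hb'⟩ := i_comp c x t
  obtain ⟨b', hb1, hb1'⟩ := i_comp c y t'
  rw [hb, hb1]
  exact hsq b b' hb' hb1'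

theorem pp_prin {M : GM k A G} {m : ℕ} (hl : M.low m) {w : A}
    (hw : ∀ a : A, IsNilpotent (G.p 0 a) → ∃ b : A, G.p 0 a = G.p 0 w * G.p 0 b)
    {u : M.X} (hu : u ∈ PP M m hl) : ∃ z, M.H.p m u = G.p 0 w • M.H.p m z := by
  obtain ⟨y, hy, z, hz, rfl⟩ := Submodule.mem_sup.mp hu
  have hz' : M.H.p m z = 0 := hz
  rw [map_add, hz', add_zero]
  refine Submodule.smul_induction_on hy (fun a ha n _ => ?_) (fun x y hx hy => ?_)
  · obtain ⟨b, hb⟩ := hw a ((nil_iff G a).mp (mem_nilradical.mp ha))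
    refine ⟨b • n, ?_⟩
    rw [p_low_mul M.hc hl, p_low_mul M.hc hl, hb, mul_smul]
  · obtain ⟨z1, h1⟩ := hx
    obtain ⟨z2, h2⟩ := hy
    exact ⟨z1 + z2, by rw [map_add, map_add, h1, h2, smul_add]⟩

theorem prin_low [Nontrivial A] (hloc : G.Loc) (hp : G.Prin) {M N : GM k A G} {m : ℕ}
    (c : Cvr M N m) (hlM : M.low m) (hv : Van k A M.X 1) : N.low (m + 1) := by
  have hu := loc_all hloc
  have hlN := cvr_low c.toCv
  by_contra hcon
  obtain ⟨x, hx, hxP⟩ := exists_notMem hlN hcon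
  obtain ⟨w, hwn, hw⟩ := hp
  let S : ℕ → Prop := fun j => ∃ x' : Fin c.r → A, (frG G c.dg).p m x' = x' ∧
    c.i x = (G.p 0 w) ^ j • x'
  have hS0 : S 0 := ⟨c.i x, by rw [← c.hgi, hx], by rw [pow_zero, one_smul]⟩
  obtain ⟨j, hj, hj1⟩ : ∃ j, S j ∧ ¬ S (j + 1) := by
    by_contra hc
    push Not at hc
    have hall : ∀ j, S j := fun j => Nat.rec hS0 (fun j hj => hc j hj) j
    obtain ⟨n, hn⟩ := hwn
    obtain ⟨x', _, h1⟩ := hall n
    rw [hn, zero_smul] at h1
    have h3 : x = 0 := c.hi (by rw [h1, map_zero])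
    exact hxP (h3 ▸ (PP N m hlN).zero_mem)
  obtain ⟨x', hx', hix⟩ := hj
  have hπ0 : ∀ n, c.π (c.i n) = 0 := fun n => by
    have h1 : c.i n ∈ LinearMap.ker c.π := c.hex ▸ LinearMap.mem_range_self c.i n
    exact h1
  have huP : c.π x' ∉ PP M m hlM := by
    intro hmem
    obtain ⟨z, hz⟩ := pp_prin hlM hw hmem
    obtain ⟨f, rfl⟩ := c.hπ z
    rw [← c.hgπ, ← c.hgπ, hx', ← map_smul] at hz
    have h1 : x' - G.p 0 w • (frG G c.dg).p m f ∈ LinearMap.range c.i := by
      rw [c.hex, LinearMap.mem_ker, map_sub, hz, sub_self]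
    obtain ⟨y, hy⟩ := h1
    have h3 : x' = G.p 0 w • (frG G c.dg).p m f + c.i (N.H.p m y) := by
      have h4 : x' = G.p 0 w • (frG G c.dg).p m f + c.i y := by rw [hy]; abel
      conv_lhs => rw [← hx', h4, map_add, ← c.hgi]
      congr 1
      have h6 := (cmp_fr G c.dg).hom m 0 m w f
      rw [if_pos (Nat.zero_add m)] at h6
      exact h6
    have h5 : ∀ t, ∃ b, c.i (N.H.p m y) t = G.p 0 w * b ∧
        (if c.dg t ≤ m then G.p (m - c.dg t) b else 0) = b := by
      intro t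
      by_cases ht : c.dg t = m
      · obtain ⟨b, hb, hb'⟩ := i_comp c y t
        obtain ⟨b1, hb1⟩ := hw b hb'
        refine ⟨G.p 0 b1, by rw [hb, hb1], ?_⟩
        rw [ht, if_pos le_rfl, Nat.sub_self, G.orth, if_pos rfl]
      · have h6 := c.hdg t
        refine ⟨0, ?_, ?_⟩
        · rw [c.hgi, frG_p, if_neg (by omega), mul_zero]
        · rw [if_neg (by omega)]
    choose y' hy1 hy2 using h5
    apply hj1
    refine ⟨(frG G c.dg).p m f + y', ?_, ?_⟩
    · rw [map_add, (frG G c.dg).orth, if_pos rfl]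
      congr 1
      funext t
      rw [frG_p]
      exact hy2 t
    · rw [hix, h3, pow_succ, mul_smul, smul_add (G.p 0 w)]
      congr 2
      funext t
      exact hy1 t
  obtain ⟨C, hC, hne⟩ := exists_form (k := k) hu (PP N m hlN) (pp_I hlN) hxP
    (PP M m hlM) (pp_I hlM) huP
  obtain ⟨C', hC', h1⟩ := van_LA c.i c.π c.hi c.hπ c.hex hv C hC
  apply hne
  rw [← h1, hix, hC', ← map_smul, ← hix, hπ0, ev_zero_right]

end Pool.Agent.TGA
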