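import Pool.Agent.TGA.Four
import Pool.Agent.TGA.Pol
import Pool.Agent.TGA.MCov
import Pool.Agent.TGA.VData

/-!
# TGA-STEP: one syzygy step
-/

set_option autoImplicit false

noncomputable section

universe u

namespace Pool.Agent.TGA

open Polynomial

variable {k A : Type u} [Field k] [CommRing A] [Algebra k A] {G : GAlg k A}

theorem step [Module.Finite k A] (h2 : (2 : k) ≠ 0) {M N : GM k A G} {m : ℕ} (c : Cv M N m)
    (q : ℕ) (hv : Van k A M.X (q + 2)) :
    Van k A N.X q ∧ M.tt = -N.tt ∧ M.bb = N.bb := by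
  have hv1 : Van k A M.X 1 := fun j h1 h1' => hv j h1 (by omega)
  have hv2 : Van k A M.X 2 := fun j h1 h1' => hv j h1 (by omega)
  have LA := van_LA c.i c.π c.hi c.hπ c.hex hv1
  have LB := van_LB (Pi.basisFun A (Fin c.r)) c.i c.π c.hi c.hπ c.hex hv2
  have LC := ext_C (k := k) (N := N.X) (F := Fin c.r → A) (Pi.basisFun A (Fin c.r)) c.i c.hi
  refine ⟨van_next (Pi.basisFun A (Fin c.r)) c.i c.π c.hi c.hπ c.hex q hv, ?_⟩
  have E1 := hp_seq (cmp_fr G c.dg) M.hc N.hc c.i c.π c.hπ c.hex c.hgi c.hgπ h2 1 (by ring)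
    LA LB LC
  have E2 := hp_seq (cmp_fr G c.dg) M.hc N.hc c.i c.π c.hπ c.hex c.hgi c.hgπ h2 (-1) (by ring)
    LA LB LC
  rw [neg_neg] at E2
  have E3 := hp_bil_fr G N.hc c.dg
  have E4 : hp (frG G c.dg) = hp N.H + hp M.H :=
    hp_short N.H (frG G c.dg) M.H (c.i.restrictScalars k) (c.π.restrictScalars k) c.hi c.hπ
      (by
        ext x
        exact (Submodule.ext_iff.mp c.hex x))
      (fun d n => c.hgi d n) (fun d f => c.hgπ d f)
  have E5 := hp_fr G c.dg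
  have E6 := sy_fr_add G h2 c.dg
  have E7 := sy_fr_sub G h2 c.dg
  rw [E3] at E1 E2
  generalize ∑ t, (X : ℤ[X]) ^ c.dg t = b at E1 E2 E5 E6 E7
  have hN : hp N.H = hp G.toGrd * b - hp M.H := by
    rw [← E5, E4]
    ring
  constructor
  · change (hp (syG M.hc 1) - hp (syG M.hc (-1))) * expand ℤ 2 (hp G.toGrd) -
        hp G.toGrd * expand ℤ 2 (hp M.H) =
      -((hp (syG N.hc 1) - hp (syG N.hc (-1))) * expand ℤ 2 (hp G.toGrd) -
        hp G.toGrd * expand ℤ 2 (hp N.H))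
    rw [hN, map_sub, map_mul]
    linear_combination (E1 - E2) * expand ℤ 2 (hp G.toGrd) + E7 * expand ℤ 2 (hp G.toGrd)
  · change (hp (syG M.hc 1) + hp (syG M.hc (-1))) * hp G.toGrd - hp M.H ^ 2 =
      (hp (syG N.hc 1) + hp (syG N.hc (-1))) * hp G.toGrd - hp N.H ^ 2
    rw [hN] at E1 E2 ⊢
    linear_combination (E1 + E2) * hp G.toGrd + E6 * hp G.toGrd

end Pool.Agent.TGA
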