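import Pool.Agent.TGA.Pol
import Pool.Agent.TGA.Phi

/-!
# TGA-TOR: forms on a module killed by the nilradical

For a vector space `V` over the finite extension `K` of `k` the space of symmetric forms is larger
than the space of antisymmetric forms by `dim_k V`.
-/

set_option autoImplicit false

noncomputable section

universe u

namespace Pool.Agent.TGA

open Polynomial

variable {k : Type u} [Field k]

/-- The trivial grading. -/
def trivG (k K : Type u) [Field k] [CommRing K] [Algebra k K] : GAlg k K where
  p i := if i = 0 then LinearMap.id else 0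
  top := 1
  orth i j v := by
    by_cases hi : i = 0
    · by_cases hj : j = 0
      · simp [hi, hj]
      · simp [hj]
    · by_cases hj : j = 0
      · rw [if_neg hi, if_pos hj, if_neg (fun h => hi (h.trans hj))]
        simp
      · simp [hi, hj]
  total v := by simp
  mul_p i j a b := by
    by_cases hi : i = 0
    · by_cases hj : j = 0
      · simp [hi, hj]
      · simp [hj]
    · simp [hi]
  p_one := by simp

section

variable {K V W : Type u} [CommRing K] [Algebra k K] [AddCommGroup V] [Module k V] [Module K V]
  [IsScalarTower k K V] [AddCommGroup W] [Module k W] [Module K W] [IsScalarTower k K W]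

/-- transport of forms along an isomorphism -/
theorem sy_congr (f : V ≃ₗ[K] W) (e : k) :
    Module.finrank k (Sy k K V e) = Module.finrank k (Sy k K W e) := by
  let F : Sy k K V e ≃ₗ[k] Sy k K W e :=
    { toFun := fun B => ⟨bcomp (f.symm.toLinearMap.restrictScalars k)
          (f.symm.toLinearMap.restrictScalars k) B.1, by
        refine ⟨fun a m n => ?_, fun m n => ?_⟩
        · simp only [ev_bcomp, LinearMap.coe_restrictScalars, map_smul]
          exact B.2.1 a _ _
        · simp only [ev_bcomp]
          exact B.2.2 _ _⟩
      invFun := fun B => ⟨bcomp (f.toLinearMap.restrictScalars k)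
          (f.toLinearMap.restrictScalars k) B.1, by
        refine ⟨fun a m n => ?_, fun m n => ?_⟩
        · simp only [ev_bcomp, LinearMap.coe_restrictScalars, map_smul]
          exact B.2.1 a _ _
        · simp only [ev_bcomp]
          exact B.2.2 _ _⟩
      map_add' := fun B B' => Subtype.ext (BF.ext (fun v w => by simp))
      map_smul' := fun c B => Subtype.ext (BF.ext (fun v w => by simp))
      left_inv := fun B => Subtype.ext (BF.ext (fun v w => by simp))
      right_inv := fun B => Subtype.ext (BF.ext (fun v w => by simp)) }
  exact F.finrank_eq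

end

theorem tor_fld {K : Type u} [Field K] [Algebra k K] [Module.Finite k K] (h2 : (2 : k) ≠ 0)
    {V : Type u} [AddCommGroup V] [Module k V] [Module K V] [IsScalarTower k K V]
    [Module.Finite k V] :
    Module.finrank k (Sy k K V 1) = Module.finrank k (Sy k K V (-1)) + Module.finrank k V := by
  have hfV : Module.Finite K V := Module.Finite.of_restrictScalars_finite k K V
  let b := Module.finBasis K V
  let f : V ≃ₗ[K] (Fin (Module.finrank K V) → K) := b.equivFun
  rw [sy_congr f 1, sy_congr f (-1), (f.restrictScalars k).finrank_eq]
  have h1 := congrArg (Polynomial.eval 1)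
    (sy_fr_sub (trivG k K) h2 (fun _ : Fin (Module.finrank K V) => 0))
  rw [eval_sub, eval_mul, hp_eval, hp_eval, hp_eval, expand_eval] at h1
  simp only [pow_zero, Finset.sum_const, Finset.card_univ, Fintype.card_fin, nsmul_eq_mul,
    mul_one, eval_natCast] at h1
  have h3 : Module.finrank k (Fin (Module.finrank K V) → K) =
      Module.finrank K V * Module.finrank k K := by
    rw [Module.finrank_pi_fintype]
    simp
  have h4 : (Module.finrank k (Fin (Module.finrank K V) → K) : ℤ) =
      Module.finrank K V * Module.finrank k K := by exact_mod_cast h3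
  have h5 : (Module.finrank k (Sy k K (Fin (Module.finrank K V) → K) 1) : ℤ) =
      Module.finrank k (Sy k K (Fin (Module.finrank K V) → K) (-1)) +
        Module.finrank k (Fin (Module.finrank K V) → K) := by
    rw [h4]
    linarith
  exact_mod_cast h5

variable {A : Type u} [CommRing A] [Algebra k A]

theorem tor_dim [Nontrivial A] [Module.Finite k A] (h2 : (2 : k) ≠ 0)
    (hu : ∀ a : A, IsUnit a ∨ IsNilpotent a) {V : Type u} [AddCommGroup V] [Module k V]
    [Module A V] [IsScalarTower k A V] [Module.Finite k V]
    (hV : ∀ a ∈ nilradical A, ∀ v : V, a • v = 0) :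
    Module.finrank k (Sy k A V 1) = Module.finrank k (Sy k A V (-1)) + Module.finrank k V := by
  have hmax := nilrad_max hu
  have ht : Module.IsTorsionBySet A V (nilradical A : Set A) := by
    intro w a
    exact hV a a.2 w
  let _ : Field (A ⧸ nilradical A) := Ideal.Quotient.field _
  let _ : Module (A ⧸ nilradical A) V := ht.module
  have hst : IsScalarTower A (A ⧸ nilradical A) V := ht.isScalarTower
  have hst2 : IsScalarTower k (A ⧸ nilradical A) V := by
    refine ⟨fun c x v => ?_⟩
    obtain ⟨a, rfl⟩ := Ideal.Quotient.mk_surjective x
    have h1 : ∀ (a : A) (v : V), (Ideal.Quotient.mk (nilradical A) a) • v = a • v := fun a v => rfl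
    have h3 : c • (Ideal.Quotient.mk (nilradical A) a) =
      Ideal.Quotient.mk (nilradical A) (c • a) := rfl
    rw [h3, h1, h1, smul_assoc]
  have h1 : ∀ (a : A) (v : V), (Ideal.Quotient.mk (nilradical A) a) • v = a • v := fun a v => rfl
  have h3 : ∀ e : k, Sy k A V e = Sy k (A ⧸ nilradical A) V e := by
    intro e
    ext B
    constructor
    · rintro ⟨h4, h5⟩
      refine ⟨fun x m n => ?_, h5⟩
      obtain ⟨a, rfl⟩ := Ideal.Quotient.mk_surjective x
      rw [h1, h1]
      exact h4 a m n
    · rintro ⟨h4, h5⟩
      refine ⟨fun a m n => ?_, h5⟩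
      rw [← h1, ← h1]
      exact h4 _ m n
  rw [h3 1, h3 (-1)]
  exact tor_fld h2

end Pool.Agent.TGA
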